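import Mathlib

/-!
# The discriminant form on two by two matrices
-/

set_option autoImplicit false

namespace Pool.Agent.H86.FM.Alg

open Matrix

/-- two by two matrices -/
abbrev M2 (F : Type*) : Type _ := Matrix (Fin 2) (Fin 2) F

section ring

variable {F : Type*} [CommRing F]

/-- the discriminant of the characteristic polynomial -/
def D (X : M2 F) : F := X.trace ^ 2 - 4 * X.det

/-- the polar form of the discriminant -/
def B (X Y : M2 F) : F := 2 * (X * Y).trace - X.trace * Y.trace

/-- the commutator -/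
def br (X Y : M2 F) : M2 F := X * Y - Y * X

theorem D_eq (X : M2 F) : D X = (X 0 0 - X 1 1) ^ 2 + 4 * (X 0 1 * X 1 0) := by
  unfold D
  rw [Matrix.trace_fin_two, Matrix.det_fin_two]
  ring

theorem B_eq (X Y : M2 F) : B X Y = (X 0 0 - X 1 1) * (Y 0 0 - Y 1 1) +
    2 * (X 0 1 * Y 1 0 + X 1 0 * Y 0 1) := by
  unfold B
  simp only [Matrix.trace_fin_two, Matrix.mul_apply, Fin.sum_univ_two]
  ring

theorem br_00 (X Y : M2 F) : br X Y 0 0 = X 0 1 * Y 1 0 - X 1 0 * Y 0 1 := by
  simp only [br, Matrix.sub_apply, Matrix.mul_apply, Fin.sum_univ_two]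
  ring

theorem br_11 (X Y : M2 F) : br X Y 1 1 = X 1 0 * Y 0 1 - X 0 1 * Y 1 0 := by
  simp only [br, Matrix.sub_apply, Matrix.mul_apply, Fin.sum_univ_two]
  ring

theorem br_01 (X Y : M2 F) : br X Y 0 1 = (X 0 0 - X 1 1) * Y 0 1 - X 0 1 * (Y 0 0 - Y 1 1) := by
  simp only [br, Matrix.sub_apply, Matrix.mul_apply, Fin.sum_univ_two]
  ring

theorem br_10 (X Y : M2 F) : br X Y 1 0 = X 1 0 * (Y 0 0 - Y 1 1) - (X 0 0 - X 1 1) * Y 1 0 := by
  simp only [br, Matrix.sub_apply, Matrix.mul_apply, Fin.sum_univ_two]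
  ring

theorem ext2 {X Y : M2 F} (h00 : X 0 0 = Y 0 0) (h01 : X 0 1 = Y 0 1) (h10 : X 1 0 = Y 1 0)
    (h11 : X 1 1 = Y 1 1) : X = Y := by
  ext i j
  fin_cases i <;> fin_cases j <;> assumption

theorem B_self (X : M2 F) : B X X = D X := by
  rw [B_eq, D_eq]
  ring

theorem B_comm (X Y : M2 F) : B X Y = B Y X := by
  rw [B_eq, B_eq]
  ring

theorem B_add_left (X Y Z : M2 F) : B (X + Y) Z = B X Z + B Y Z := by
  simp only [B_eq, Matrix.add_apply]
  ring

theorem B_smul_left (c : F) (X Z : M2 F) : B (c • X) Z = c * B X Z := by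
  simp only [B_eq, Matrix.smul_apply, smul_eq_mul]
  ring

theorem B_add_right (X Y Z : M2 F) : B X (Y + Z) = B X Y + B X Z := by
  simp only [B_eq, Matrix.add_apply]
  ring

theorem B_smul_right (c : F) (X Z : M2 F) : B X (c • Z) = c * B X Z := by
  simp only [B_eq, Matrix.smul_apply, smul_eq_mul]
  ring

theorem B_one_right (X : M2 F) (c : F) : B X (c • 1) = 0 := by
  simp [B_eq]

theorem B_one_left (X : M2 F) (c : F) : B (c • 1) X = 0 := by
  simp [B_eq]

theorem D_add (X Y : M2 F) : D (X + Y) = D X + 2 * B X Y + D Y := by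
  simp only [D_eq, B_eq, Matrix.add_apply]
  ring

theorem D_smul (c : F) (X : M2 F) : D (c • X) = c ^ 2 * D X := by
  simp only [D_eq, Matrix.smul_apply, smul_eq_mul]
  ring

theorem D_scalar (c : F) : D (c • (1 : M2 F)) = 0 := by
  simp [D_eq]

theorem D_zero : D (0 : M2 F) = 0 := by
  simp [D_eq]

theorem D_add_scalar (X : M2 F) (c : F) : D (X + c • 1) = D X := by
  rw [D_add, B_one_right, D_scalar]
  ring

theorem br3 (X Z : M2 F) : br X (br X (br X Z)) = D X • br X Z := by
  apply ext2 <;>
    simp only [br_00, br_01, br_10, br_11, Matrix.smul_apply, smul_eq_mul, D_eq] <;> ring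

theorem D_br (X Z : M2 F) : D (br X Z) = B X Z ^ 2 - D X * D Z := by
  simp only [D_eq, B_eq, br_00, br_01, br_10, br_11]
  ring

theorem B_br (X Z : M2 F) : B X (br X Z) = 0 := by
  simp only [B_eq, br_00, br_01, br_10, br_11]
  ring

theorem trace_br (X Z : M2 F) : (br X Z).trace = 0 := by
  rw [Matrix.trace_fin_two, br_00, br_11]
  ring

theorem br_scalar_left (c : F) (X : M2 F) : br (c • 1) X = 0 := by
  simp [br]

theorem br_scalar_right (c : F) (X : M2 F) : br X (c • 1) = 0 := by
  simp [br]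

theorem br_smul_right (c : F) (X Y : M2 F) : br X (c • Y) = c • br X Y := by
  simp [br, smul_sub]

theorem br_smul_left (c : F) (X Y : M2 F) : br (c • X) Y = c • br X Y := by
  simp [br, smul_sub]

theorem br_add_right (X Y Z : M2 F) : br X (Y + Z) = br X Y + br X Z := by
  simp only [br, mul_add, add_mul]
  abel

theorem br_add_left (X Y Z : M2 F) : br (X + Y) Z = br X Z + br Y Z := by
  simp only [br, mul_add, add_mul]
  abel

/-- products of matrices of trace zero -/
theorem mul_trace_zero {X Y : M2 F} (hX : X.trace = 0) (hY : Y.trace = 0) :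
    (4 : F) • (X * Y) = (2 : F) • br X Y + B X Y • 1 := by
  rw [Matrix.trace_fin_two] at hX hY
  have hX' : X 1 1 = - X 0 0 := by linear_combination hX
  have hY' : Y 1 1 = - Y 0 0 := by linear_combination hY
  apply ext2 <;>
    simp only [br_00, br_01, br_10, br_11, Matrix.smul_apply, smul_eq_mul, B_eq, Matrix.add_apply,
      Matrix.mul_apply, Fin.sum_univ_two, hX', hY', Matrix.one_apply_eq, ne_eq, zero_ne_one,
      one_ne_zero, not_false_eq_true, Matrix.one_apply_ne, mul_one, mul_zero] <;> ring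

/-- conjugation preserves the discriminant -/
theorem D_conj {P Q : M2 F} (hPQ : P * Q = 1) (X : M2 F) : D (P * X * Q) = D X := by
  have hQP : Q * P = 1 := mul_eq_one_comm.1 hPQ
  unfold D
  rw [Matrix.trace_mul_comm, ← mul_assoc, hQP, one_mul, Matrix.det_mul, Matrix.det_mul,
    mul_comm P.det, mul_assoc, ← Matrix.det_mul, hPQ, Matrix.det_one, mul_one]

end ring

section field

variable {F : Type*} [Field F] [CharZero F]

theorem scalar_of_entries {X : M2 F} (h01 : X 0 1 = 0) (h10 : X 1 0 = 0) (h : X 0 0 = X 1 1) :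
    X = X 0 0 • 1 := by
  apply ext2 <;> simp [h01, h10, h]

/-- the radical of the polar form consists of the scalars -/
theorem scalar_of_B {X : M2 F} (h : ∀ Z, B X Z = 0) : ∃ c : F, X = c • 1 := by
  refine ⟨X 0 0, scalar_of_entries ?_ ?_ ?_⟩
  · have := h (Matrix.single 1 0 1)
    rw [B_eq] at this
    simpa using this
  · have := h (Matrix.single 0 1 1)
    rw [B_eq] at this
    simpa using this
  · have := h (Matrix.single 0 0 1)
    rw [B_eq] at this
    simp at this
    linear_combination this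

/-- `S` spans the space of matrices modulo the scalars -/
def Sp (S : Set (M2 F)) : Prop := Submodule.span F S ⊔ Submodule.span F {(1 : M2 F)} = ⊤

theorem Sp.induct {S : Set (M2 F)} (hS : Sp S) {P : M2 F → Prop} (hadd : ∀ X Y, P X → P Y → P (X + Y))
    (hsmul : ∀ (c : F) X, P X → P (c • X)) (h1 : P 1) (hmem : ∀ X ∈ S, P X) (X : M2 F) : P X := by
  have h0 : P 0 := by
    have := hsmul 0 1 h1
    rwa [zero_smul] at this
  let N : Submodule F (M2 F) :=
    { carrier := {X | P X}
      add_mem' := fun {a b} ha hb => hadd a b ha hb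
      zero_mem' := h0
      smul_mem' := fun c x hx => hsmul c x hx }
  have h2 : (⊤ : Submodule F (M2 F)) ≤ N := by
    rw [← hS]
    refine sup_le (Submodule.span_le.2 fun x hx => hmem x hx) (Submodule.span_le.2 ?_)
    rintro _ rfl
    exact h1
  exact h2 Submodule.mem_top

theorem scalar_of_B_set {S : Set (M2 F)} (hS : Sp S) {X : M2 F} (h : ∀ Z ∈ S, B X Z = 0) :
    ∃ c : F, X = c • 1 := by
  refine scalar_of_B fun Z => ?_
  refine hS.induct (P := fun Z => B X Z = 0) ?_ ?_ ?_ h Z
  · intro Y Z hY hZ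
    rw [B_add_right, hY, hZ, add_zero]
  · intro c Y hY
    rw [B_smul_right, hY, mul_zero]
  · have := B_one_right X 1
    rwa [one_smul] at this

theorem scalar_of_br {X : M2 F} (h : ∀ Z, br X Z = 0) : ∃ c : F, X = c • 1 := by
  refine ⟨X 0 0, scalar_of_entries ?_ ?_ ?_⟩
  · have := congrFun (congrFun (h (Matrix.single 1 0 1)) 0) 0
    rw [br_00] at this
    simpa using this
  · have := congrFun (congrFun (h (Matrix.single 0 1 1)) 1) 1
    rw [br_11] at this
    simpa using this
  · have := congrFun (congrFun (h (Matrix.single 0 1 1)) 0) 1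
    rw [br_01] at this
    simp at this
    linear_combination this

theorem scalar_of_br_set {S : Set (M2 F)} (hS : Sp S) {X : M2 F} (h : ∀ Z ∈ S, br X Z = 0) :
    ∃ c : F, X = c • 1 := by
  refine scalar_of_br fun Z => ?_
  refine hS.induct (P := fun Z => br X Z = 0) ?_ ?_ ?_ h Z
  · intro Y Z hY hZ
    rw [br_add_right, hY, hZ, add_zero]
  · intro c Y hY
    rw [br_smul_right, hY, smul_zero]
  · have := br_scalar_right 1 X
    rwa [one_smul] at this

/-- a matrix of trace zero which is scalar is zero -/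
theorem zero_of_scalar {X : M2 F} {c : F} (h : X = c • 1) (ht : X.trace = 0) : X = 0 := by
  rw [h, Matrix.trace_smul, Matrix.trace_one] at ht
  simp at ht
  rw [h, ht, zero_smul]

/-- there is an element with non-zero discriminant -/
theorem exists_D {S : Set (M2 F)} (hS : Sp S) (hadd : ∀ X ∈ S, ∀ Y ∈ S, X + Y ∈ S) :
    ∃ X ∈ S, D X ≠ 0 := by
  by_contra hcon
  push Not at hcon
  have h1 : ∀ X ∈ S, ∀ Y ∈ S, B X Y = 0 := by
    intro X hX Y hY
    have := hcon _ (hadd X hX Y hY)
    rw [D_add, hcon X hX, hcon Y hY] at this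
    have h2 : (2 : F) ≠ 0 := two_ne_zero
    simpa [h2] using this
  have h2 : ∀ X ∈ S, ∃ c : F, X = c • 1 := fun X hX => scalar_of_B_set hS (h1 X hX)
  have h3 : ∀ X : M2 F, X 0 1 = 0 := by
    refine hS.induct ?_ ?_ ?_ ?_
    · intro X Y hX hY
      rw [Matrix.add_apply, hX, hY, add_zero]
    · intro c X hX
      rw [Matrix.smul_apply, hX, smul_zero]
    · simp
    · intro X hX
      obtain ⟨c, rfl⟩ := h2 X hX
      simp
  have := h3 (Matrix.single 0 1 1)
  simp at this

/-- there is an element whose bracket with `X` has non-zero discriminant -/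
theorem exists_br {S : Set (M2 F)} (hS : Sp S) (hadd : ∀ X ∈ S, ∀ Y ∈ S, X + Y ∈ S) {X : M2 F}
    (hX : D X ≠ 0) : ∃ Z ∈ S, D (br X Z) ≠ 0 := by
  by_contra hcon
  push Not at hcon
  have h1 : ∀ Z ∈ S, ∀ Z' ∈ S, B X Z * B X Z' = D X * B Z Z' := by
    intro Z hZ Z' hZ'
    have e1 := hcon _ (hadd Z hZ Z' hZ')
    have e2 := hcon Z hZ
    have e3 := hcon Z' hZ'
    rw [D_br] at e1 e2 e3
    rw [B_add_right, D_add] at e1
    have h2 : (2 : F) ≠ 0 := two_ne_zero
    apply mul_left_cancel₀ h2
    linear_combination e1 - e2 - e3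
  have h2 : ∀ Z ∈ S, ∀ Z', B X Z * B X Z' = D X * B Z Z' := by
    intro Z hZ
    refine hS.induct ?_ ?_ ?_ (h1 Z hZ)
    · intro Y Y' hY hY'
      rw [B_add_right, B_add_right]
      linear_combination hY + hY'
    · intro c Y hY
      rw [B_smul_right, B_smul_right]
      linear_combination c * hY
    · have e1 := B_one_right X 1
      have e2 := B_one_right Z 1
      rw [one_smul] at e1 e2
      rw [e1, e2]
      ring
  have h3 : ∀ Z Z', B X Z * B X Z' = D X * B Z Z' := by
    intro Z Z'
    refine hS.induct (P := fun Z => B X Z * B X Z' = D X * B Z Z') ?_ ?_ ?_ (fun Z hZ => h2 Z hZ Z') Z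
    · intro Y Y' hY hY'
      rw [B_add_right, B_add_left]
      linear_combination hY + hY'
    · intro c Y hY
      rw [B_smul_right, B_smul_left]
      linear_combination c * hY
    · have e1 := B_one_right X 1
      have e2 := B_one_left Z' 1
      rw [one_smul] at e1 e2
      rw [e1, e2]
      ring
  have e1 := h3 (Matrix.single 0 1 1) (Matrix.single 0 1 1)
  have e2 := h3 (Matrix.single 1 0 1) (Matrix.single 1 0 1)
  have e3 := h3 (Matrix.single 0 1 1) (Matrix.single 1 0 1)
  simp only [B_eq] at e1 e2 e3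
  simp at e1 e2 e3
  rw [e1] at e3
  simp at e3
  exact hX e3

end field

end Pool.Agent.H86.FM.Alg
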