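import Pool.Agent.H86.FM.Str

/-!
# The automorphism of the algebra of matrices
-/

set_option autoImplicit false
set_option linter.unusedSectionVars false

namespace Pool.Agent.H86.FM.Aut

open Filter Topology Matrix
open Pool.Agent.H86.FM.Alg Pool.Agent.H86.FM.Cone Pool.Agent.H86.FM.Str

section sn

variable {F : Type*} [Field F]

/-- Skolem-Noether -/
theorem skolem (θ : M2 F →ₐ[F] M2 F) : ∃ T : (M2 F)ˣ, ∀ A, θ A = T * A * ((T⁻¹ : (M2 F)ˣ) : M2 F) := by
  let e : M2 F ≃ₐ[F] M2 F := AlgEquiv.ofBijective θ θ.bijective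
  obtain ⟨T, hT⟩ := AlgEquiv.eq_linearEquivConjAlgEquiv
    ((Matrix.toLinAlgEquiv'.symm.trans e).trans Matrix.toLinAlgEquiv')
  have h1 : ∀ A : M2 F, Matrix.toLin' (θ A) = T.toLinearMap ∘ₗ Matrix.toLin' A ∘ₗ T.symm.toLinearMap := by
    intro A
    have := congrArg (fun f => f (Matrix.toLinAlgEquiv' A)) hT
    simp only [AlgEquiv.trans_apply, AlgEquiv.symm_apply_apply] at this
    rw [LinearEquiv.conjAlgEquiv_apply] at this
    exact this
  have hm1 : LinearMap.toMatrix' T.toLinearMap * LinearMap.toMatrix' T.symm.toLinearMap = 1 := by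
    rw [← LinearMap.toMatrix'_comp, LinearEquiv.comp_symm, LinearMap.toMatrix'_id]
  have hm2 : LinearMap.toMatrix' T.symm.toLinearMap * LinearMap.toMatrix' T.toLinearMap = 1 := by
    rw [← LinearMap.toMatrix'_comp, LinearEquiv.symm_comp, LinearMap.toMatrix'_id]
  refine ⟨⟨LinearMap.toMatrix' T.toLinearMap, LinearMap.toMatrix' T.symm.toLinearMap, hm1, hm2⟩, ?_⟩
  intro A
  have h2 := congrArg LinearMap.toMatrix' (h1 A)
  rw [LinearMap.toMatrix'_toLin', LinearMap.toMatrix'_comp, LinearMap.toMatrix'_comp,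
    LinearMap.toMatrix'_toLin', ← mul_assoc] at h2
  exact h2

end sn

variable {p : ℕ} [hp : Fact p.Prime] {F : Type*} [NormedField F] [NormedAlgebra ℚ_[p] F]

/-- the span over `F` -/
def G (g : Submodule ℚ_[p] (M2 F × M2 F)) : Submodule F (M2 F × M2 F) := Submodule.span F (g : Set _)

/-- twice the trace zero part -/
def tz (X : M2 F) : M2 F := (2 : F) • X - X.trace • 1

theorem trace_tz (X : M2 F) : (tz X).trace = 0 := by
  unfold tz
  rw [Matrix.trace_sub, Matrix.trace_smul, Matrix.trace_smul, Matrix.trace_one]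
  simp
  ring

theorem tz_add (X Y : M2 F) : tz (X + Y) = tz X + tz Y := by
  unfold tz
  rw [Matrix.trace_add, smul_add, add_smul]
  abel

theorem tz_smul (c : F) (X : M2 F) : tz (c • X) = c • tz X := by
  unfold tz
  rw [Matrix.trace_smul, smul_sub, smul_smul, smul_smul, smul_smul, smul_eq_mul, mul_comm c 2]

theorem br_tz (X Y : M2 F) : br (tz X) (tz Y) = (2 : F) • tz (br X Y) := by
  unfold tz
  rw [trace_br]
  have h1 : ∀ (c : F) (Z W : M2 F), br (Z - c • 1) W = br Z W := by
    intro c Z W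
    simp [br, sub_mul, mul_sub]
  have h2 : ∀ (c : F) (Z W : M2 F), br Z (W - c • 1) = br Z W := by
    intro c Z W
    simp [br, sub_mul, mul_sub]
  rw [h1, h2, br_smul_left, br_smul_right]
  simp

theorem B_tz (X Y : M2 F) : B (tz X) (tz Y) = 4 * B X Y := by
  unfold tz
  simp only [B_eq, Matrix.sub_apply, Matrix.smul_apply, smul_eq_mul, Matrix.one_apply_eq, ne_eq,
    zero_ne_one, one_ne_zero, not_false_eq_true, Matrix.one_apply_ne]
  ring

/-- the elements `(A, A')` of the algebra -/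
def Mem (g : Submodule ℚ_[p] (M2 F × M2 F)) (A A' : M2 F) : Prop :=
  ∃ X X' : M2 F, ∃ c : F, (X, X') ∈ G g ∧ A = tz X + c • 1 ∧ A' = tz X' + c • 1

theorem G_br {g : Submodule ℚ_[p] (M2 F × M2 F)} (h : Dat g) {X X' Y Y' : M2 F}
    (hX : (X, X') ∈ G g) (hY : (Y, Y') ∈ G g) : (br X Y, br X' Y') ∈ G g := by
  have h1 : ∀ w ∈ G g, ∀ z ∈ g, (br w.1 z.1, br w.2 z.2) ∈ G g := by
    intro w hw
    induction hw using Submodule.span_induction with
    | mem w hw => exact fun z hz => Submodule.subset_span (h.br_mem w hw z hz)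
    | zero =>
      intro z _
      have h2 : ∀ Z : M2 F, br 0 Z = 0 := fun Z => by simp [br]
      change (br 0 z.1, br 0 z.2) ∈ G g
      rw [h2, h2]
      exact (G g).zero_mem
    | add w w' _ _ hw hw' =>
      intro z hz
      change (br (w.1 + w'.1) z.1, br (w.2 + w'.2) z.2) ∈ G g
      rw [br_add_left, br_add_left]
      exact (G g).add_mem (hw z hz) (hw' z hz)
    | smul c w _ hw =>
      intro z hz
      change (br (c • w.1) z.1, br (c • w.2) z.2) ∈ G g
      rw [br_smul_left, br_smul_left]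
      exact (G g).smul_mem c (hw z hz)
  have h2 : ∀ z ∈ G g, (br X z.1, br X' z.2) ∈ G g := by
    intro z hz
    induction hz using Submodule.span_induction with
    | mem z hz => exact h1 _ hX z hz
    | zero =>
      have h2 : ∀ Z : M2 F, br Z 0 = 0 := fun Z => by simp [br]
      change (br X 0, br X' 0) ∈ G g
      rw [h2, h2]
      exact (G g).zero_mem
    | add w w' _ _ hw hw' =>
      change (br X (w.1 + w'.1), br X' (w.2 + w'.2)) ∈ G g
      rw [br_add_right, br_add_right]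
      exact (G g).add_mem hw hw'
    | smul c w _ hw =>
      change (br X (c • w.1), br X' (c • w.2)) ∈ G g
      rw [br_smul_right, br_smul_right]
      exact (G g).smul_mem c hw
  exact h2 _ hY

theorem g_B {g : Submodule ℚ_[p] (M2 F × M2 F)} (h : Dat g) {X X' Y Y' : M2 F}
    (hX : (X, X') ∈ g) (hY : (Y, Y') ∈ g) : B X Y = B X' Y' := by
  have hchar : CharZero F := charZero_of_injective_algebraMap (algebraMap ℚ_[p] F).injective
  have h1 := h.eq (g.add_mem hX hY)
  rw [D_add, D_add, h.eq hX, h.eq hY] at h1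
  have h2 : (2 : F) ≠ 0 := two_ne_zero
  apply mul_left_cancel₀ h2
  linear_combination h1

theorem G_B {g : Submodule ℚ_[p] (M2 F × M2 F)} (h : Dat g) {X X' Y Y' : M2 F}
    (hX : (X, X') ∈ G g) (hY : (Y, Y') ∈ G g) : B X Y = B X' Y' := by
  have h1 : ∀ w ∈ G g, ∀ z ∈ g, B w.1 z.1 = B w.2 z.2 := by
    intro w hw
    induction hw using Submodule.span_induction with
    | mem w hw => exact fun z hz => g_B h hw hz
    | zero =>
      intro z _
      change B 0 z.1 = B 0 z.2
      simp [B_eq]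
    | add w w' _ _ hw hw' =>
      intro z hz
      change B (w.1 + w'.1) z.1 = B (w.2 + w'.2) z.2
      rw [B_add_left, B_add_left, hw z hz, hw' z hz]
    | smul c w _ hw =>
      intro z hz
      change B (c • w.1) z.1 = B (c • w.2) z.2
      rw [B_smul_left, B_smul_left, hw z hz]
  have h2 : ∀ z ∈ G g, B X z.1 = B X' z.2 := by
    intro z hz
    induction hz using Submodule.span_induction with
    | mem z hz => exact h1 _ hX z hz
    | zero =>
      change B X 0 = B X' 0
      simp [B_eq]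
    | add w w' _ _ hw hw' =>
      change B X (w.1 + w'.1) = B X' (w.2 + w'.2)
      rw [B_add_right, B_add_right, hw, hw']
    | smul c w _ hw =>
      change B X (c • w.1) = B X' (c • w.2)
      rw [B_smul_right, B_smul_right, hw]
  exact h2 _ hY

theorem Mem.add {g : Submodule ℚ_[p] (M2 F × M2 F)} {A A' C C' : M2 F} (h1 : Mem g A A')
    (h2 : Mem g C C') : Mem g (A + C) (A' + C') := by
  obtain ⟨X, X', c, hX, rfl, rfl⟩ := h1
  obtain ⟨Y, Y', d, hY, rfl, rfl⟩ := h2
  refine ⟨X + Y, X' + Y', c + d, (G g).add_mem hX hY, ?_, ?_⟩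
  · rw [tz_add, add_smul]
    abel
  · rw [tz_add, add_smul]
    abel

theorem Mem.smul {g : Submodule ℚ_[p] (M2 F × M2 F)} {A A' : M2 F} (h1 : Mem g A A') (e : F) :
    Mem g (e • A) (e • A') := by
  obtain ⟨X, X', c, hX, rfl, rfl⟩ := h1
  refine ⟨e • X, e • X', e * c, (G g).smul_mem e hX, ?_, ?_⟩
  · rw [tz_smul, smul_add, smul_smul]
  · rw [tz_smul, smul_add, smul_smul]

theorem Mem.scalar {g : Submodule ℚ_[p] (M2 F × M2 F)} (e : F) :
    Mem g (e • (1 : M2 F)) (e • (1 : M2 F)) := by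
  have h0 : tz (0 : M2 F) = 0 := by
    unfold tz
    simp
  exact ⟨0, 0, e, (G g).zero_mem, by rw [h0, zero_add], by rw [h0, zero_add]⟩

theorem Mem.mul {g : Submodule ℚ_[p] (M2 F × M2 F)} (h : Dat g) {A A' C C' : M2 F}
    (h1 : Mem g A A') (h2 : Mem g C C') : Mem g (A * C) (A' * C') := by
  have hchar : CharZero F := charZero_of_injective_algebraMap (algebraMap ℚ_[p] F).injective
  obtain ⟨X, X', c, hX, rfl, rfl⟩ := h1
  obtain ⟨Y, Y', d, hY, rfl, rfl⟩ := h2
  have h4 : (4 : F) ≠ 0 := by norm_num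
  -- the product of the trace zero parts
  have key : Mem g ((4 : F) • (tz X * tz Y)) ((4 : F) • (tz X' * tz Y')) := by
    rw [mul_trace_zero (trace_tz X) (trace_tz Y), mul_trace_zero (trace_tz X') (trace_tz Y'),
      br_tz, br_tz, B_tz, B_tz, G_B h hX hY, smul_smul, smul_smul]
    refine ⟨(2 * 2 : F) • br X Y, (2 * 2 : F) • br X' Y', 4 * B X' Y',
      (G g).smul_mem _ (G_br h hX hY), ?_, ?_⟩
    · rw [tz_smul]
    · rw [tz_smul]
  have key2 := key.smul (4 : F)⁻¹
  rw [smul_smul, smul_smul, inv_mul_cancel₀ h4, one_smul, one_smul] at key2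
  have m1 : Mem g (tz X) (tz X') := ⟨X, X', 0, hX, by simp, by simp⟩
  have m2 : Mem g (tz Y) (tz Y') := ⟨Y, Y', 0, hY, by simp, by simp⟩
  have e1 : (tz X + c • 1) * (tz Y + d • 1) = tz X * tz Y + d • tz X + c • tz Y + (c * d) • 1 := by
    simp only [add_mul, mul_add, smul_mul_assoc, one_mul, mul_smul_comm, mul_one, smul_add, smul_smul]
    rw [mul_comm d c]
    abel
  have e2 : (tz X' + c • 1) * (tz Y' + d • 1) =
      tz X' * tz Y' + d • tz X' + c • tz Y' + (c * d) • 1 := by
    simp only [add_mul, mul_add, smul_mul_assoc, one_mul, mul_smul_comm, mul_one, smul_add, smul_smul]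
    rw [mul_comm d c]
    abel
  rw [e1, e2]
  exact ((key2.add (m1.smul d)).add (m2.smul c)).add (Mem.scalar _)

theorem Mem.zero {g : Submodule ℚ_[p] (M2 F × M2 F)} (h : Dat g) {A' : M2 F}
    (h1 : Mem g 0 A') : A' = 0 := by
  have hchar : CharZero F := charZero_of_injective_algebraMap (algebraMap ℚ_[p] F).injective
  obtain ⟨X, X', c, hX, h0, rfl⟩ := h1
  have hc : c = 0 := by
    have := congrArg Matrix.trace h0
    rw [Matrix.trace_add, trace_tz, Matrix.trace_smul, Matrix.trace_one] at this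
    simpa using this
  rw [hc, zero_smul, add_zero] at h0 ⊢
  have hXs : X = (X.trace / 2) • 1 := by
    unfold tz at h0
    have h2 : (2 : F) ≠ 0 := two_ne_zero
    have h3 : (2 : F) • X = X.trace • 1 := (sub_eq_zero.1 h0.symm)
    have h4 : X = (2 : F)⁻¹ • ((2 : F) • X) := by rw [smul_smul, inv_mul_cancel₀ h2, one_smul]
    rw [h3, smul_smul] at h4
    rw [div_eq_inv_mul]
    exact h4
  have h5 : ∀ Z ∈ P2 g, B X' Z = 0 := by
    rintro Z ⟨Y, hZ⟩
    rw [← G_B h hX (Submodule.subset_span hZ), hXs, B_one_left]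
  obtain ⟨d, hd⟩ := scalar_of_B_set h.sp2 h5
  have h6 : tz X' = (2 * d - X'.trace) • 1 := by
    unfold tz
    generalize X'.trace = t
    rw [hd, smul_smul, ← sub_smul]
  exact zero_of_scalar h6 (trace_tz X')

theorem Mem.exists_right {g : Submodule ℚ_[p] (M2 F × M2 F)} (h : Dat g) (A : M2 F) :
    ∃ A', Mem g A A' := by
  have hchar : CharZero F := charZero_of_injective_algebraMap (algebraMap ℚ_[p] F).injective
  refine h.sp1.induct (P := fun A => ∃ A', Mem g A A') ?_ ?_ ?_ ?_ A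
  · rintro X Y ⟨X', hX⟩ ⟨Y', hY⟩
    exact ⟨_, hX.add hY⟩
  · rintro c X ⟨X', hX⟩
    exact ⟨_, hX.smul c⟩
  · refine ⟨1, ?_⟩
    have := Mem.scalar (g := g) 1
    rwa [one_smul] at this
  · rintro X ⟨X', hX⟩
    have h1 : Mem g (tz X) (tz X') := ⟨X, X', 0, Submodule.subset_span hX, by simp, by simp⟩
    have h2 := (h1.add (Mem.scalar (X.trace))).smul (2 : F)⁻¹
    have h3 : (2 : F)⁻¹ • (tz X + X.trace • (1 : M2 F)) = X := by
      unfold tz
      rw [sub_add_cancel, smul_smul, inv_mul_cancel₀ two_ne_zero, one_smul]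
    rw [h3] at h2
    exact ⟨_, h2⟩

theorem Mem.unique {g : Submodule ℚ_[p] (M2 F × M2 F)} (h : Dat g) {A A' A'' : M2 F}
    (h1 : Mem g A A') (h2 : Mem g A A'') : A' = A'' := by
  have h3 := h1.add (h2.smul (-1))
  rw [neg_one_smul, neg_one_smul, add_neg_cancel] at h3
  have := h3.zero h
  rwa [add_neg_eq_zero] at this

/-- the algebra homomorphism -/
noncomputable def θ {g : Submodule ℚ_[p] (M2 F × M2 F)} (h : Dat g) : M2 F →ₐ[F] M2 F :=
  AlgHom.ofLinearMap
    { toFun := fun A => (Mem.exists_right h A).choose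
      map_add' := fun A C => Mem.unique h (Mem.exists_right h (A + C)).choose_spec
        ((Mem.exists_right h A).choose_spec.add (Mem.exists_right h C).choose_spec)
      map_smul' := fun e A => Mem.unique h (Mem.exists_right h (e • A)).choose_spec
        ((Mem.exists_right h A).choose_spec.smul e) }
    (Mem.unique h (Mem.exists_right h 1).choose_spec (by
      have := Mem.scalar (g := g) 1
      rwa [one_smul] at this))
    (fun A C => Mem.unique h (Mem.exists_right h (A * C)).choose_spec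
      ((Mem.exists_right h A).choose_spec.mul h (Mem.exists_right h C).choose_spec))

theorem mem_θ {g : Submodule ℚ_[p] (M2 F × M2 F)} (h : Dat g) (A : M2 F) : Mem g A (θ h A) :=
  (Mem.exists_right h A).choose_spec

theorem tz_conj {P Q : M2 F} (hPQ : P * Q = 1) (X : M2 F) : P * tz X * Q = tz (P * X * Q) := by
  have hQP : Q * P = 1 := mul_eq_one_comm.1 hPQ
  unfold tz
  rw [mul_sub, sub_mul, mul_smul_comm, smul_mul_assoc, mul_smul_comm, smul_mul_assoc, mul_one, hPQ,
    Matrix.trace_mul_comm (P * X), ← mul_assoc, hQP, one_mul]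

theorem Mem.conj {g : Submodule ℚ_[p] (M2 F × M2 F)} {A A' : M2 F} (h1 : Mem g A A')
    {P Q P' Q' : M2 F} (hPQ : P * Q = 1) (hPQ' : P' * Q' = 1)
    (hst : ∀ X X', (X, X') ∈ g → (P * X * Q, P' * X' * Q') ∈ g) :
    Mem g (P * A * Q) (P' * A' * Q') := by
  obtain ⟨X, X', c, hX, rfl, rfl⟩ := h1
  refine ⟨P * X * Q, P' * X' * Q', c, ?_, ?_, ?_⟩
  · have h2 : ∀ w ∈ G g, (P * w.1 * Q, P' * w.2 * Q') ∈ G g := by
      intro w hw
      induction hw using Submodule.span_induction with
      | mem w hw => exact Submodule.subset_span (hst _ _ hw)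
      | zero =>
        change (P * 0 * Q, P' * 0 * Q') ∈ G g
        simp only [mul_zero, zero_mul]
        exact (G g).zero_mem
      | add w w' _ _ hw hw' =>
        change (P * (w.1 + w'.1) * Q, P' * (w.2 + w'.2) * Q') ∈ G g
        rw [mul_add, mul_add, add_mul, add_mul]
        exact (G g).add_mem hw hw'
      | smul e w _ hw =>
        change (P * (e • w.1) * Q, P' * (e • w.2) * Q') ∈ G g
        rw [mul_smul_comm, mul_smul_comm, smul_mul_assoc, smul_mul_assoc]
        exact (G g).smul_mem e hw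
    exact h2 _ hX
  · rw [mul_add, add_mul, tz_conj hPQ, mul_smul_comm, smul_mul_assoc, mul_one, hPQ]
  · rw [mul_add, add_mul, tz_conj hPQ', mul_smul_comm, smul_mul_assoc, mul_one, hPQ']

/-- the matrix which gives the automorphism conjugates all pairs -/
theorem conj_of {g : Submodule ℚ_[p] (M2 F × M2 F)} (h : Dat g) {T : (M2 F)ˣ}
    (hT : ∀ A, θ h A = T * A * ((T⁻¹ : (M2 F)ˣ) : M2 F)) (P Q P' Q' : M2 F) (hPQ : P * Q = 1)
    (hPQ' : P' * Q' = 1) (hst : ∀ X X', (X, X') ∈ g → (P * X * Q, P' * X' * Q') ∈ g) :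
      ∃ c : F, P = c • (((T⁻¹ : (M2 F)ˣ) : M2 F) * P' * T) := by
  have hchar : CharZero F := charZero_of_injective_algebraMap (algebraMap ℚ_[p] F).injective
  have hQP : Q * P = 1 := mul_eq_one_comm.1 hPQ
  have hQP' : Q' * P' = 1 := mul_eq_one_comm.1 hPQ'
  have h1 : ∀ A, (T : M2 F) * (P * A * Q) * ((T⁻¹ : (M2 F)ˣ) : M2 F) =
      P' * ((T : M2 F) * A * ((T⁻¹ : (M2 F)ˣ) : M2 F)) * Q' := by
    intro A
    have h2 := (mem_θ h A).conj hPQ hPQ' hst
    have h3 := mem_θ h (P * A * Q)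
    rw [← hT, ← hT]
    exact Mem.unique h h3 h2
  have hTi : ((T⁻¹ : (M2 F)ˣ) : M2 F) * T = 1 := T.inv_mul
  have hTi' : (T : M2 F) * ((T⁻¹ : (M2 F)ˣ) : M2 F) = 1 := T.mul_inv
  generalize (T : M2 F) = t at *
  generalize ((T⁻¹ : (M2 F)ˣ) : M2 F) = t' at *
  have h2 : ∀ A, br (t' * Q' * t * P) A = 0 := by
    intro A
    have h3 := congrArg (fun M => t' * Q' * M * t * P) (h1 A)
    have e1 : t' * Q' * (t * (P * A * Q) * t') * t * P = t' * Q' * t * P * A := by
      calc _ = t' * Q' * t * P * A * Q * (t' * t) * P := by simp only [mul_assoc]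
        _ = t' * Q' * t * P * A * (Q * P) := by rw [hTi, mul_one]; simp only [mul_assoc]
        _ = _ := by rw [hQP, mul_one]
    have e2 : t' * Q' * (P' * (t * A * t') * Q') * t * P = A * (t' * Q' * t * P) := by
      calc _ = t' * (Q' * P') * (t * A * t') * Q' * t * P := by simp only [mul_assoc]
        _ = (t' * t) * A * t' * Q' * t * P := by rw [hQP', mul_one]; simp only [mul_assoc]
        _ = _ := by rw [hTi, one_mul]; simp only [mul_assoc]
    rw [e1, e2] at h3
    unfold br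
    rw [h3, sub_self]
  obtain ⟨c, hc⟩ := scalar_of_br h2
  refine ⟨c, ?_⟩
  have h4 := congrArg (fun M => t' * P' * t * M) hc
  have e1 : t' * P' * t * (t' * Q' * t * P) = P := by
    calc _ = t' * P' * (t * t') * Q' * t * P := by simp only [mul_assoc]
      _ = t' * (P' * Q') * t * P := by rw [hTi', mul_one]; simp only [mul_assoc]
      _ = _ := by rw [hPQ', mul_one, hTi, one_mul]
  rw [e1, mul_smul_comm, mul_one] at h4
  exact h4

/-- **one matrix conjugates all pairs** -/
theorem exists_conj {g : Submodule ℚ_[p] (M2 F × M2 F)} (h : Dat g) :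
    ∃ T : (M2 F)ˣ, ∀ P Q P' Q' : M2 F, P * Q = 1 → P' * Q' = 1 →
      (∀ X X', (X, X') ∈ g → (P * X * Q, P' * X' * Q') ∈ g) →
      ∃ c : F, P = c • (((T⁻¹ : (M2 F)ˣ) : M2 F) * P' * T) := by
  obtain ⟨T, hT⟩ := skolem (θ h)
  exact ⟨T, fun P Q P' Q' hPQ hPQ' hst => conj_of h hT P Q P' Q' hPQ hPQ' hst⟩

/-- a Lie algebra of pairs of matrices of trace zero is the graph of conjugation -/
theorem exists_graph {g : Submodule ℚ_[p] (M2 F × M2 F)} (h : Dat g)
    (htr : ∀ z ∈ g, z.1.trace = 0 ∧ z.2.trace = 0) :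
    ∃ T : (M2 F)ˣ, ∀ z ∈ g, (T : M2 F) * z.1 * ((T⁻¹ : (M2 F)ˣ) : M2 F) = z.2 := by
  have hchar : CharZero F := charZero_of_injective_algebraMap (algebraMap ℚ_[p] F).injective
  obtain ⟨T, hT⟩ := skolem (θ h)
  refine ⟨T, fun z hz => ?_⟩
  have h1 : ∀ X : M2 F, X.trace = 0 → tz X = (2 : F) • X := by
    intro X hX
    unfold tz
    rw [hX, zero_smul, sub_zero]
  have h2 : Mem g (tz z.1) (tz z.2) := ⟨z.1, z.2, 0, Submodule.subset_span hz, by simp, by simp⟩
  have h3 := Mem.unique h (mem_θ h (tz z.1)) h2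
  rw [hT, h1 _ (htr z hz).1, h1 _ (htr z hz).2, mul_smul_comm, smul_mul_assoc] at h3
  have h4 := congrArg (fun M => (2 : F)⁻¹ • M) h3
  simpa only [smul_smul, inv_mul_cancel₀ (two_ne_zero (α := F)), one_smul] using h4

end Pool.Agent.H86.FM.Aut
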