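import Pool.Agent.H86.FM.OneMn

/-!
# Eigenvalues and characters
-/

set_option autoImplicit false
set_option linter.unusedSectionVars false

namespace Pool.Agent.H86.FM.Chr

open Filter Topology Matrix NumberField IsDedekindDomain
open Pool.Agent.H86.FM.Alg Pool.Agent.H86.FM.Cone Pool.Agent.H86.FM.Lg Pool.Agent.H86.FM.Str
open Pool.Agent.H86.FM.Dep Pool.Agent.H86.FM.Rs Pool.Agent.H86.FM.One Pool.Agent.H86.FM.Mn
open Pool.Agent.H86.FM.OneMn
open Pool.Agent.N817.PL Pool.Agent.N817.PL.Nrm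
open Pool.Agent.W401.Cheb Pool.Agent.W528.Ord

section alg

variable {p : ℕ} [hp : Fact p.Prime] {F : Type*} [NormedField F] [NormedAlgebra ℚ_[p] F]

/-- the discriminants of the elements of `S` are not all contained in `δ ℚ_p ^ 2` -/
theorem no_sq {S : Set (M2 F)} (hS : Sp S) (hadd : ∀ X ∈ S, ∀ Y ∈ S, X + Y ∈ S)
    (hsmul : ∀ c : ℚ_[p], ∀ X ∈ S, c • X ∈ S) (hbr : ∀ X ∈ S, ∀ Y ∈ S, br X Y ∈ S) {δ : F}
    (hδ : δ ≠ 0) (hsq : ∀ Z ∈ S, ∃ s : ℚ_[p], D Z = s ^ 2 • δ) : False := by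
  have hchar : CharZero F := charZero_of_injective_algebraMap (algebraMap ℚ_[p] F).injective
  obtain ⟨Z₁, hZ₁, hD₁⟩ := exists_D hS hadd
  obtain ⟨Z, hZ, hD₂⟩ := exists_br hS hadd hD₁
  set Z₂ := br Z₁ Z with hZ₂d
  have hZ₂ : Z₂ ∈ S := hbr _ hZ₁ _ hZ
  obtain ⟨s₁, hs₁⟩ := hsq Z₁ hZ₁
  obtain ⟨s₂, hs₂⟩ := hsq Z₂ hZ₂
  have hs₁0 : s₁ ≠ 0 := by
    rintro rfl
    apply hD₁
    rw [hs₁]
    simp
  have hs₂0 : s₂ ≠ 0 := by
    rintro rfl
    apply hD₂
    rw [hs₂]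
    simp
  apply not_sum_squares (p := p)
  intro x y
  obtain ⟨z, hz⟩ := hsq _ (hadd _ (hsmul (x / s₁) _ hZ₁) _ (hsmul (y / s₂) _ hZ₂))
  refine ⟨z, ?_⟩
  have e1 : (x / s₁) • Z₁ = (algebraMap ℚ_[p] F (x / s₁)) • Z₁ := by rw [algebraMap_smul]
  have e2 : (y / s₂) • Z₂ = (algebraMap ℚ_[p] F (y / s₂)) • Z₂ := by rw [algebraMap_smul]
  rw [e1, e2, D_add, D_smul, D_smul, B_smul_left, B_smul_right, hZ₂d, B_br, ← hZ₂d, hs₁, hs₂,
    mul_zero, mul_zero, mul_zero, add_zero, ← map_pow, ← map_pow, ← Algebra.smul_def,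
    ← Algebra.smul_def, smul_smul, smul_smul, ← add_smul] at hz
  have h2 : ((x / s₁) ^ 2 * s₁ ^ 2 + (y / s₂) ^ 2 * s₂ ^ 2 - z ^ 2) • δ = 0 := by
    rw [sub_smul, hz, sub_self]
  rw [smul_eq_zero] at h2
  rcases h2 with h2 | h2
  · have h3 : (x / s₁) ^ 2 * s₁ ^ 2 = x ^ 2 := by
      rw [← mul_pow, div_mul_cancel₀ _ hs₁0]
    have h4 : (y / s₂) ^ 2 * s₂ ^ 2 = y ^ 2 := by
      rw [← mul_pow, div_mul_cancel₀ _ hs₂0]
    rw [h3, h4] at h2
    linear_combination h2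
  · exact absurd h2 hδ

theorem trace_scalar (c : F) : (c • (1 : M2 F)).trace = 2 * c := by
  rw [Matrix.trace_smul, Matrix.trace_one, Fintype.card_fin, smul_eq_mul]
  push_cast
  ring

theorem det_scalar (c : F) : (c • (1 : M2 F)).det = c ^ 2 := by
  rw [Matrix.det_smul, Matrix.det_one, Fintype.card_fin, mul_one]

/-- a matrix of trace zero with an eigenvalue in `ℚ_p c` -/
theorem relE_scalar {Z : M2 F} {c : F} (hZ : Z.trace = 0) (hc : c ≠ 0) (h : RelE p Z (c • 1)) :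
    ∃ s : ℚ_[p], D Z = s ^ 2 • (4 * c ^ 2) := by
  obtain ⟨a, b, h0, h⟩ := h
  unfold Rs.Rs at h
  rw [smul_smul, trace_scalar, det_scalar, Matrix.trace_smul, hZ, Matrix.det_smul,
    Fintype.card_fin, smul_zero] at h
  set α := algebraMap ℚ_[p] F a with hα
  set β := algebraMap ℚ_[p] F b with hβ
  have h1 : (α ^ 2 * Z.det + β ^ 2 * c ^ 2) ^ 2 = 0 := by linear_combination h
  have h2 := (pow_eq_zero_iff two_ne_zero).1 h1
  have ha : a ≠ 0 := by
    rintro rfl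
    have hα0 : α = 0 := by rw [hα, map_zero]
    rw [hα0] at h2
    have h3 : (β * c) ^ 2 = 0 := by linear_combination h2
    have h4 := (mul_eq_zero.1 ((pow_eq_zero_iff two_ne_zero).1 h3)).resolve_right hc
    have h5 : b = 0 := (map_eq_zero_iff _ (algebraMap ℚ_[p] F).injective).1 h4
    rcases h0 with h0 | h0
    · exact h0 rfl
    · exact h0 h5
  have hα0 : α ≠ 0 := (map_ne_zero_iff _ (algebraMap ℚ_[p] F).injective).2 ha
  refine ⟨b / a, ?_⟩
  rw [Algebra.smul_def, map_pow, map_div₀, ← hα, ← hβ]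
  unfold D
  rw [hZ]
  field_simp
  linear_combination (-4) * h2

theorem RelE.of_right {X Y : M2 F} {t : ℚ_[p]} (ht : t ≠ 0)
    (h : RelE p X (algebraMap ℚ_[p] F t • Y)) : RelE p X Y := by
  obtain ⟨a, b, h0, h⟩ := h
  refine ⟨a, b * t, h0.imp id fun hb => mul_ne_zero hb ht, ?_⟩
  rwa [map_mul, ← smul_smul]

/-- there are pairs `(X, c)` such that no eigenvalue of `X` is in `ℚ_p c` -/
theorem contra {g : Submodule ℚ_[p] (M2 F × M2 F)}
    (hbr : ∀ w ∈ g, ∀ z ∈ g, (br w.1 z.1, br w.2 z.2) ∈ g)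
    (hrel : ∀ w ∈ g, RelE p w.1 w.2) {X : M2 F} {c : F} (hc : c ≠ 0) (hX : (X, c • (1 : M2 F)) ∈ g)
    (hS : Sp {Z : M2 F | (Z, (0 : M2 F)) ∈ g ∧ Z.trace = 0}) : False := by
  have hp0 : (p : ℚ_[p]) ≠ 0 := by exact_mod_cast hp.out.ne_zero
  refine no_sq (p := p) hS ?_ ?_ ?_ (δ := 4 * c ^ 2) ?_ ?_
  · rintro Z ⟨h1, h2⟩ Z' ⟨h3, h4⟩
    refine ⟨?_, ?_⟩
    · have := g.add_mem h1 h3
      rwa [Prod.mk_add_mk, add_zero] at this
    · rw [Matrix.trace_add, h2, h4, add_zero]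
  · rintro t Z ⟨h1, h2⟩
    refine ⟨?_, ?_⟩
    · have := g.smul_mem t h1
      rwa [Prod.smul_mk, smul_zero] at this
    · rw [Matrix.trace_smul, h2, smul_zero]
  · rintro Z ⟨h1, h2⟩ Z' ⟨h3, h4⟩
    refine ⟨?_, trace_br _ _⟩
    have := hbr _ h1 _ h3
    simpa [br] using this
  · have hchar : CharZero F := charZero_of_injective_algebraMap (algebraMap ℚ_[p] F).injective
    exact mul_ne_zero (by norm_num) (pow_ne_zero 2 hc)
  · rintro Z ⟨h1, h2⟩
    refine relE_scalar h2 hc ?_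
    have h3 : ∀ m : ℕ, RelE p ((algebraMap ℚ_[p] F ((p : ℚ_[p]) ^ m)) • X + Z) (c • 1) := by
      intro m
      have h4 := hrel _ (g.add_mem (g.smul_mem ((p : ℚ_[p]) ^ m) hX) h1)
      rw [Prod.smul_mk, Prod.mk_add_mk, add_zero] at h4
      simp only at h4
      rw [← algebraMap_smul (R := ℚ_[p]) F ((p : ℚ_[p]) ^ m) X,
        ← algebraMap_smul (R := ℚ_[p]) F ((p : ℚ_[p]) ^ m) (c • (1 : M2 F))] at h4
      exact RelE.of_right (pow_ne_zero m hp0) h4
    refine RelE.tendsto (u := fun m : ℕ => (algebraMap ℚ_[p] F ((p : ℚ_[p]) ^ m)) • X + Z)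
      (v := fun _ => c • 1) ?_ tendsto_const_nhds h3
    have h4 := ((tendsto_pn (p := p) (F := F)).smul_const X).add_const Z
    rwa [zero_smul, zero_add] at h4

/-- there are elements without eigenvalues in `ℚ_p` -/
theorem contra1 {g : Submodule ℚ_[p] (M2 F × M2 F)}
    (hbr : ∀ w ∈ g, ∀ z ∈ g, (br w.1 z.1, br w.2 z.2) ∈ g)
    (hrel : ∀ w ∈ g, RelE p w.1 1)
    (hS : Sp {Z : M2 F | (Z, (0 : M2 F)) ∈ g ∧ Z.trace = 0}) : False := by
  have hchar : CharZero F := charZero_of_injective_algebraMap (algebraMap ℚ_[p] F).injective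
  refine no_sq (p := p) hS ?_ ?_ ?_ (δ := 4 * (1 : F) ^ 2) ?_ ?_
  · rintro Z ⟨h1, h2⟩ Z' ⟨h3, h4⟩
    refine ⟨?_, ?_⟩
    · have := g.add_mem h1 h3
      rwa [Prod.mk_add_mk, add_zero] at this
    · rw [Matrix.trace_add, h2, h4, add_zero]
  · rintro t Z ⟨h1, h2⟩
    refine ⟨?_, ?_⟩
    · have := g.smul_mem t h1
      rwa [Prod.smul_mk, smul_zero] at this
    · rw [Matrix.trace_smul, h2, smul_zero]
  · rintro Z ⟨h1, h2⟩ Z' ⟨h3, h4⟩
    refine ⟨?_, trace_br _ _⟩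
    have := hbr _ h1 _ h3
    simpa [br] using this
  · exact mul_ne_zero (by norm_num) (pow_ne_zero 2 one_ne_zero)
  · rintro Z ⟨h1, h2⟩
    refine relE_scalar h2 one_ne_zero ?_
    rw [one_smul]
    exact hrel _ h1

end alg

attribute [local instance] nring nalg

section mat

variable {p : ℕ} [hp : Fact p.Prime] {F : Type*} [NormedField F] [NormedAlgebra ℚ_[p] F]
  [IsUltrametricDist F] [CompleteSpace F]

/-- if a power of an eigenvalue is in `ℚ_p` then an eigenvalue of the logarithm is in `ℚ_p` -/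
theorem relE_one {A : M2 F} {N : ℕ} (hA : ‖A ^ N - 1‖ ≤ 1 / 4) {k : ℕ} (hk : k ≠ 0) {q : ℚ_[p]}
    (h : ∀ j, Rs.Rs (A ^ (k * j)) ((algebraMap ℚ_[p] F q) ^ j • 1) = 0) :
    RelE p (lg p (A ^ N - 1)) 1 := by
  have hcomp : @CompleteSpace (M2 F) PseudoMetricSpace.toUniformSpace := complete
  have hult : IsUltrametricDist (M2 F) := ultraMat
  have hchar : CharZero ℚ_[p] := inferInstance
  have hx := tendsto_pow (p := p) hA k
  rw [add_sub_cancel] at hx
  have h1 : ∀ i : ℕ, RelE p (((p : ℚ_[p])⁻¹) ^ i • ((A ^ N) ^ (k * p ^ i) - 1)) 1 := by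
    intro i
    refine ⟨1, ((p : ℚ_[p])⁻¹) ^ i * (q ^ (N * p ^ i) - 1), Or.inl one_ne_zero, ?_⟩
    have h2 : (A ^ N) ^ (k * p ^ i) = A ^ (k * (N * p ^ i)) := by
      rw [← pow_mul]
      congr 1
      ring
    have h3 : Rs.Rs (A ^ (k * (N * p ^ i)))
        (algebraMap ℚ_[p] F (q ^ (N * p ^ i)) • (1 : M2 F)) = 0 := by
      rw [map_pow]
      exact h (N * p ^ i)
    have e3 : ∀ M : M2 F, ((p : ℚ_[p])⁻¹) ^ i • M = algebraMap ℚ_[p] F (((p : ℚ_[p])⁻¹) ^ i) • M :=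
      fun M => by rw [algebraMap_smul]
    rw [map_one, one_smul, e3, map_mul, ← smul_smul, Rs_smul, map_sub, map_one, sub_smul,
      one_smul, h2, Rs_sub_one, h3, mul_zero]
  have h2 : RelE p ((k : ℚ_[p]) • lg p (A ^ N - 1)) 1 :=
    RelE.tendsto hx (tendsto_const_nhds (x := (1 : M2 F))) h1
  obtain ⟨a, b, h0, h3⟩ := h2
  have hk' : (k : ℚ_[p]) ≠ 0 := by exact_mod_cast hk
  refine ⟨a * k, b, h0.imp (fun ha => mul_ne_zero ha hk') id, ?_⟩
  have e : algebraMap ℚ_[p] F (k : ℚ_[p]) • lg p (A ^ N - 1) = (k : ℚ_[p]) • lg p (A ^ N - 1) := by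
    rw [algebraMap_smul]
  rwa [map_mul, ← smul_smul, e]

/-- the logarithm of a scalar matrix -/
theorem lg_scalar {x : F} (hx : ‖x‖ ≤ 1 / 4) : lg p (x • (1 : M2 F)) = lg p x • (1 : M2 F) := by
  have hcomp : @CompleteSpace (M2 F) PseudoMetricSpace.toUniformSpace := complete
  have hult : IsUltrametricDist (M2 F) := ultraMat
  apply lg_eq
  have h1 : ∀ k, Log.f p k (x • (1 : M2 F)) = Log.f p k x • (1 : M2 F) := by
    intro k
    unfold Log.f
    have e1 : (1 : M2 F) + x • 1 = (1 + x) • 1 := by rw [add_smul, one_smul]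
    rw [e1, smul_pow, one_pow, smul_assoc, sub_smul, one_smul]
  simp_rw [h1]
  exact (tendsto_lg (p := p) hx).smul_const (1 : M2 F)

end mat

section lie

variable {p : ℕ} [hp : Fact p.Prime] {F : Type*} [NormedField F] [NormedAlgebra ℚ_[p] F]
  [IsUltrametricDist F] [CompleteSpace F] {G : Type*} [Group G]

/-- the scalar representation -/
def sc (ψ : G →* F) : G →* M2 F where
  toFun g := ψ g • 1
  map_one' := by rw [map_one, one_smul]
  map_mul' g h := by rw [map_mul, smul_mul_smul_comm, one_mul]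

theorem sc_apply (ψ : G →* F) (g : G) : sc ψ g = ψ g • 1 := rfl

theorem norm_scalar (x : F) : ‖x • (1 : M2 F)‖ = ‖x‖ := by
  rw [norm_smul, norm_one, mul_one]

theorem sc_sub_one (ψ : G →* F) (g : G) : sc ψ g - 1 = (ψ g - 1) • 1 := by
  rw [sc_apply, sub_smul, one_smul]

/-- the elements `(Z, 0)` -/
theorem sp_zero (V : G →* M2 F) (ψ : G →* F) {C : ℝ} (hCV : ∀ g, ‖V g‖ ≤ C)
    (hCW : ∀ g, ‖sc ψ g‖ ≤ C)
    (U : Subgroup G) (hUn : ∀ g : G, ∀ v ∈ U, g * v * g⁻¹ ∈ U) (hsV : ∀ u ∈ U, ‖V u - 1‖ ≤ 1 / 4)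
    (hsW : ∀ u ∈ U, ‖sc ψ u - 1‖ ≤ 1 / 4) (hspV : Submodule.span F (V '' U) = ⊤) :
    (∀ w ∈ Lim.L p (V.prod (sc ψ)) U, ∀ z ∈ Lim.L p (V.prod (sc ψ)) U,
      (br w.1 z.1, br w.2 z.2) ∈ Lim.L p (V.prod (sc ψ)) U) ∧
    Sp {Z : M2 F | (Z, (0 : M2 F)) ∈ Lim.L p (V.prod (sc ψ)) U ∧ Z.trace = 0} := by
  have hchar : CharZero F := charZero_of_injective_algebraMap (algebraMap ℚ_[p] F).injective
  have hC : ∀ g, ‖V.prod (sc ψ) g‖ ≤ C := by
    intro g
    rw [Prod.norm_def]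
    exact max_le (hCV g) (hCW g)
  set L := Lim.L p (V.prod (sc ψ)) U with hL
  have hbr : ∀ w ∈ L, ∀ z ∈ L, (br w.1 z.1, br w.2 z.2) ∈ L := by
    intro w hw z hz
    exact Lim.lie_mem hC hw hz
  refine ⟨hbr, ?_⟩
  have spL1 : Sp (P1 L) := by
    refine sp_of p V U hsV hspV _ ?_ ?_
    · rintro u hu X ⟨Y, hXY⟩
      exact ⟨_, conj_L V (sc ψ) U u (hUn u) hXY⟩
    · obtain ⟨u, hu, h⟩ := not_scalar (p := p) V U hsV hspV
      exact ⟨_, ⟨_, mem_L_log V (sc ψ) U hsV hsW u hu⟩, h⟩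
  refine sp_of p V U hsV hspV _ ?_ ?_
  · rintro u hu X ⟨h1, h2⟩
    refine ⟨?_, ?_⟩
    · have h3 := conj_L V (sc ψ) U u (hUn u) h1
      rwa [mul_zero, zero_mul] at h3
    · rw [trace_conj' (inv_right V u)]
      exact h2
  · obtain ⟨u, hu, hns⟩ := not_scalar (p := p) V U hsV hspV
    have hX := mem_L_log (p := p) V (sc ψ) U hsV hsW u hu
    obtain ⟨Z, ⟨Z', hZ⟩, hne⟩ : ∃ Z ∈ P1 L, br (lg p (V u - 1)) Z ≠ 0 := by
      by_contra hcon
      push Not at hcon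
      obtain ⟨c, hc⟩ := scalar_of_br_set spL1 hcon
      exact hns c hc
    refine ⟨br (lg p (V u - 1)) Z, ⟨?_, trace_br _ _⟩, fun c hc => hne ?_⟩
    · have h1 := hbr _ hX _ hZ
      simp only at h1
      have h2 : ‖ψ u - 1‖ ≤ 1 / 4 := by
        have h3 := hsW u hu
        rwa [sc_sub_one, norm_scalar] at h3
      rw [sc_sub_one, lg_scalar h2, br_scalar_left] at h1
      exact h1
    · exact zero_of_scalar hc (trace_br _ _)

theorem relE_one_L (V W : G →* M2 F) (U : Subgroup G) (hsV : ∀ u ∈ U, ‖V u - 1‖ ≤ 1 / 4)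
    (hrel : ∀ u ∈ U, RelE p (lg p (V u - 1)) 1) (w : M2 F × M2 F)
    (hw : w ∈ Lim.L p (V.prod W) U) : RelE p w.1 1 := by
  have hcomp : @CompleteSpace (M2 F) PseudoMetricSpace.toUniformSpace := complete
  have hult : IsUltrametricDist (M2 F) := ultraMat
  have hp0 : (p : ℚ_[p]) ≠ 0 := by exact_mod_cast hp.out.ne_zero
  obtain ⟨u, hu, hlim⟩ := hw
  have h1 : Tendsto (fun k => ((p : ℚ_[p])⁻¹) ^ k • (V (u k) - 1)) atTop (𝓝 w.1) :=
    (continuous_fst.tendsto _).comp hlim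
  have h3 := tendsto_quot (fun k => hsV _ (hu k)) h1
  refine RelE.tendsto h3 (tendsto_const_nhds (x := (1 : M2 F))) fun k => ?_
  have h5 := (hrel _ (hu k)).smul (algebraMap ℚ_[p] F (((p : ℚ_[p])⁻¹) ^ k))
  have h6 := RelE.of_right (pow_ne_zero k (inv_ne_zero hp0)) h5
  have e3 : ∀ M : M2 F, algebraMap ℚ_[p] F (((p : ℚ_[p])⁻¹) ^ k) • M = ((p : ℚ_[p])⁻¹) ^ k • M :=
    fun M => by rw [algebraMap_smul]
  rwa [e3] at h6

end lie

/-- **No power of an eigenvalue is in `ℚ_p`.** -/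
theorem main1 {K : Type} [Field K] [NumberField K] (p : ℕ) [hp : Fact p.Prime] {F : Type}
    [NormedField F] [NormedAlgebra ℚ_[p] F] [FiniteDimensional ℚ_[p] F]
    (V : GK K →* M2 F) (hV : Continuous V)
    (hspV : ∀ H : Subgroup (GK K), IsOpen (H : Set (GK K)) → Submodule.span F (V '' H) = ⊤)
    (P : Set (HeightOneSpectrum (𝓞 K)))
    (hP : ∀ ε : ℝ, 0 < ε → ∃ᶠ x : ℕ in atTop, dens (fun v => v ∉ P) x ≤ ε)
    (hdep : ∀ v ∈ P, ∃ g, IsFrob v g ∧ ∃ k : ℕ, k ≠ 0 ∧ ∃ q : ℚ_[p],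
      ∀ j, Rs.Rs (V g ^ (k * j)) ((algebraMap ℚ_[p] F q) ^ j • 1) = 0) : False := by
  have hult : IsUltrametricDist F := ultra p F
  have hcompF : CompleteSpace F := FiniteDimensional.complete ℚ_[p] F
  have hcomp : @CompleteSpace (M2 F) PseudoMetricSpace.toUniformSpace := complete
  have hultM : IsUltrametricDist (M2 F) := ultraMat
  let instM : MeasurableSpace (GK K) := borel (GK K)
  have instB : BorelSpace (GK K) := ⟨rfl⟩
  obtain ⟨U, -, hU⟩ := Top.exists_small V hV Set.univ isOpen_univ (Set.mem_univ _)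
  have hUn : (U : Subgroup (GK K)).Normal := U.isNormal'
  set N := (U : Subgroup (GK K)).index with hN
  have hN0 : 0 < N := Nat.pos_of_ne_zero (Top2.index_ne U)
  have hpowV : ∀ g, ‖V g ^ N - 1‖ ≤ 1 / 4 := by
    intro g
    rw [← map_pow]
    exact hU _ (Subgroup.pow_index_mem (U : Subgroup (GK K)) g)
  have hcV : Continuous fun g => lg p (V g ^ N - 1) :=
    continuous_lg (p := p) ((hV.pow N).sub continuous_const) hpowV
  have hall : ∀ g, RelE p (lg p (V g ^ N - 1)) 1 := by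
    have hclosed : IsClosed {g : GK K | RelE p (lg p (V g ^ N - 1)) 1} := by
      have h1 : Continuous fun g : GK K => ((lg p (V g ^ N - 1), (1 : M2 F)) :
        M2 F × M2 F) := hcV.prodMk continuous_const
      exact isClosed_relE.preimage h1
    refine Main2.closed_univ {g : GK K | RelE p (lg p (V g ^ N - 1)) 1} hclosed
      ?_ P hP ?_
    · intro σ hσ τ
      have hσ' : RelE p (lg p (V σ ^ N - 1)) 1 := hσ
      change RelE p (lg p (V (τ * σ * τ⁻¹) ^ N - 1)) 1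
      have e1 : V (τ * σ * τ⁻¹) ^ N - 1 = V τ * (V σ ^ N - 1) * V τ⁻¹ := by
        rw [mul_sub, sub_mul, mul_one, inv_right, ← map_pow, ← map_pow, ← map_mul, ← map_mul]
        congr 2
        rw [conj_pow]
      rw [e1, lg_conj (inv_right V τ) (inv_left V τ) (hpowV σ)]
      have h2 := hσ'.conj (inv_right V τ) (inv_right V τ)
      rwa [mul_one, inv_right] at h2
    · intro v hv
      obtain ⟨g, hg, k, hk, q, h⟩ := hdep v hv
      exact ⟨g, relE_one (hpowV g) hk h, hg⟩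
  have hrel : ∀ u ∈ (U : Subgroup (GK K)), RelE p (lg p (V u - 1)) 1 := by
    intro u hu
    have h1 := hall u
    have hNp : ((N : ℕ) : ℚ_[p]) ≠ 0 := by exact_mod_cast hN0.ne'
    have h2 := lg_pow (p := p) (hU u hu) N
    rw [add_sub_cancel] at h2
    rw [h2] at h1
    obtain ⟨a, b, h0, h3⟩ := h1
    refine ⟨a * N, b, h0.imp (fun ha => mul_ne_zero ha hNp) id, ?_⟩
    have e : algebraMap ℚ_[p] F (N : ℚ_[p]) • lg p (V u - 1) = (N : ℚ_[p]) • lg p (V u - 1) := by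
      rw [algebraMap_smul]
    rwa [map_mul, ← smul_smul, e]
  obtain ⟨C₁, hC₁⟩ := Top.bounded V hV
  obtain ⟨hbr, hS⟩ := sp_zero (p := p) V (1 : GK K →* F) (C := max C₁ 1)
    (fun g => (hC₁ g).trans (le_max_left _ _))
    (fun g => by rw [sc_apply, norm_scalar]; simp) (U : Subgroup (GK K))
    (fun g v hv => hUn.conj_mem v hv g) hU (fun u hu => by
      rw [sc_sub_one, norm_scalar]
      simp) (hspV _ U.isOpen')
  exact contra1 hbr (relE_one_L V _ (U : Subgroup (GK K)) hU hrel) hS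

/-- **Eigenvalues and characters.** -/
theorem main2 {K : Type} [Field K] [NumberField K] (p : ℕ) [hp : Fact p.Prime] {F : Type}
    [NormedField F] [NormedAlgebra ℚ_[p] F] [FiniteDimensional ℚ_[p] F]
    (V : GK K →* M2 F) (ψ : GK K →* F) (hV : Continuous V) (hψ : Continuous ψ)
    (hspV : ∀ H : Subgroup (GK K), IsOpen (H : Set (GK K)) → Submodule.span F (V '' H) = ⊤)
    (hψ0 : ∀ N : ℕ, 0 < N → ∃ g, ψ g ^ N ≠ 1)
    (P : Set (HeightOneSpectrum (𝓞 K)))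
    (hP : ∀ ε : ℝ, 0 < ε → ∃ᶠ x : ℕ in atTop, dens (fun v => v ∉ P) x ≤ ε)
    (hdep : ∀ v ∈ P, ∃ g, IsFrob v g ∧ ∃ k l : ℕ, (k ≠ 0 ∨ l ≠ 0) ∧
      ((∀ j, Rs.Rs (V g ^ (k * j)) (sc ψ g ^ (l * j)) = 0) ∨
        (∀ j, Rs.Rs (V g ^ (k * j)) (sc ψ g⁻¹ ^ (l * j)) = 0))) : False := by
  have hult : IsUltrametricDist F := ultra p F
  have hcompF : CompleteSpace F := FiniteDimensional.complete ℚ_[p] F
  have hcomp : @CompleteSpace (M2 F) PseudoMetricSpace.toUniformSpace := complete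
  have hultM : IsUltrametricDist (M2 F) := ultraMat
  let instM : MeasurableSpace (GK K) := borel (GK K)
  have instB : BorelSpace (GK K) := ⟨rfl⟩
  set W := sc ψ with hWd
  have hW : Continuous W := by
    have h1 : Continuous fun g => ψ g • (1 : M2 F) := hψ.smul continuous_const
    exact h1
  obtain ⟨U₁, -, hU₁⟩ := Top.exists_small V hV Set.univ isOpen_univ (Set.mem_univ _)
  obtain ⟨U, hUU, hU⟩ := Top.exists_small W hW ((U₁ : Subgroup (GK K)) : Set (GK K)) U₁.isOpen'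
    (U₁ : Subgroup (GK K)).one_mem
  have hUn : (U : Subgroup (GK K)).Normal := U.isNormal'
  have hsV : ∀ u ∈ (U : Subgroup (GK K)), ‖V u - 1‖ ≤ 1 / 4 := fun u hu => hU₁ u (hUU hu)
  set N := (U : Subgroup (GK K)).index with hN
  have hN0 : 0 < N := Nat.pos_of_ne_zero (Top2.index_ne U)
  have hpowV : ∀ g, ‖V g ^ N - 1‖ ≤ 1 / 4 := by
    intro g
    rw [← map_pow]
    exact hsV _ (Subgroup.pow_index_mem (U : Subgroup (GK K)) g)
  have hpowW : ∀ g, ‖W g ^ N - 1‖ ≤ 1 / 4 := by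
    intro g
    rw [← map_pow]
    exact hU _ (Subgroup.pow_index_mem (U : Subgroup (GK K)) g)
  have hcV : Continuous fun g => lg p (V g ^ N - 1) :=
    continuous_lg (p := p) ((hV.pow N).sub continuous_const) hpowV
  have hcW : Continuous fun g => lg p (W g ^ N - 1) :=
    continuous_lg (p := p) ((hW.pow N).sub continuous_const) hpowW
  have hall : ∀ g, RelE p (lg p (V g ^ N - 1)) (lg p (W g ^ N - 1)) := by
    have hclosed : IsClosed {g : GK K | RelE p (lg p (V g ^ N - 1)) (lg p (W g ^ N - 1))} := by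
      have h1 : Continuous fun g : GK K => ((lg p (V g ^ N - 1), lg p (W g ^ N - 1)) :
        M2 F × M2 F) := hcV.prodMk hcW
      exact isClosed_relE.preimage h1
    refine Main2.closed_univ {g : GK K | RelE p (lg p (V g ^ N - 1)) (lg p (W g ^ N - 1))} hclosed
      ?_ P hP ?_
    · intro σ hσ τ
      have hσ' : RelE p (lg p (V σ ^ N - 1)) (lg p (W σ ^ N - 1)) := hσ
      change RelE p (lg p (V (τ * σ * τ⁻¹) ^ N - 1)) (lg p (W (τ * σ * τ⁻¹) ^ N - 1))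
      have e : ∀ R : GK K →* M2 F, (∀ g, ‖R g ^ N - 1‖ ≤ 1 / 4) →
          lg p (R (τ * σ * τ⁻¹) ^ N - 1) = R τ * lg p (R σ ^ N - 1) * R τ⁻¹ := by
        intro R hR
        have e1 : R (τ * σ * τ⁻¹) ^ N - 1 = R τ * (R σ ^ N - 1) * R τ⁻¹ := by
          rw [mul_sub, sub_mul, mul_one, inv_right, ← map_pow, ← map_pow, ← map_mul, ← map_mul]
          congr 2
          rw [conj_pow]
        rw [e1, lg_conj (inv_right R τ) (inv_left R τ) (hR σ)]
      rw [e V hpowV, e W hpowW]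
      exact hσ'.conj (inv_right V τ) (inv_right W τ)
    · intro v hv
      obtain ⟨g, hg, k, l, hkl, h⟩ := hdep v hv
      refine ⟨g, ?_, hg⟩
      rcases h with h | h
      · exact relE_pos (hpowV g) (hpowW g) hkl h
      · exact relE_neg (hpowV g) (hpowW g) (hpowW g⁻¹) (inv_right W g) hkl h
  have hrel : ∀ u ∈ (U : Subgroup (GK K)), RelE p (lg p (V u - 1)) (lg p (W u - 1)) := by
    intro u hu
    have h1 := hall u
    have hNp : ((N : ℕ) : ℚ_[p]) ≠ 0 := by exact_mod_cast hN0.ne'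
    have hNF : algebraMap ℚ_[p] F ((N : ℕ) : ℚ_[p]) ≠ 0 :=
      (map_ne_zero_iff _ (algebraMap ℚ_[p] F).injective).2 hNp
    have e : ∀ R : GK K →* M2 F, ‖R u - 1‖ ≤ 1 / 4 →
        lg p (R u ^ N - 1) = algebraMap ℚ_[p] F ((N : ℕ) : ℚ_[p]) • lg p (R u - 1) := by
      intro R hR
      have h2 := lg_pow (p := p) hR N
      rw [add_sub_cancel] at h2
      rw [h2, algebraMap_smul]
    rw [e V (hsV u hu), e W (hU u hu)] at h1
    exact h1.of_smul hNF
  obtain ⟨C₁, hC₁⟩ := Top.bounded V hV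
  obtain ⟨C₂, hC₂⟩ := Top.bounded W hW
  obtain ⟨hbr, hS⟩ := sp_zero (p := p) V ψ (C := max C₁ C₂)
    (fun g => (hC₁ g).trans (le_max_left _ _)) (fun g => (hC₂ g).trans (le_max_right _ _))
    (U : Subgroup (GK K)) (fun g v hv => hUn.conj_mem v hv g) hsV hU (hspV _ U.isOpen')
  -- an element with a logarithm which is not zero
  obtain ⟨g, hg⟩ := hψ0 N hN0
  have hgU : g ^ N ∈ (U : Subgroup (GK K)) := Subgroup.pow_index_mem (U : Subgroup (GK K)) g
  have h1 : ‖ψ (g ^ N) - 1‖ ≤ 1 / 4 := by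
    have h3 := hU _ hgU
    rwa [hWd, sc_sub_one, norm_scalar] at h3
  have h2 : lg p (ψ (g ^ N) - 1) ≠ 0 := by
    intro h0
    have h3 : lg p (ψ (g ^ N) - 1) = lg p (1 - 1 : F) := by
      rw [h0]
      symm
      apply lg_eq
      have h4 : ∀ k, Log.f p k (1 - 1 : F) = 0 := by
        intro k
        unfold Log.f
        simp
      simp_rw [h4]
      exact tendsto_const_nhds
    have h4 := lg_inj h1 (by simp) h3
    rw [map_pow] at h4
    exact hg (sub_left_injective h4)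
  have h3 := mem_L_log (p := p) V W (U : Subgroup (GK K)) hsV hU _ hgU
  rw [hWd, sc_sub_one, lg_scalar h1] at h3
  exact contra hbr (relE_L V W (U : Subgroup (GK K)) hsV hU hrel) h2 h3 hS

end Pool.Agent.H86.FM.Chr
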