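import Mathlib

/-!
# Pairs whose ratio is a square in `ℚ_p`
-/

set_option autoImplicit false
set_option linter.unusedSectionVars false

namespace Pool.Agent.H86.FM.Cone

open Filter Topology

variable {p : ℕ} [hp : Fact p.Prime] {F : Type*} [NormedField F] [NormedAlgebra ℚ_[p] F]

/-- the ratio of `x` and `y` is a square in `ℚ_p`, or one of them is zero -/
def Rel (p : ℕ) [Fact p.Prime] {F : Type*} [NormedField F] [NormedAlgebra ℚ_[p] F] (x y : F) : Prop :=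
  ∃ a b : ℚ_[p], (a ≠ 0 ∨ b ≠ 0) ∧ a ^ 2 • x = b ^ 2 • y

theorem Rel.symm {x y : F} (h : Rel p x y) : Rel p y x := by
  obtain ⟨a, b, h0, h⟩ := h
  exact ⟨b, a, h0.symm, h.symm⟩

theorem Rel.mul {x y : F} (h : Rel p x y) (c : F) : Rel p (c * x) (c * y) := by
  obtain ⟨a, b, h0, h⟩ := h
  refine ⟨a, b, h0, ?_⟩
  rw [← mul_smul_comm, h, mul_smul_comm]

theorem Rel.left {x y : F} {c : ℚ_[p]} (hc : c ≠ 0) (h : Rel p x (c ^ 2 • y)) : Rel p x y := by
  obtain ⟨a, b, h0, h⟩ := h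
  refine ⟨a, b * c, h0.imp id fun h => mul_ne_zero h hc, ?_⟩
  rw [h, smul_smul, mul_pow]

theorem Rel.right {x y : F} {c : ℚ_[p]} (hc : c ≠ 0) (h : Rel p (c ^ 2 • x) y) : Rel p x y :=
  (h.symm.left hc).symm

theorem zero_right (x : F) : Rel p x 0 := ⟨0, 1, Or.inr one_ne_zero, by simp⟩

theorem zero_left (x : F) : Rel p 0 x := (zero_right x).symm

/-- if `y` is not zero then `x` is a square times `y` -/
theorem Rel.eq {x y : F} (h : Rel p x y) (hy : y ≠ 0) : ∃ s : ℚ_[p], x = s ^ 2 • y := by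
  obtain ⟨a, b, h0, h⟩ := h
  have ha : a ≠ 0 := by
    rintro rfl
    have hb : b ≠ 0 := by simpa using h0
    have h1 : b ^ 2 • y = 0 := by rw [← h]; simp
    rw [smul_eq_zero] at h1
    rcases h1 with h1 | h1
    · exact hb (pow_eq_zero_iff two_ne_zero |>.1 h1)
    · exact hy h1
  refine ⟨b / a, ?_⟩
  have h1 : x = (a ^ 2)⁻¹ • (a ^ 2 • x) := by
    rw [smul_smul, inv_mul_cancel₀ (pow_ne_zero 2 ha), one_smul]
  rw [h1, h, smul_smul, div_pow, div_eq_inv_mul]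

/-- primitive pairs -/
theorem prim {a b : ℚ_[p]} (h : a ≠ 0 ∨ b ≠ 0) : ∃ (c : ℚ_[p]) (a' b' : ℤ_[p]), c ≠ 0 ∧
    (‖a'‖ = 1 ∨ ‖b'‖ = 1) ∧ a = c * a' ∧ b = c * b' := by
  wlog hab : ‖b‖ ≤ ‖a‖ generalizing a b
  · obtain ⟨c, a', b', hc, h1, h2, h3⟩ := this h.symm (le_of_not_ge hab)
    exact ⟨c, b', a', hc, h1.symm, h3, h2⟩
  have ha : a ≠ 0 := by
    rintro rfl
    rw [norm_zero] at hab
    have hb : b = 0 := norm_le_zero_iff.1 hab
    rcases h with h | h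
    · exact h rfl
    · exact h hb
  have hb1 : ‖b / a‖ ≤ 1 := by
    rw [norm_div]
    exact div_le_one_of_le₀ hab (norm_nonneg _)
  refine ⟨a, 1, ⟨b / a, hb1⟩, ha, Or.inl (by simp), by simp, ?_⟩
  change b = a * (b / a)
  rw [mul_div_cancel₀ _ ha]

theorem rel_iff {x y : F} : Rel p x y ↔ ∃ a b : ℤ_[p], (‖a‖ = 1 ∨ ‖b‖ = 1) ∧
    (a : ℚ_[p]) ^ 2 • x = (b : ℚ_[p]) ^ 2 • y := by
  constructor
  · rintro ⟨a, b, h0, h⟩
    obtain ⟨c, a', b', hc, h1, rfl, rfl⟩ := prim h0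
    refine ⟨a', b', h1, ?_⟩
    rw [mul_pow, mul_pow, mul_smul, mul_smul] at h
    have hc2 : c ^ 2 ≠ 0 := pow_ne_zero 2 hc
    have := congrArg (fun z => (c ^ 2)⁻¹ • z) h
    simpa only [smul_smul, inv_mul_cancel₀ hc2, one_mul, one_smul, ← mul_assoc] using this
  · rintro ⟨a, b, h0, h⟩
    refine ⟨a, b, h0.imp ?_ ?_, h⟩
    · rintro h1 h2
      have h3 : a = 0 := Subtype.ext h2
      rw [h3, norm_zero] at h1
      exact zero_ne_one h1
    · rintro h1 h2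
      have h3 : b = 0 := Subtype.ext h2
      rw [h3, norm_zero] at h1
      exact zero_ne_one h1

/-- the relation is closed -/
theorem isClosed_rel : IsClosed {xy : F × F | Rel p xy.1 xy.2} := by
  let T : Set ((ℤ_[p] × ℤ_[p]) × (F × F)) := {t | (‖t.1.1‖ = 1 ∨ ‖t.1.2‖ = 1) ∧
    (t.1.1 : ℚ_[p]) ^ 2 • t.2.1 = (t.1.2 : ℚ_[p]) ^ 2 • t.2.2}
  have hT : IsClosed T := by
    refine IsClosed.inter (IsClosed.union ?_ ?_) ?_
    · exact isClosed_eq (by fun_prop) continuous_const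
    · exact isClosed_eq (by fun_prop) continuous_const
    · have h1 : Continuous fun t : (ℤ_[p] × ℤ_[p]) × (F × F) => (t.1.1 : ℚ_[p]) :=
        continuous_subtype_val.comp (continuous_fst.comp continuous_fst)
      have h2 : Continuous fun t : (ℤ_[p] × ℤ_[p]) × (F × F) => (t.1.2 : ℚ_[p]) :=
        continuous_subtype_val.comp (continuous_snd.comp continuous_fst)
      exact isClosed_eq ((h1.pow 2).smul (by fun_prop)) ((h2.pow 2).smul (by fun_prop))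
  have h1 := isClosedMap_snd_of_compactSpace (X := ℤ_[p] × ℤ_[p]) (Y := F × F) T hT
  have h2 : Prod.snd '' T = {xy : F × F | Rel p xy.1 xy.2} := by
    ext ⟨x, y⟩
    constructor
    · rintro ⟨⟨⟨a, b⟩, ⟨x', y'⟩⟩, ⟨h3, h4⟩, h5⟩
      have h6 : x' = x ∧ y' = y := by simpa using h5
      obtain ⟨rfl, rfl⟩ := h6
      exact rel_iff.2 ⟨a, b, h3, h4⟩
    · intro h
      obtain ⟨a, b, h3, h4⟩ := rel_iff.1 h
      exact ⟨⟨⟨a, b⟩, ⟨x, y⟩⟩, ⟨h3, h4⟩, rfl⟩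
  rwa [h2] at h1

theorem Rel.tendsto {u v : ℕ → F} {x y : F} (hu : Tendsto u atTop (𝓝 x)) (hv : Tendsto v atTop (𝓝 y))
    (h : ∀ k, Rel p (u k) (v k)) : Rel p x y :=
  isClosed_rel.mem_of_tendsto (hu.prodMk_nhds hv) (Eventually.of_forall h)

/-- not every sum of two squares in `ℚ_p` is a square -/
theorem not_sum_squares : ¬ ∀ x y : ℚ_[p], ∃ z : ℚ_[p], x ^ 2 + y ^ 2 = z ^ 2 := by
  intro h
  have h1 : ∀ n : ℕ, ∃ z : ℚ_[p], (n : ℚ_[p]) = z ^ 2 := by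
    intro n
    induction n with
    | zero => exact ⟨0, by simp⟩
    | succ n ih =>
      obtain ⟨z, hz⟩ := ih
      obtain ⟨w, hw⟩ := h z 1
      refine ⟨w, ?_⟩
      rw [← hw, Nat.cast_succ, hz, one_pow]
  obtain ⟨z, hz⟩ := h1 p
  have h2 := congrArg Padic.valuation hz
  rw [Padic.valuation_pow, Padic.valuation_p] at h2
  omega

end Pool.Agent.H86.FM.Cone
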