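import Pool.Agent.H86.FMLib.N817.PL.Log

/-!
# The p-adic logarithm
-/

set_option autoImplicit false
set_option linter.unusedSectionVars false

namespace Pool.Agent.H86.FM.Lg

open Filter Topology
open Pool.Agent.N817.PL

variable {p : ℕ} [hp : Fact p.Prime] {R : Type*} [NormedRing R] [IsUltrametricDist R]
  [NormedAlgebra ℚ_[p] R]

/-- the logarithm of `1 + x` -/
noncomputable def lg (p : ℕ) [Fact p.Prime] {R : Type*} [NormedRing R] [NormedAlgebra ℚ_[p] R]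
    (x : R) : R := limUnder atTop (fun k => Log.f p k x)

theorem tendsto_lg [CompleteSpace R] {x : R} (hx : ‖x‖ ≤ 1 / 4) :
    Tendsto (fun k => Log.f p k x) atTop (𝓝 (lg p x)) := by
  obtain ⟨ℓ, hℓ⟩ := Log.exists_log (p := p) hx
  exact tendsto_nhds_limUnder ⟨ℓ, hℓ⟩

theorem lg_eq {x ℓ : R} (h : Tendsto (fun k => Log.f p k x) atTop (𝓝 ℓ)) : lg p x = ℓ :=
  h.limUnder_eq

theorem f_sub (k : ℕ) (x y : R) (hx : ‖x‖ ≤ 1 / 4) (hy : ‖y‖ ≤ 1 / 4) :
    ‖Log.f p k x - Log.f p k y‖ ≤ ‖x - y‖ := by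
  have h1 := Log.phi_lip (p := p) le_rfl hx hy k
  have h2 : Log.f p k x - Log.f p k y = (x - y) - (Log.φ p k x - Log.φ p k y) := by
    unfold Log.φ
    abel
  rw [h2]
  refine (Log.norm_sub_max _ _).trans (max_le le_rfl (h1.trans ?_))
  have := norm_nonneg (x - y)
  linarith

theorem lg_lip [CompleteSpace R] {x y : R} (hx : ‖x‖ ≤ 1 / 4) (hy : ‖y‖ ≤ 1 / 4) :
    ‖lg p x - lg p y‖ ≤ ‖x - y‖ := by
  have h1 := ((tendsto_lg (p := p) hx).sub (tendsto_lg (p := p) hy)).norm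
  exact le_of_tendsto h1 (Eventually.of_forall fun k => f_sub k x y hx hy)

theorem lg_quad [CompleteSpace R] {x : R} (hx : ‖x‖ ≤ 1 / 4) :
    ‖lg p x - x‖ ≤ 2 * ‖x‖ ^ 2 := by
  have h1 := ((tendsto_lg (p := p) hx).sub_const x).norm
  refine le_of_tendsto h1 (Eventually.of_forall fun k => ?_)
  have h2 := Log.phi_norm (p := p) hx k
  unfold Log.φ at h2
  rwa [norm_sub_rev]

/-- the logarithm is continuous -/
theorem continuous_lg [CompleteSpace R] {T : Type*} [TopologicalSpace T] {φ : T → R}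
    (hφ : Continuous φ) (h : ∀ t, ‖φ t‖ ≤ 1 / 4) : Continuous fun t => lg p (φ t) := by
  rw [continuous_iff_continuousAt]
  intro t
  have h1 : Tendsto (fun s => ‖φ s - φ t‖) (𝓝 t) (𝓝 0) := by
    have := (hφ.tendsto t)
    exact tendsto_iff_norm_sub_tendsto_zero.1 this
  refine tendsto_iff_norm_sub_tendsto_zero.2 ?_
  exact squeeze_zero (fun s => norm_nonneg _) (fun s => lg_lip (h s) (h t)) h1

theorem f_conj {P Q : R} (hPQ : P * Q = 1) (hQP : Q * P = 1) (k : ℕ) (x : R) :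
    Log.f p k (P * x * Q) = P * Log.f p k x * Q := by
  have h1 : ∀ n : ℕ, (1 + P * x * Q) ^ n = P * (1 + x) ^ n * Q := by
    intro n
    induction n with
    | zero => rw [pow_zero, pow_zero, mul_one, hPQ]
    | succ n ih =>
      rw [pow_succ, ih, pow_succ]
      have h2 : (1 : R) + P * x * Q = P * (1 + x) * Q := by
        rw [mul_add, add_mul, mul_one, hPQ]
      rw [h2]
      calc P * (1 + x) ^ n * Q * (P * (1 + x) * Q) = P * (1 + x) ^ n * (Q * P) * (1 + x) * Q := by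
            simp only [mul_assoc]
        _ = _ := by rw [hQP, mul_one]; simp only [mul_assoc]
  unfold Log.f
  rw [h1, mul_smul_comm, smul_mul_assoc, mul_sub, sub_mul, mul_one, hPQ]

theorem lg_conj [CompleteSpace R] {P Q : R} (hPQ : P * Q = 1) (hQP : Q * P = 1) {x : R}
    (hx : ‖x‖ ≤ 1 / 4) : lg p (P * x * Q) = P * lg p x * Q := by
  apply lg_eq
  simp_rw [f_conj hPQ hQP]
  exact ((tendsto_lg hx).const_mul P).mul_const Q

/-- powers -/
theorem tendsto_pow [CompleteSpace R] {x : R} (hx : ‖x‖ ≤ 1 / 4) (m : ℕ) :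
    Tendsto (fun k : ℕ => ((p : ℚ_[p])⁻¹) ^ k • ((1 + x) ^ (m * p ^ k) - 1)) atTop
      (𝓝 ((m : ℚ_[p]) • lg p x)) := by
  have hp0 : (0 : ℝ) < p := by exact_mod_cast hp.out.pos
  have hp1 : (1 : ℝ) < p := by exact_mod_cast hp.out.one_lt
  have h3 : (p : ℚ_[p]) ≠ 0 := by exact_mod_cast hp.out.ne_zero
  set g : ℕ → R := fun k => ((p : ℚ_[p])⁻¹) ^ k • ((1 + x) ^ (m * p ^ k) - 1) with hg
  have h6 : Tendsto (fun k => (m : ℚ_[p]) • Log.f p k x) atTop (𝓝 ((m : ℚ_[p]) • lg p x)) :=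
    (tendsto_lg hx).const_smul _
  have h7 : Tendsto (fun k => g k - (m : ℚ_[p]) • Log.f p k x) atTop (𝓝 0) := by
    rw [tendsto_zero_iff_norm_tendsto_zero]
    refine squeeze_zero (fun k => norm_nonneg _) (g := fun k => ((p : ℝ)⁻¹) ^ k) (fun k => ?_)
      (tendsto_pow_atTop_nhds_zero_of_lt_one (by positivity) (inv_lt_one_of_one_lt₀ hp1))
    have h8 : (1 + x) ^ p ^ k = 1 + (p : ℚ_[p]) ^ k • Log.f p k x := by
      unfold Log.f
      rw [smul_smul, ← mul_pow, mul_inv_cancel₀ h3, one_pow, one_smul, add_sub_cancel]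
    have h9 : ‖(p : ℚ_[p]) ^ k • Log.f p k x‖ ≤ ((p : ℝ)⁻¹) ^ k := by
      rw [norm_smul, norm_pow, Padic.norm_p]
      have := (Log.f_norm (p := p) hx k).trans hx
      have h10 : (0 : ℝ) ≤ ((p : ℝ)⁻¹) ^ k := by positivity
      nlinarith
    have h10 : g k - (m : ℚ_[p]) • Log.f p k x = ((p : ℚ_[p])⁻¹) ^ k •
        ((1 + (p : ℚ_[p]) ^ k • Log.f p k x) ^ m - 1 - (m : ℚ_[p]) •
          ((p : ℚ_[p]) ^ k • Log.f p k x)) := by
      rw [hg]
      simp only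
      rw [mul_comm m, pow_mul, h8, smul_sub (((p : ℚ_[p])⁻¹) ^ k) _ ((m : ℚ_[p]) • _), smul_comm _
        (m : ℚ_[p]), smul_smul (((p : ℚ_[p])⁻¹) ^ k), ← mul_pow, inv_mul_cancel₀ h3, one_pow,
        one_smul]
    rw [h10, norm_smul, norm_pow, norm_inv, Padic.norm_p, inv_inv]
    have h11 : ((p : ℝ)⁻¹) ^ k ≤ 1 := pow_le_one₀ (by positivity) (inv_le_one_of_one_le₀ hp1.le)
    have h12 := Log.pow_quad (p := p) (h9.trans h11) m
    calc (p : ℝ) ^ k * _ ≤ (p : ℝ) ^ k * ((((p : ℝ)⁻¹) ^ k) ^ 2) := by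
          refine mul_le_mul_of_nonneg_left (h12.trans ?_) (by positivity)
          exact pow_le_pow_left₀ (norm_nonneg _) h9 2
      _ = ((p : ℝ) ^ k * ((p : ℝ)⁻¹) ^ k) * ((p : ℝ)⁻¹) ^ k := by ring
      _ = ((p : ℝ)⁻¹) ^ k := by
          rw [← mul_pow, mul_inv_cancel₀ hp0.ne', one_pow, one_mul]
  have h8 := h7.add h6
  rw [zero_add] at h8
  refine h8.congr fun k => ?_
  abel

theorem lg_pow [CompleteSpace R] {x : R} (hx : ‖x‖ ≤ 1 / 4) (m : ℕ) :
    lg p ((1 + x) ^ m - 1) = (m : ℚ_[p]) • lg p x := by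
  apply lg_eq
  refine (tendsto_pow hx m).congr fun k => ?_
  unfold Log.f
  rw [add_sub_cancel, ← pow_mul]

/-- the powers tend to one -/
theorem tendsto_one [CompleteSpace R] {x : R} (hx : ‖x‖ ≤ 1 / 4) (m : ℕ) :
    Tendsto (fun k : ℕ => (1 + x) ^ (m * p ^ k)) atTop (𝓝 1) := by
  have h3 : (p : ℚ_[p]) ≠ 0 := by exact_mod_cast hp.out.ne_zero
  have hp1 : ‖(p : ℚ_[p])‖ < 1 := by
    rw [Padic.norm_p]
    exact inv_lt_one_of_one_lt₀ (by exact_mod_cast hp.out.one_lt)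
  have h1 := (tendsto_pow_atTop_nhds_zero_of_norm_lt_one hp1).smul (tendsto_pow (p := p) hx m)
  rw [zero_smul] at h1
  have h2 := h1.add_const 1
  rw [zero_add] at h2
  refine h2.congr fun k => ?_
  rw [smul_smul, ← mul_pow, mul_inv_cancel₀ h3, one_pow, one_smul, sub_add_cancel]

/-- limits of difference quotients -/
theorem tendsto_quot [CompleteSpace R] {x : ℕ → R} (hx : ∀ k, ‖x k‖ ≤ 1 / 4) {X : R}
    (h : Tendsto (fun k => ((p : ℚ_[p])⁻¹) ^ k • x k) atTop (𝓝 X)) :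
    Tendsto (fun k => ((p : ℚ_[p])⁻¹) ^ k • lg p (x k)) atTop (𝓝 X) := by
  have h3 : (p : ℚ_[p]) ≠ 0 := by exact_mod_cast hp.out.ne_zero
  have hp1 : ‖(p : ℚ_[p])‖ < 1 := by
    rw [Padic.norm_p]
    exact inv_lt_one_of_one_lt₀ (by exact_mod_cast hp.out.one_lt)
  have h0 : Tendsto x atTop (𝓝 0) := by
    have h1 := (tendsto_pow_atTop_nhds_zero_of_norm_lt_one hp1).smul h
    rw [zero_smul] at h1
    refine h1.congr fun k => ?_
    rw [smul_smul, ← mul_pow, mul_inv_cancel₀ h3, one_pow, one_smul]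
  have h1 : Tendsto (fun k => ((p : ℚ_[p])⁻¹) ^ k • (lg p (x k) - x k)) atTop (𝓝 0) := by
    rw [tendsto_zero_iff_norm_tendsto_zero]
    have h2 := (h.norm.mul h0.norm).const_mul 2
    rw [norm_zero, mul_zero, mul_zero] at h2
    refine squeeze_zero (fun k => norm_nonneg _) (fun k => ?_) h2
    rw [norm_smul, norm_smul]
    have h4 := lg_quad (p := p) (hx k)
    have h5 : (0 : ℝ) ≤ ‖((p : ℚ_[p])⁻¹) ^ k‖ := norm_nonneg _
    calc ‖((p : ℚ_[p])⁻¹) ^ k‖ * ‖lg p (x k) - x k‖ ≤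
          ‖((p : ℚ_[p])⁻¹) ^ k‖ * (2 * ‖x k‖ ^ 2) := mul_le_mul_of_nonneg_left h4 h5
      _ = _ := by ring
  have h2 := h1.add h
  rw [zero_add] at h2
  refine h2.congr fun k => ?_
  rw [← smul_add, sub_add_cancel]

end Pool.Agent.H86.FM.Lg
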