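import Pool.Agent.H86.FM.Alg
import Pool.Agent.H86.FM.Cone
import Pool.Agent.H86.FM.Lg
import Pool.Agent.H86.FMLib.N817.PL.Nrm

/-!
# Matrices with multiplicatively dependent ratios of eigenvalues
-/

set_option autoImplicit false
set_option linter.unusedSectionVars false

namespace Pool.Agent.H86.FM.Dep

open Filter Topology Matrix Polynomial
open Pool.Agent.H86.FM.Alg Pool.Agent.H86.FM.Cone Pool.Agent.H86.FM.Lg
open Pool.Agent.N817.PL.Nrm

section alg

variable {F : Type*} [CommRing F]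

theorem trace_pow {A : M2 F} {a₁ a₂ : F} (ht : A.trace = a₁ + a₂) (hd : A.det = a₁ * a₂) (n : ℕ) :
    (A ^ n).trace = a₁ ^ n + a₂ ^ n ∧ (A ^ (n + 1)).trace = a₁ ^ (n + 1) + a₂ ^ (n + 1) := by
  have hCH : A * A = A.trace • A - A.det • 1 := by
    apply ext2 <;>
      simp only [Matrix.trace_fin_two, Matrix.det_fin_two, Matrix.smul_apply, smul_eq_mul,
        Matrix.sub_apply, Matrix.mul_apply, Fin.sum_univ_two, Matrix.one_apply_eq, ne_eq,
        zero_ne_one, one_ne_zero, not_false_eq_true, Matrix.one_apply_ne] <;> ring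
  induction n with
  | zero =>
    refine ⟨?_, ?_⟩
    · rw [pow_zero, Matrix.trace_one]
      simp
      norm_num
    · rw [zero_add, pow_one, pow_one, pow_one, ht]
  | succ n ih =>
    refine ⟨ih.2, ?_⟩
    have h1 : A ^ (n + 1 + 1) = A.trace • A ^ (n + 1) - A.det • A ^ n := by
      rw [pow_succ, pow_succ, mul_assoc, hCH, mul_sub, mul_smul_comm, mul_smul_comm, mul_one]
    rw [h1, Matrix.trace_sub, Matrix.trace_smul, Matrix.trace_smul, ih.1, ih.2, ht, hd]
    simp only [smul_eq_mul]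
    ring

theorem D_pow {A : M2 F} {a₁ a₂ : F} (ht : A.trace = a₁ + a₂) (hd : A.det = a₁ * a₂) (n : ℕ) :
    D (A ^ n) = (a₁ ^ n - a₂ ^ n) ^ 2 := by
  unfold D
  rw [(trace_pow ht hd n).1, Matrix.det_pow, hd, mul_pow]
  ring

theorem D_mul_det {A C : M2 F} {a₁ a₂ b₁ b₂ : F} (ht : A.trace = a₁ + a₂) (hd : A.det = a₁ * a₂)
    (ht' : C.trace = b₁ + b₂) (hd' : C.det = b₁ * b₂) {k l : ℕ} (h : a₁ ^ k * b₂ ^ l = b₁ ^ l * a₂ ^ k)
    (j : ℕ) : D (A ^ (k * j)) * (C ^ (l * j)).det = D (C ^ (l * j)) * (A ^ (k * j)).det := by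
  rw [D_pow ht hd, D_pow ht' hd', Matrix.det_pow, Matrix.det_pow, hd, hd', mul_pow, mul_pow]
  have h1 : a₁ ^ (k * j) * b₂ ^ (l * j) = b₁ ^ (l * j) * a₂ ^ (k * j) := by
    rw [pow_mul, pow_mul, pow_mul, pow_mul, ← mul_pow, ← mul_pow, h]
  linear_combination (a₁ ^ (k * j) * b₁ ^ (l * j) - a₂ ^ (k * j) * b₂ ^ (l * j)) * h1

theorem map_D {S : Type*} [CommRing S] (f : F →+* S) (A : M2 F) : D (A.map f) = f (D A) := by
  simp only [D_eq, Matrix.map_apply, map_add, map_mul, map_pow, map_sub, map_ofNat]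

end alg

section field

variable {F Ω : Type*} [Field F] [Field Ω] [Algebra F Ω]

theorem of_charpoly {A : M2 F} {a₁ a₂ : Ω}
    (h : A.charpoly.map (algebraMap F Ω) = (X - C a₁) * (X - C a₂)) :
    algebraMap F Ω A.trace = a₁ + a₂ ∧ algebraMap F Ω A.det = a₁ * a₂ := by
  rw [Matrix.charpoly_fin_two] at h
  simp only [Polynomial.map_add, Polynomial.map_sub, Polynomial.map_mul, Polynomial.map_pow,
    Polynomial.map_X, Polynomial.map_C] at h
  constructor
  · have := congrArg (fun q => q.coeff 1) h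
    have e1 : ((X : Polynomial Ω) - C a₁) * (X - C a₂) = X ^ 2 - C (a₁ + a₂) * X + C (a₁ * a₂) := by
      rw [C_add, C_mul]
      ring
    rw [e1] at this
    simp [Polynomial.coeff_X, Polynomial.coeff_C, Polynomial.coeff_X_pow] at this
    linear_combination -this
  · have := congrArg (fun q => q.eval 0) h
    simpa using this

theorem key {A C : M2 F} {a₁ a₂ b₁ b₂ : Ω}
    (hA : A.charpoly.map (algebraMap F Ω) = (X - Polynomial.C a₁) * (X - Polynomial.C a₂))
    (hC : C.charpoly.map (algebraMap F Ω) = (X - Polynomial.C b₁) * (X - Polynomial.C b₂)) {k l : ℕ}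
    (h : a₁ ^ k * b₂ ^ l = b₁ ^ l * a₂ ^ k) (j : ℕ) :
    D (A ^ (k * j)) * (C ^ (l * j)).det = D (C ^ (l * j)) * (A ^ (k * j)).det := by
  obtain ⟨h1, h2⟩ := of_charpoly hA
  obtain ⟨h3, h4⟩ := of_charpoly hC
  apply (algebraMap F Ω).injective
  have e : ∀ M : M2 F, algebraMap F Ω M.det = (M.map (algebraMap F Ω)).det := by
    intro M
    rw [Matrix.det_fin_two, Matrix.det_fin_two]
    simp
  have t : ∀ M : M2 F, algebraMap F Ω M.trace = (M.map (algebraMap F Ω)).trace := by
    intro M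
    rw [Matrix.trace_fin_two, Matrix.trace_fin_two]
    simp
  have pw : ∀ (M : M2 F) (n : ℕ), (M ^ n).map (algebraMap F Ω) = (M.map (algebraMap F Ω)) ^ n := by
    intro M n
    exact map_pow (algebraMap F Ω).mapMatrix M n
  rw [t] at h1 h3
  rw [e] at h2 h4
  rw [map_mul, map_mul, ← map_D, ← map_D, e, e, pw, pw]
  exact D_mul_det h1 h2 h3 h4 h j

end field

section lim

variable {p : ℕ} [hp : Fact p.Prime] {F : Type*} [NormedField F] [NormedAlgebra ℚ_[p] F]
  [IsUltrametricDist F] [CompleteSpace F]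

attribute [local instance] nring nalg

theorem D_qsmul (c : ℚ_[p]) (X : M2 F) : D (c • X) = c ^ 2 • D X := by
  have h1 : c • X = (algebraMap ℚ_[p] F c) • X := by rw [algebraMap_smul]
  rw [h1, D_smul, ← map_pow, ← Algebra.smul_def]

theorem continuous_D : Continuous (D : M2 F → F) := by
  have h : (D : M2 F → F) = fun X => (X 0 0 - X 1 1) ^ 2 + 4 * (X 0 1 * X 1 0) := funext D_eq
  rw [h]
  have e : ∀ i j, Continuous fun X : M2 F => X i j := fun i j => by
    exact (continuous_apply j).comp (continuous_apply i)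
  exact (((e 0 0).sub (e 1 1)).pow 2).add (((e 0 1).mul (e 1 0)).const_mul 4)

theorem continuous_det : Continuous (Matrix.det : M2 F → F) := by
  have h : (Matrix.det : M2 F → F) = fun X => X 0 0 * X 1 1 - X 0 1 * X 1 0 := funext Matrix.det_fin_two
  rw [h]
  have e : ∀ i j, Continuous fun X : M2 F => X i j := fun i j => by
    exact (continuous_apply j).comp (continuous_apply i)
  exact ((e 0 0).mul (e 1 1)).sub ((e 0 1).mul (e 1 0))

theorem D_sub_one (X : M2 F) : D (X - 1) = D X := by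
  have := D_add_scalar X (-1)
  rwa [neg_one_smul, ← sub_eq_add_neg] at this

/-- multiplicatively dependent ratios give discriminants of the logarithms whose ratio is a square
in `ℚ_p` -/
theorem rel_of_key {A C : M2 F} {N : ℕ} (hA : ‖A ^ N - 1‖ ≤ 1 / 4) (hC : ‖C ^ N - 1‖ ≤ 1 / 4) {k l : ℕ}
    (hkl : k ≠ 0 ∨ l ≠ 0)
    (h : ∀ j, D (A ^ (k * j)) * (C ^ (l * j)).det = D (C ^ (l * j)) * (A ^ (k * j)).det) :
    Rel p (D (lg p (A ^ N - 1))) (D (lg p (C ^ N - 1))) := by
  have hcomp : @CompleteSpace (M2 F) PseudoMetricSpace.toUniformSpace := complete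
  have hult : IsUltrametricDist (M2 F) := ultraMat
  have hx := tendsto_pow (p := p) hA k
  have hy := tendsto_pow (p := p) hC l
  have hx1 := tendsto_one (p := p) hA k
  have hy1 := tendsto_one (p := p) hC l
  rw [add_sub_cancel] at hx hy hx1 hy1
  have e1 := (continuous_D.tendsto _).comp hx
  have e2 := (continuous_D.tendsto _).comp hy
  have e3 := (continuous_det.tendsto _).comp hx1
  have e4 := (continuous_det.tendsto _).comp hy1
  have e5 := e1.mul e4
  have e6 := e2.mul e3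
  have e7 : (fun x => (D ∘ fun i : ℕ => ((p : ℚ_[p])⁻¹) ^ i • ((A ^ N) ^ (k * p ^ i) - 1)) x *
      (Matrix.det ∘ fun i : ℕ => (C ^ N) ^ (l * p ^ i)) x) =
      (fun x => (D ∘ fun i : ℕ => ((p : ℚ_[p])⁻¹) ^ i • ((C ^ N) ^ (l * p ^ i) - 1)) x *
      (Matrix.det ∘ fun i : ℕ => (A ^ N) ^ (k * p ^ i)) x) := by
    ext i
    simp only [Function.comp, D_qsmul, D_sub_one]
    have h1 := h (N * p ^ i)
    have h2 : ∀ (M : M2 F) (m : ℕ), (M ^ N) ^ (m * p ^ i) = M ^ (m * (N * p ^ i)) := by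
      intro M m
      rw [← pow_mul]
      congr 1
      ring
    rw [h2, h2, smul_mul_assoc, smul_mul_assoc, h1]
  rw [e7] at e5
  have e8 := tendsto_nhds_unique e5 e6
  rw [Matrix.det_one, mul_one, mul_one, D_qsmul, D_qsmul] at e8
  refine ⟨k, l, ?_, e8⟩
  rcases hkl with h | h
  · left
    exact_mod_cast h
  · right
    exact_mod_cast h

end lim

end Pool.Agent.H86.FM.Dep
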