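import Pool.Agent.H86.FM.Aut

/-!
# The second projection
-/

set_option autoImplicit false
set_option linter.unusedSectionVars false

namespace Pool.Agent.H86.FM.Gen

open Filter Topology Matrix
open Pool.Agent.H86.FM.Alg Pool.Agent.H86.FM.Cone Pool.Agent.H86.FM.Str

section alg

variable {F : Type*} [Field F] [CharZero F]

theorem br_anti (X Y : M2 F) : br X Y = -br Y X := by
  unfold br
  abel

/-- an ideal of the Lie algebra of all matrices which contains the scalars and another matrix is
everything -/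
theorem ideal_top (N : Submodule F (M2 F)) (h1 : (1 : M2 F) ∈ N) (hid : ∀ Z, ∀ X ∈ N, br Z X ∈ N)
    {X : M2 F} (hX : X ∈ N) (hns : ∀ c : F, X ≠ c • 1) : N = ⊤ := by
  -- it is enough to have one of the two elementary matrices
  have hh : Matrix.single 0 1 (1 : F) ∈ N → N = ⊤ := by
    intro h01
    have e1 : br (Matrix.single 1 0 (1 : F)) (Matrix.single 0 1 (1 : F)) =
        Matrix.single 1 1 (1 : F) - Matrix.single 0 0 (1 : F) := by
      apply ext2 <;> simp [br_00, br_01, br_10, br_11]
    have h2 := hid (Matrix.single 1 0 (1 : F)) _ h01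
    have e2 : br (Matrix.single 1 0 (1 : F)) (br (Matrix.single 1 0 (1 : F)) (Matrix.single 0 1 (1 : F))) =
        (-2 : F) • Matrix.single 1 0 (1 : F) := by
      rw [e1]
      apply ext2 <;> simp [br_00, br_01, br_10, br_11]
      norm_num
    have h3 := hid (Matrix.single 1 0 (1 : F)) _ h2
    rw [e2] at h3
    have h10 : Matrix.single 1 0 (1 : F) ∈ N := by
      have := N.smul_mem (-2 : F)⁻¹ h3
      rwa [smul_smul, inv_mul_cancel₀ (by norm_num), one_smul] at this
    rw [e1] at h2
    rw [eq_top_iff]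
    intro A _
    have e3 : A = ((A 0 0 + A 1 1) / 2) • (1 : M2 F) + ((A 1 1 - A 0 0) / 2) •
        (Matrix.single 1 1 (1 : F) - Matrix.single 0 0 (1 : F)) + A 0 1 • Matrix.single 0 1 (1 : F) +
        A 1 0 • Matrix.single 1 0 (1 : F) := by
      apply ext2 <;> simp <;> ring
    rw [e3]
    exact N.add_mem (N.add_mem (N.add_mem (N.smul_mem _ h1) (N.smul_mem _ h2)) (N.smul_mem _ h01))
      (N.smul_mem _ h10)
  by_cases h10 : X 1 0 = 0
  · by_cases h01 : X 0 1 = 0
    · -- diagonal
      have hd : X 0 0 ≠ X 1 1 := fun h => hns _ (scalar_of_entries h01 h10 h)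
      have h2 := hid (Matrix.single 0 1 (1 : F)) _ hX
      have e : br (Matrix.single 0 1 (1 : F)) X = (X 1 1 - X 0 0) • Matrix.single 0 1 (1 : F) := by
        apply ext2 <;> simp [br_00, br_01, br_10, br_11, h10]
      rw [e] at h2
      apply hh
      have := N.smul_mem (X 1 1 - X 0 0)⁻¹ h2
      rwa [smul_smul, inv_mul_cancel₀ (sub_ne_zero.2 (Ne.symm hd)), one_smul] at this
    · -- the other elementary matrix
      have h2 := hid (Matrix.single 1 0 (1 : F)) _ (hid (Matrix.single 1 0 (1 : F)) _ hX)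
      have e : br (Matrix.single 1 0 (1 : F)) (br (Matrix.single 1 0 (1 : F)) X) =
          (-2 * X 0 1) • Matrix.single 1 0 (1 : F) := by
        apply ext2 <;> simp [br_00, br_01, br_10, br_11]
        ring
      rw [e] at h2
      have h3 : Matrix.single 1 0 (1 : F) ∈ N := by
        have := N.smul_mem (-2 * X 0 1)⁻¹ h2
        rwa [smul_smul, inv_mul_cancel₀ (mul_ne_zero (by norm_num) h01), one_smul] at this
      apply hh
      have h4 := hid (Matrix.single 0 1 (1 : F)) _ (hid (Matrix.single 0 1 (1 : F)) _ h3)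
      have e2 : br (Matrix.single 0 1 (1 : F)) (br (Matrix.single 0 1 (1 : F))
          (Matrix.single 1 0 (1 : F))) = (-2 : F) • Matrix.single 0 1 (1 : F) := by
        apply ext2 <;> simp [br_00, br_01, br_10, br_11]
        norm_num
      rw [e2] at h4
      have := N.smul_mem (-2 : F)⁻¹ h4
      rwa [smul_smul, inv_mul_cancel₀ (by norm_num), one_smul] at this
  · have h2 := hid (Matrix.single 0 1 (1 : F)) _ (hid (Matrix.single 0 1 (1 : F)) _ hX)
    have e : br (Matrix.single 0 1 (1 : F)) (br (Matrix.single 0 1 (1 : F)) X) =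
        (-2 * X 1 0) • Matrix.single 0 1 (1 : F) := by
      apply ext2 <;> simp [br_00, br_01, br_10, br_11]
      ring
    rw [e] at h2
    apply hh
    have := N.smul_mem (-2 * X 1 0)⁻¹ h2
    rwa [smul_smul, inv_mul_cancel₀ (mul_ne_zero (by norm_num) h10), one_smul] at this

/-- the space generated by `S` and the scalars -/
def Nn (S : Set (M2 F)) : Submodule F (M2 F) := Submodule.span F S ⊔ Submodule.span F {(1 : M2 F)}

/-- ideals -/
theorem sp_ideal {S T : Set (M2 F)} (hT : Sp T) (h : ∀ Z ∈ T, ∀ X ∈ S, br Z X ∈ S) {X : M2 F}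
    (hX : X ∈ S) (hns : ∀ c : F, X ≠ c • 1) : Sp S := by
  refine ideal_top (Nn S) (Submodule.mem_sup_right (Submodule.mem_span_singleton_self _)) ?_
    (Submodule.mem_sup_left (Submodule.subset_span hX)) hns
  intro Z
  refine hT.induct (P := fun Z => ∀ X ∈ Nn S, br Z X ∈ Nn S) ?_ ?_ ?_ ?_ Z
  · intro Y Y' hY hY' X hX
    rw [br_add_left]
    exact (Nn S).add_mem (hY X hX) (hY' X hX)
  · intro c Y hY X hX
    rw [br_smul_left]
    exact (Nn S).smul_mem c (hY X hX)
  · intro X _
    have := br_scalar_left 1 X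
    rw [one_smul] at this
    rw [this]
    exact (Nn S).zero_mem
  · intro Z hZ X hX
    obtain ⟨Y, hY, W, hW, rfl⟩ := Submodule.mem_sup.1 hX
    obtain ⟨c, rfl⟩ := Submodule.mem_span_singleton.1 hW
    rw [br_add_right, br_scalar_right, add_zero]
    refine Submodule.mem_sup_left ?_
    clear hX
    induction hY using Submodule.span_induction with
    | mem Y hY => exact Submodule.subset_span (h Z hZ Y hY)
    | zero =>
      have : br Z 0 = 0 := by simp [br]
      rw [this]
      exact Submodule.zero_mem _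
    | add Y Y' _ _ hY hY' =>
      rw [br_add_right]
      exact Submodule.add_mem _ hY hY'
    | smul c Y _ hY =>
      rw [br_smul_right]
      exact Submodule.smul_mem _ c hY

/-- the centraliser of a non-scalar matrix is commutative -/
theorem comm_of_centralizer {Y A C : M2 F} (hY : ∀ c : F, Y ≠ c • 1) (hA : br Y A = 0)
    (hC : br Y C = 0) : br A C = 0 := by
  have a00 := congrFun (congrFun hA 0) 0
  have a01 := congrFun (congrFun hA 0) 1
  have a10 := congrFun (congrFun hA 1) 0
  have c00 := congrFun (congrFun hC 0) 0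
  have c01 := congrFun (congrFun hC 0) 1
  have c10 := congrFun (congrFun hC 1) 0
  rw [br_00] at a00 c00
  rw [br_01] at a01 c01
  rw [br_10] at a10 c10
  simp only [Matrix.zero_apply] at a00 a01 a10 c00 c01 c10
  by_cases h01 : Y 0 1 = 0
  · by_cases h10 : Y 1 0 = 0
    · have hd : Y 0 0 - Y 1 1 ≠ 0 := fun h => hY _ (scalar_of_entries h01 h10 (sub_eq_zero.1 h))
      rw [h01, zero_mul, sub_zero] at a01 c01
      rw [h10, zero_mul, zero_sub, neg_eq_zero] at a10 c10
      have e1 : A 0 1 = 0 := (mul_eq_zero.1 a01).resolve_left hd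
      have e2 : C 0 1 = 0 := (mul_eq_zero.1 c01).resolve_left hd
      have e3 : A 1 0 = 0 := (mul_eq_zero.1 a10).resolve_left hd
      have e4 : C 1 0 = 0 := (mul_eq_zero.1 c10).resolve_left hd
      apply ext2 <;> simp [br_00, br_01, br_10, br_11, e1, e2, e3, e4]
    · apply ext2
      · rw [br_00]
        apply mul_left_cancel₀ h10
        simp only [Matrix.zero_apply]
        linear_combination A 1 0 * c00 - C 1 0 * a00
      · rw [br_01]
        apply mul_left_cancel₀ h10
        simp only [Matrix.zero_apply]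
        linear_combination A 1 0 * c01 + C 0 1 * a10 + (C 0 0 - C 1 1) * a00
      · rw [br_10]
        apply mul_left_cancel₀ h10
        simp only [Matrix.zero_apply]
        linear_combination A 1 0 * c10 - C 1 0 * a10
      · rw [br_11]
        apply mul_left_cancel₀ h10
        simp only [Matrix.zero_apply]
        linear_combination C 1 0 * a00 - A 1 0 * c00
  · apply ext2
    · rw [br_00]
      apply mul_left_cancel₀ h01
      simp only [Matrix.zero_apply]
      linear_combination A 0 1 * c00 - C 0 1 * a00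
    · rw [br_01]
      apply mul_left_cancel₀ h01
      simp only [Matrix.zero_apply]
      linear_combination A 0 1 * c01 - C 0 1 * a01
    · rw [br_10]
      apply mul_left_cancel₀ h01
      simp only [Matrix.zero_apply]
      linear_combination A 0 1 * c10 + C 1 0 * a01 + (C 0 0 - C 1 1) * a00
    · rw [br_11]
      apply mul_left_cancel₀ h01
      simp only [Matrix.zero_apply]
      linear_combination C 0 1 * a00 - A 0 1 * c00

/-- the commutators of a proper Lie algebra commute -/
theorem br_br_of_functional {Y : M2 F} (hY : ∀ c : F, Y ≠ c • 1) (hYt : Y.trace = 0) {A C A' C' : M2 F}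
    (hA : (Y * A).trace = 0) (hC : (Y * C).trace = 0) (hA' : (Y * A').trace = 0)
    (hC' : (Y * C').trace = 0) : br (br A C) (br A' C') = 0 := by
  have key : ∀ A C : M2 F, (Y * A).trace = 0 → (Y * C).trace = 0 → br Y (br A C) = 0 := by
    intro A C hA hC
    simp only [Matrix.trace_fin_two, Matrix.mul_apply, Fin.sum_univ_two] at hA hC hYt
    have hY' : Y 1 1 = - Y 0 0 := by linear_combination hYt
    rw [hY'] at hA hC
    apply ext2
    · rw [br_00, br_10, br_01]
      simp only [Matrix.zero_apply]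
      linear_combination (C 0 0 - C 1 1) * hA - (A 0 0 - A 1 1) * hC
    · rw [br_01, br_01, br_00, br_11, hY']
      simp only [Matrix.zero_apply]
      linear_combination (2 * C 0 1) * hA - (2 * A 0 1) * hC
    · rw [br_10, br_10, br_00, br_11, hY']
      simp only [Matrix.zero_apply]
      linear_combination (2 * C 1 0) * hA - (2 * A 1 0) * hC
    · rw [br_11, br_10, br_01]
      simp only [Matrix.zero_apply]
      linear_combination (-(C 0 0 - C 1 1)) * hA + (A 0 0 - A 1 1) * hC
  exact comm_of_centralizer hY (key A C hA hC) (key A' C' hA' hC')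

/-- a set which does not span modulo scalars is killed by a functional -/
theorem exists_functional {S : Set (M2 F)} (hS : ¬ Sp S) : ∃ Y : M2 F, (∀ c : F, Y ≠ c • 1) ∧
    Y.trace = 0 ∧ ∀ A ∈ S, (Y * A).trace = 0 := by
  obtain ⟨f, hf0, hf⟩ := Submodule.exists_le_ker_of_lt_top (Nn S) (lt_top_iff_ne_top.2 hS)
  let Y : M2 F := Matrix.of fun i j => f (Matrix.single j i 1)
  have hY : ∀ A : M2 F, f A = (Y * A).trace := by
    intro A
    have e1 : A = A 0 0 • Matrix.single 0 0 1 + A 0 1 • Matrix.single 0 1 1 +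
        A 1 0 • Matrix.single 1 0 1 + A 1 1 • Matrix.single 1 1 1 := by
      apply ext2 <;> simp
    conv_lhs => rw [e1]
    rw [map_add, map_add, map_add, map_smul, map_smul, map_smul, map_smul, Matrix.trace_fin_two,
      Matrix.mul_apply, Matrix.mul_apply, Fin.sum_univ_two, Fin.sum_univ_two]
    simp only [Y, Matrix.of_apply, smul_eq_mul]
    ring
  have hYt : Y.trace = 0 := by
    have := hf (Submodule.mem_sup_right (Submodule.mem_span_singleton_self _))
    rw [LinearMap.mem_ker, hY, mul_one] at this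
    exact this
  refine ⟨Y, ?_, hYt, ?_⟩
  · intro c hc
    have h0 := zero_of_scalar hc hYt
    apply hf0
    ext A
    rw [hY, h0]
    simp
  · intro A hA
    have := hf (Submodule.mem_sup_left (Submodule.subset_span hA))
    rwa [LinearMap.mem_ker, hY] at this

/-- in the algebra of all matrices the commutators do not commute -/
theorem exists_br_br {S : Set (M2 F)} (hS : Sp S)
    (h : ∀ A ∈ S, ∀ C ∈ S, ∀ A' ∈ S, ∀ C' ∈ S, br (br A C) (br A' C') = 0) : False := by
  have z1 : ∀ X : M2 F, br 0 X = 0 := fun X => by simp [br]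
  have z2 : ∀ X : M2 F, br X 0 = 0 := fun X => by simp [br]
  have o1 : ∀ X : M2 F, br 1 X = 0 := fun X => by simp [br]
  have o2 : ∀ X : M2 F, br X 1 = 0 := fun X => by simp [br]
  have h1 : ∀ A, ∀ C ∈ S, ∀ A' ∈ S, ∀ C' ∈ S, br (br A C) (br A' C') = 0 := by
    intro A C hC A' hA' C' hC'
    refine hS.induct (P := fun A => br (br A C) (br A' C') = 0) ?_ ?_ ?_
      (fun A hA => h A hA C hC A' hA' C' hC') A
    · intro X Y hX hY
      rw [br_add_left, br_add_left, hX, hY, add_zero]
    · intro c X hX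
      rw [br_smul_left, br_smul_left, hX, smul_zero]
    · rw [o1, z1]
  have h2 : ∀ A C, ∀ A' ∈ S, ∀ C' ∈ S, br (br A C) (br A' C') = 0 := by
    intro A C A' hA' C' hC'
    refine hS.induct (P := fun C => br (br A C) (br A' C') = 0) ?_ ?_ ?_
      (fun C hC => h1 A C hC A' hA' C' hC') C
    · intro X Y hX hY
      rw [br_add_right, br_add_left, hX, hY, add_zero]
    · intro c X hX
      rw [br_smul_right, br_smul_left, hX, smul_zero]
    · rw [o2, z1]
  have h3 : ∀ A C A', ∀ C' ∈ S, br (br A C) (br A' C') = 0 := by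
    intro A C A' C' hC'
    refine hS.induct (P := fun A' => br (br A C) (br A' C') = 0) ?_ ?_ ?_
      (fun A' hA' => h2 A C A' hA' C' hC') A'
    · intro X Y hX hY
      rw [br_add_left X Y, br_add_right, hX, hY, add_zero]
    · intro c X hX
      rw [br_smul_left c X, br_smul_right, hX, smul_zero]
    · rw [o1, z2]
  have h4 : ∀ A C A' C' : M2 F, br (br A C) (br A' C') = 0 := by
    intro A C A' C'
    refine hS.induct (P := fun C' => br (br A C) (br A' C') = 0) ?_ ?_ ?_
      (fun C' hC' => h3 A C A' C' hC') C'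
    · intro X Y hX hY
      rw [br_add_right A', br_add_right, hX, hY, add_zero]
    · intro c X hX
      rw [br_smul_right c A', br_smul_right, hX, smul_zero]
    · rw [o2, z2]
  have h5 := congrFun (congrFun (h4 (Matrix.single 0 1 (1 : F)) (Matrix.single 1 0 (1 : F))
    (Matrix.single 0 0 (1 : F)) (Matrix.single 0 1 (1 : F))) 0) 1
  rw [br_01, br_00, br_11, br_01, br_00, br_11] at h5
  simp at h5

end alg

section dat

variable {p : ℕ} [hp : Fact p.Prime] {F : Type*} [NormedField F] [NormedAlgebra ℚ_[p] F]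

/-- **the assumptions on the Lie algebra from the first projection and one element** -/
theorem dat_of (g : Submodule ℚ_[p] (M2 F × M2 F))
    (hbr : ∀ w ∈ g, ∀ z ∈ g, (br w.1 z.1, br w.2 z.2) ∈ g)
    (hrel : ∀ w ∈ g, Rel p (D w.1) (D w.2)) (hsp : Sp (P1 g)) (hne : ∃ Y ∈ P2 g, D Y ≠ 0) :
    Dat g := by
  have hchar : CharZero F := charZero_of_injective_algebraMap (algebraMap ℚ_[p] F).injective
  have hid1 : (∃ X ∈ Id1 g, ∀ d : F, X ≠ d • 1) → Sp (Id1 g) := by
    rintro ⟨X, hX, hns⟩
    refine sp_ideal hsp ?_ hX hns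
    rintro Z ⟨Z', hZ⟩ X ⟨c, hX⟩
    refine ⟨0, ?_⟩
    have := hbr _ hZ _ hX
    simp only [br_scalar_right] at this
    rwa [zero_smul]
  have hs1 : ∀ X ∈ Id1 g, ∃ d : F, X = d • 1 := by
    intro X hX
    by_contra hcon
    push Not at hcon
    exact no_big hbr hrel hne (hid1 ⟨X, hX, hcon⟩)
  have hsp2 : Sp (P2 g) := by
    by_contra hcon
    obtain ⟨Y, hY, hYt, hYS⟩ := exists_functional hcon
    refine exists_br_br hsp ?_
    rintro A ⟨A₂, hA⟩ C ⟨C₂, hC⟩ A' ⟨A'₂, hA'⟩ C' ⟨C'₂, hC'⟩
    have h1 := hbr _ (hbr _ hA _ hC) _ (hbr _ hA' _ hC')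
    simp only at h1
    rw [br_br_of_functional hY hYt (hYS _ ⟨_, hA⟩) (hYS _ ⟨_, hC⟩) (hYS _ ⟨_, hA'⟩)
      (hYS _ ⟨_, hC'⟩)] at h1
    obtain ⟨d, hd⟩ := hs1 _ ⟨0, by rwa [zero_smul]⟩
    exact zero_of_scalar hd (trace_br _ _)
  refine ⟨hbr, hrel, hsp, hsp2, hid1, ?_⟩
  rintro ⟨X, hX, hns⟩
  refine sp_ideal hsp2 ?_ hX hns
  rintro Z ⟨Z', hZ⟩ X ⟨c, hX⟩
  refine ⟨0, ?_⟩
  have := hbr _ hZ _ hX
  simp only [br_scalar_right] at this
  rwa [zero_smul]

end dat

end Pool.Agent.H86.FM.Gen
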