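import Pool.Agent.H86.FM.Alg

/-!
# Stable spaces of matrices
-/

set_option autoImplicit false
set_option linter.unusedSectionVars false

namespace Pool.Agent.H86.FM.Stab

open Matrix
open Pool.Agent.H86.FM.Alg

variable {F : Type*} [Field F] [CharZero F]

/-- no line of matrices of trace zero is stable -/
theorem no_line {S : Set (M2 F)} (hu : ∀ P ∈ S, P.det ≠ 0) (htr : ∀ P ∈ S, P.trace ≠ 0)
    (hsp : Submodule.span F S = ⊤) {Z : M2 F} (hZ : Z.trace = 0)
    (h : ∀ P ∈ S, ∃ c : F, P * Z = c • (Z * P)) : Z = 0 := by
  have hZ2 : Z * Z = (-Z.det) • 1 := by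
    rw [Matrix.trace_fin_two] at hZ
    have hZ' : Z 1 1 = - Z 0 0 := by linear_combination hZ
    apply ext2 <;>
      simp only [Matrix.smul_apply, smul_eq_mul, Matrix.mul_apply, Fin.sum_univ_two, hZ',
        Matrix.det_fin_two, Matrix.one_apply_eq, ne_eq, zero_ne_one, one_ne_zero, not_false_eq_true,
        Matrix.one_apply_ne] <;> ring
  by_cases hd : Z.det = 0
  · -- nilpotent
    rw [hd, neg_zero, zero_smul] at hZ2
    have h1 : ∀ A : M2 F, Z * A * Z = 0 := by
      intro A
      have hA : A ∈ Submodule.span F S := by rw [hsp]; trivial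
      induction hA using Submodule.span_induction with
      | mem P hP =>
        obtain ⟨c, hc⟩ := h P hP
        rw [mul_assoc, hc, mul_smul_comm, ← mul_assoc, hZ2, zero_mul, smul_zero]
      | zero => simp
      | add A A' _ _ hA hA' => rw [mul_add, add_mul, hA, hA', add_zero]
      | smul c A _ hA => rw [mul_smul_comm, smul_mul_assoc, hA, smul_zero]
    have h2 : ∀ i j, Z i j = 0 := by
      intro i j
      have := congrFun (congrFun (h1 (Matrix.single j i 1)) i) j
      rw [Matrix.mul_apply] at this
      simp only [Matrix.mul_apply, Matrix.single_apply, Fin.sum_univ_two] at this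
      fin_cases i <;> fin_cases j <;> simpa using this
    ext i j
    exact h2 i j
  · have h1 : ∀ P ∈ S, br Z P = 0 := by
      intro P hP
      obtain ⟨c, hc⟩ := h P hP
      have h2 := congrArg Matrix.det hc
      rw [Matrix.det_mul, Matrix.det_smul, Matrix.det_mul, Fintype.card_fin] at h2
      have h3 : c ^ 2 = 1 := by
        have h4 : P.det * Z.det ≠ 0 := mul_ne_zero (hu P hP) hd
        apply mul_right_cancel₀ h4
        linear_combination -h2
      rcases (sq_eq_sq_iff_eq_or_eq_neg.1 (h3.trans (one_pow 2).symm)) with h4 | h4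
      · rw [h4, one_smul] at hc
        unfold br
        rw [hc, sub_self]
      · exfalso
        rw [h4, neg_one_smul] at hc
        have h5 := congrArg (fun M => (Z * M).trace) hc
        rw [Matrix.trace_mul_comm, mul_assoc, hZ2, mul_neg, ← mul_assoc, hZ2, mul_smul_comm, mul_one,
          smul_mul_assoc, one_mul, Matrix.trace_neg, Matrix.trace_smul] at h5
        have h6 : (2 : F) * (Z.det * P.trace) = 0 := by
          simp only [smul_eq_mul] at h5
          linear_combination -h5
        have h7 : (2 : F) * (Z.det * P.trace) ≠ 0 :=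
          mul_ne_zero two_ne_zero (mul_ne_zero hd (htr P hP))
        exact h7 h6
    have h2 : ∀ A : M2 F, br Z A = 0 := by
      intro A
      have hA : A ∈ Submodule.span F S := by rw [hsp]; trivial
      induction hA using Submodule.span_induction with
      | mem P hP => exact h1 P hP
      | zero => simp [br]
      | add A A' _ _ hA hA' => rw [br_add_right, hA, hA', add_zero]
      | smul c A _ hA => rw [br_smul_right, hA, smul_zero]
    obtain ⟨c, hc⟩ := scalar_of_br h2
    exact zero_of_scalar hc hZ

/-- **a stable space of matrices which contains the scalars and another matrix is everything** -/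
theorem big {S : Set (M2 F × M2 F)} (h1 : ∀ w ∈ S, w.1 * w.2 = 1) (htr : ∀ w ∈ S, w.1.trace ≠ 0)
    (hsp : Submodule.span F (Prod.fst '' S) = ⊤) (N : Submodule F (M2 F)) (hN1 : (1 : M2 F) ∈ N)
    (hNs : ∀ w ∈ S, ∀ X ∈ N, w.1 * X * w.2 ∈ N) (hX : ∃ X ∈ N, ∀ c : F, X ≠ c • 1) : N = ⊤ := by
  by_contra hN
  have hu : ∀ P ∈ Prod.fst '' S, Matrix.det P ≠ 0 := by
    rintro _ ⟨w, hw, rfl⟩ h0
    have := congrArg Matrix.det (h1 w hw)
    rw [Matrix.det_mul, h0, zero_mul, Matrix.det_one] at this
    exact zero_ne_one this
  have htr' : ∀ P ∈ Prod.fst '' S, Matrix.trace P ≠ 0 := by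
    rintro _ ⟨w, hw, rfl⟩
    exact htr w hw
  obtain ⟨X, hXN, hX⟩ := hX
  -- the trace zero part of `X`
  set Z : M2 F := (2 : F) • X - X.trace • 1 with hZ
  have hZN : Z ∈ N := N.sub_mem (N.smul_mem _ hXN) (N.smul_mem _ hN1)
  have hZt : Z.trace = 0 := by
    rw [hZ, Matrix.trace_sub, Matrix.trace_smul, Matrix.trace_smul, Matrix.trace_one]
    simp
    ring
  have hZ0 : Z ≠ 0 := by
    intro h0
    apply hX (X.trace / 2)
    have h2 : (2 : F) • X = X.trace • 1 := sub_eq_zero.1 (hZ.symm.trans h0)
    have h3 : X = (2 : F)⁻¹ • ((2 : F) • X) := by rw [smul_smul, inv_mul_cancel₀ two_ne_zero, one_smul]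
    rw [h2, smul_smul] at h3
    rw [div_eq_inv_mul]
    exact h3
  have hli : LinearIndependent F ![(1 : M2 F), Z] := by
    rw [LinearIndependent.pair_iff]
    intro s t hst
    have ht := congrArg Matrix.trace hst
    rw [Matrix.trace_add, Matrix.trace_smul, Matrix.trace_smul, hZt, Matrix.trace_one] at ht
    have hs : s = 0 := by simpa using ht
    rw [hs, zero_smul, zero_add, smul_eq_zero] at hst
    exact ⟨hs, hst.resolve_right hZ0⟩
  have hle : Submodule.span F (Set.range ![(1 : M2 F), Z]) ≤ N := by
    rw [Submodule.span_le]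
    rintro _ ⟨i, rfl⟩
    fin_cases i
    · exact hN1
    · exact hZN
  have hf2 : Module.finrank F (Submodule.span F (Set.range ![(1 : M2 F), Z])) = 2 := by
    rw [finrank_span_eq_card hli, Fintype.card_fin]
  have hf4 : Module.finrank F (M2 F) = 4 := by
    rw [Module.finrank_matrix]
    simp
  by_cases h2 : Module.finrank F N = 2
  · -- dimension two
    have hNeq : Submodule.span F (Set.range ![(1 : M2 F), Z]) = N :=
      Submodule.eq_of_le_of_finrank_eq hle (hf2.trans h2.symm)
    apply hZ0
    refine no_line hu htr' hsp hZt ?_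
    rintro _ ⟨w, hw, rfl⟩
    have h3 := hNs w hw Z hZN
    rw [← hNeq, Matrix.range_cons, Matrix.range_cons, Matrix.range_empty, Set.union_empty,
      Set.singleton_union, Submodule.mem_span_insert] at h3
    obtain ⟨a, z, hz, h3⟩ := h3
    obtain ⟨c, rfl⟩ := Submodule.mem_span_singleton.1 hz
    have h4 : a = 0 := by
      have := congrArg Matrix.trace h3
      rw [Matrix.trace_mul_comm, ← mul_assoc, mul_eq_one_comm.1 (h1 w hw), one_mul, Matrix.trace_add,
        Matrix.trace_smul, Matrix.trace_smul, hZt, Matrix.trace_one] at this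
      simpa using this.symm
    rw [h4, zero_smul, zero_add] at h3
    refine ⟨c, ?_⟩
    have h5 : w.1 * Z * w.2 * w.1 = w.1 * Z := by
      rw [mul_assoc, mul_eq_one_comm.1 (h1 w hw), mul_one]
    rw [← h5, h3, smul_mul_assoc]
  · -- dimension three
    have hlt : N < ⊤ := lt_top_iff_ne_top.2 hN
    obtain ⟨f, hf0, hf⟩ := Submodule.exists_le_ker_of_lt_top N hlt
    have hlt4 : Module.finrank F N < 4 := by
      rw [← hf4]
      exact Submodule.finrank_lt hN
    have hge2 : 2 ≤ Module.finrank F N := hf2.symm.le.trans (Submodule.finrank_mono hle)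
    have h3 : Module.finrank F N = 3 := by omega
    have hker : Module.finrank F (LinearMap.ker f) = 3 := by
      have e1 := LinearMap.finrank_range_add_finrank_ker f
      have e2 : Module.finrank F (LinearMap.range f) = 1 := by
        rw [LinearMap.range_eq_top.2 (LinearMap.surjective hf0), finrank_top, Module.finrank_self]
      rw [hf4, e2] at e1
      omega
    have hNk : N = LinearMap.ker f := Submodule.eq_of_le_of_finrank_eq hf (h3.trans hker.symm)
    -- the matrix of the functional
    let Y : M2 F := Matrix.of fun i j => f (Matrix.single j i 1)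
    have hY : ∀ A : M2 F, f A = (Y * A).trace := by
      intro A
      have e1 : A = A 0 0 • Matrix.single 0 0 1 + A 0 1 • Matrix.single 0 1 1 +
          A 1 0 • Matrix.single 1 0 1 + A 1 1 • Matrix.single 1 1 1 := by
        apply ext2 <;> simp
      conv_lhs => rw [e1]
      rw [map_add, map_add, map_add, map_smul, map_smul, map_smul, map_smul, Matrix.trace_fin_two,
        Matrix.mul_apply, Matrix.mul_apply, Fin.sum_univ_two, Fin.sum_univ_two]
      simp only [Y, Matrix.of_apply, smul_eq_mul]
      ring
    have hY0 : Y ≠ 0 := by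
      intro h0
      apply hf0
      ext A
      rw [hY, h0]
      simp
    have hYt : Y.trace = 0 := by
      have := hf hN1
      rw [LinearMap.mem_ker, hY, mul_one] at this
      exact this
    apply hY0
    refine no_line hu htr' hsp hYt ?_
    rintro _ ⟨w, hw, rfl⟩
    have hQP := mul_eq_one_comm.1 (h1 w hw)
    -- the functional composed with the conjugation
    obtain ⟨A, hA⟩ : ∃ A, f A ≠ 0 := by
      by_contra hcon
      push Not at hcon
      exact hf0 (LinearMap.ext hcon)
    set c : F := f (w.1 * A * w.2) / f A with hc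
    have h5 : ∀ C, f (w.1 * C * w.2) = c * f C := by
      intro C
      have h6 : C - (f C / f A) • A ∈ N := by
        rw [hNk, LinearMap.mem_ker, map_sub, map_smul, smul_eq_mul, div_mul_cancel₀ _ hA, sub_self]
      have h7 := hNs w hw _ h6
      rw [hNk, LinearMap.mem_ker, mul_sub, sub_mul, mul_smul_comm, smul_mul_assoc, map_sub, map_smul,
        smul_eq_mul, sub_eq_zero] at h7
      rw [h7, hc]
      ring
    have h6 : w.2 * Y * w.1 = c • Y := by
      have h7 : ∀ C : M2 F, ((w.2 * Y * w.1 - c • Y) * C).trace = 0 := by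
        intro C
        have h8 := h5 C
        rw [hY, hY] at h8
        rw [sub_mul, Matrix.trace_sub, smul_mul_assoc, Matrix.trace_smul, smul_eq_mul, ← h8,
          sub_eq_zero]
        rw [show w.2 * Y * w.1 * C = w.2 * (Y * w.1 * C) by simp only [mul_assoc],
          Matrix.trace_mul_comm]
        congr 1
        simp only [mul_assoc]
      have h9 : ∀ i j, (w.2 * Y * w.1 - c • Y) i j = 0 := by
        intro i j
        have := h7 (Matrix.single j i 1)
        rw [Matrix.trace_fin_two, Matrix.mul_apply, Matrix.mul_apply, Fin.sum_univ_two,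
          Fin.sum_univ_two] at this
        fin_cases i <;> fin_cases j <;> simpa [Matrix.single_apply] using this
      have h10 : w.2 * Y * w.1 - c • Y = 0 := by
        ext i j
        exact h9 i j
      exact sub_eq_zero.1 h10
    have h7 : Y * w.1 = c • (w.1 * Y) := by
      rw [← mul_smul_comm, ← h6]
      simp only [← mul_assoc]
      rw [h1 w hw, one_mul]
    have hc0 : c ≠ 0 := by
      intro h0
      rw [h0, zero_smul] at h7
      apply hY0
      have : Y = Y * w.1 * w.2 := by rw [mul_assoc, h1 w hw, mul_one]
      rw [this, h7, zero_mul]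
    refine ⟨c⁻¹, ?_⟩
    rw [h7, smul_smul, inv_mul_cancel₀ hc0, one_smul]

end Pool.Agent.H86.FM.Stab
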