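import Pool.Agent.H86.FM.Gen
import Pool.Agent.H86.FM.Stab
import Pool.Agent.H86.FM.Dep
import Pool.Agent.H86.FMLib.N817.PL.Main2

/-!
# The main argument
-/

set_option autoImplicit false
set_option linter.unusedSectionVars false

namespace Pool.Agent.H86.FM.Mn

open Filter Topology Matrix NumberField IsDedekindDomain
open Pool.Agent.H86.FM.Alg Pool.Agent.H86.FM.Cone Pool.Agent.H86.FM.Lg Pool.Agent.H86.FM.Str
open Pool.Agent.H86.FM.Dep
open Pool.Agent.N817.PL Pool.Agent.N817.PL.Nrm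
open Pool.Agent.W401.Cheb Pool.Agent.W528.Ord

attribute [local instance] nring nalg

section dat

variable {p : ℕ} [hp : Fact p.Prime] {F : Type*} [NormedField F] [NormedAlgebra ℚ_[p] F]
  [IsUltrametricDist F] [CompleteSpace F] {G : Type*} [Group G]

theorem norm_trace_le (X : M2 F) : ‖X.trace‖ ≤ ‖X‖ := by
  rw [Matrix.trace_fin_two]
  exact (IsUltrametricDist.norm_add_le_max _ _).trans (max_le (norm_entry X 0 0) (norm_entry X 1 1))

theorem trace_ne (p : ℕ) [hp : Fact p.Prime] {F : Type*} [NormedField F] [NormedAlgebra ℚ_[p] F]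
    [IsUltrametricDist F] [CompleteSpace F] {X : M2 F} (hX : ‖X - 1‖ ≤ 1 / 4) : X.trace ≠ 0 := by
  intro h0
  have h1 := norm_trace_le (X - 1)
  rw [Matrix.trace_sub, h0, Matrix.trace_one, zero_sub, norm_neg, Fintype.card_fin] at h1
  have h2 := Log.norm_ge (p := p) 2 two_pos
  have h3 : ‖((2 : ℕ) : F)‖ = ‖((2 : ℕ) : ℚ_[p])‖ := by
    rw [← map_natCast (algebraMap ℚ_[p] F), norm_algebraMap']
  rw [h3] at h1
  have h4 := h1.trans hX
  norm_num at h2 h4
  linarith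

theorem mem_L_log (V W : G →* M2 F) (U : Subgroup G) (hsV : ∀ u ∈ U, ‖V u - 1‖ ≤ 1 / 4)
    (hsW : ∀ u ∈ U, ‖W u - 1‖ ≤ 1 / 4) (u : G) (hu : u ∈ U) :
    (lg p (V u - 1), lg p (W u - 1)) ∈ Lim.L p (V.prod W) U := by
  have hcomp : @CompleteSpace (M2 F) PseudoMetricSpace.toUniformSpace := complete
  have hult : IsUltrametricDist (M2 F) := ultraMat
  refine Lim.log_mem hu ?_
  have h1 := (tendsto_lg (p := p) (hsV u hu)).prodMk_nhds (tendsto_lg (p := p) (hsW u hu))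
  refine h1.congr fun k => ?_
  rfl

theorem rel_L (V W : G →* M2 F) (U : Subgroup G) (hsV : ∀ u ∈ U, ‖V u - 1‖ ≤ 1 / 4)
    (hsW : ∀ u ∈ U, ‖W u - 1‖ ≤ 1 / 4)
    (hrel : ∀ u ∈ U, Rel p (D (lg p (V u - 1))) (D (lg p (W u - 1)))) (w : M2 F × M2 F)
    (hw : w ∈ Lim.L p (V.prod W) U) : Rel p (D w.1) (D w.2) := by
  have hcomp : @CompleteSpace (M2 F) PseudoMetricSpace.toUniformSpace := complete
  have hult : IsUltrametricDist (M2 F) := ultraMat
  obtain ⟨u, hu, hlim⟩ := hw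
  have h1 : Tendsto (fun k => ((p : ℚ_[p])⁻¹) ^ k • (V (u k) - 1)) atTop (𝓝 w.1) :=
    (continuous_fst.tendsto _).comp hlim
  have h2 : Tendsto (fun k => ((p : ℚ_[p])⁻¹) ^ k • (W (u k) - 1)) atTop (𝓝 w.2) :=
    (continuous_snd.tendsto _).comp hlim
  have h3 := tendsto_quot (fun k => hsV _ (hu k)) h1
  have h4 := tendsto_quot (fun k => hsW _ (hu k)) h2
  refine Rel.tendsto ((continuous_D.tendsto _).comp h3) ((continuous_D.tendsto _).comp h4) fun k => ?_
  simp only [Function.comp, D_qsmul]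
  have h5 := (hrel _ (hu k)).mul (algebraMap ℚ_[p] F ((((p : ℚ_[p])⁻¹) ^ k) ^ 2))
  rwa [← Algebra.smul_def, ← Algebra.smul_def] at h5

theorem conj_L (V W : G →* M2 F) (U : Subgroup G) (g : G) (hg : ∀ v ∈ U, g * v * g⁻¹ ∈ U)
    {X Y : M2 F} (hw : (X, Y) ∈ Lim.L p (V.prod W) U) :
    (V g * X * V g⁻¹, W g * Y * W g⁻¹) ∈ Lim.L p (V.prod W) U := Lim.conj_mem g hg hw

theorem inv_right (V : G →* M2 F) (g : G) : V g * V g⁻¹ = 1 := by
  rw [← map_mul, mul_inv_cancel, map_one]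

theorem inv_left (V : G →* M2 F) (g : G) : V g⁻¹ * V g = 1 := by
  rw [← map_mul, inv_mul_cancel, map_one]

/-- the stable space generated by a set of matrices -/
theorem sp_of (p : ℕ) [hp : Fact p.Prime] {F : Type*} [NormedField F] [NormedAlgebra ℚ_[p] F]
    [IsUltrametricDist F] [CompleteSpace F] {G : Type*} [Group G] (V : G →* M2 F) (U : Subgroup G) (hsV : ∀ u ∈ U, ‖V u - 1‖ ≤ 1 / 4)
    (hsp : Submodule.span F (V '' U) = ⊤) (S : Set (M2 F))
    (hS : ∀ u ∈ U, ∀ X ∈ S, V u * X * V u⁻¹ ∈ S) (hX : ∃ X ∈ S, ∀ c : F, X ≠ c • 1) : Sp S := by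
  have hchar : CharZero F := charZero_of_injective_algebraMap (algebraMap ℚ_[p] F).injective
  refine Stab.big (S := (fun u => (V u, V u⁻¹)) '' (U : Set G)) ?_ ?_ ?_ _ ?_ ?_ ?_
  · rintro _ ⟨u, _, rfl⟩
    exact inv_right V u
  · rintro _ ⟨u, hu, rfl⟩
    exact trace_ne p (hsV u hu)
  · rw [Set.image_image]
    exact hsp
  · exact Submodule.mem_sup_right (Submodule.mem_span_singleton_self _)
  · rintro _ ⟨u, hu, rfl⟩ X hX
    simp only
    rw [Submodule.mem_sup] at hX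
    obtain ⟨Y, hY, Z, hZ, rfl⟩ := hX
    rw [mul_add, add_mul]
    refine Submodule.add_mem _ (Submodule.mem_sup_left ?_) (Submodule.mem_sup_right ?_)
    · induction hY using Submodule.span_induction with
      | mem Y hY => exact Submodule.subset_span (hS u hu Y hY)
      | zero =>
        rw [mul_zero, zero_mul]
        exact Submodule.zero_mem _
      | add Y Y' _ _ hY hY' =>
        rw [mul_add, add_mul]
        exact Submodule.add_mem _ hY hY'
      | smul c Y _ hY =>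
        rw [mul_smul_comm, smul_mul_assoc]
        exact Submodule.smul_mem _ c hY
    · obtain ⟨c, rfl⟩ := Submodule.mem_span_singleton.1 hZ
      rw [mul_smul_comm, smul_mul_assoc, mul_one, inv_right]
      exact Submodule.smul_mem _ c (Submodule.mem_span_singleton_self _)
  · obtain ⟨X, hXS, hX⟩ := hX
    exact ⟨X, Submodule.mem_sup_left (Submodule.subset_span hXS), hX⟩

theorem not_scalar (V : G →* M2 F) (U : Subgroup G) (hsV : ∀ u ∈ U, ‖V u - 1‖ ≤ 1 / 4)
    (hsp : Submodule.span F (V '' U) = ⊤) : ∃ u ∈ U, ∀ c : F, lg p (V u - 1) ≠ c • 1 := by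
  have hcomp : @CompleteSpace (M2 F) PseudoMetricSpace.toUniformSpace := complete
  have hult : IsUltrametricDist (M2 F) := ultraMat
  by_contra hcon
  push Not at hcon
  let A : Subalgebra ℚ_[p] (M2 F) := (⊥ : Subalgebra F (M2 F)).restrictScalars ℚ_[p]
  have hA : IsClosed (A : Set (M2 F)) := Abs.isClosed_sub p (Subalgebra.toSubmodule (⊥ : Subalgebra F (M2 F)))
  have hmem : ∀ X : M2 F, X ∈ A ↔ ∃ c : F, X = c • 1 := by
    intro X
    change X ∈ (⊥ : Subalgebra F (M2 F)) ↔ _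
    rw [Algebra.mem_bot]
    constructor
    · rintro ⟨c, rfl⟩
      exact ⟨c, Algebra.algebraMap_eq_smul_one c⟩
    · rintro ⟨c, rfl⟩
      exact ⟨c, Algebra.algebraMap_eq_smul_one c⟩
  have h1 : ∀ u ∈ U, V u ∈ Submodule.span F {(1 : M2 F)} := by
    intro u hu
    have h2 := Log.mem_of_log A hA (hsV u hu) (tendsto_lg (hsV u hu)) ((hmem _).2 (hcon u hu))
    obtain ⟨c, hc⟩ := (hmem _).1 h2
    rw [Submodule.mem_span_singleton]
    refine ⟨c + 1, ?_⟩
    rw [add_smul, one_smul, ← hc, sub_add_cancel]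
  have h2 : Submodule.span F (V '' U) ≤ Submodule.span F {(1 : M2 F)} := by
    rw [Submodule.span_le]
    rintro _ ⟨u, hu, rfl⟩
    exact h1 u hu
  rw [hsp] at h2
  have h3 : Matrix.single 0 1 1 ∈ Submodule.span F {(1 : M2 F)} := h2 trivial
  obtain ⟨c, hc⟩ := Submodule.mem_span_singleton.1 h3
  have := congrFun (congrFun hc 0) 1
  simp at this

/-- if the discriminant of the logarithm is zero then the discriminant is zero -/
theorem D_of_lg {x : M2 F} (hx : ‖x‖ ≤ 1 / 4) (h : D (lg p x) = 0) : D x = 0 := by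
  have hchar : CharZero F := charZero_of_injective_algebraMap (algebraMap ℚ_[p] F).injective
  have hcomp : @CompleteSpace (M2 F) PseudoMetricSpace.toUniformSpace := complete
  have hult : IsUltrametricDist (M2 F) := ultraMat
  set ℓ := lg p x with hℓ
  set n : M2 F := Aut.tz ℓ with hn
  have hnt : n.trace = 0 := Aut.trace_tz ℓ
  have hDn : D n = 0 := by
    rw [← B_self, hn, Aut.B_tz, B_self, h, mul_zero]
  have hnn : n * n = 0 := by
    have h1 := mul_trace_zero hnt hnt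
    have h2 : br n n = 0 := by simp [br]
    rw [h2, B_self, hDn, smul_zero, zero_smul, add_zero, smul_eq_zero] at h1
    exact h1.resolve_left (by norm_num)
  let A₀ : Subalgebra F (M2 F) :=
    { carrier := {A | ∃ α β : F, A = α • 1 + β • n}
      mul_mem' := by
        rintro _ _ ⟨α, β, rfl⟩ ⟨γ, δ, rfl⟩
        refine ⟨α * γ, α * δ + β * γ, ?_⟩
        simp only [add_mul, mul_add, smul_mul_assoc, one_mul, mul_smul_comm, mul_one, hnn, smul_zero,
          add_zero, smul_smul, smul_add]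
        rw [mul_comm γ α, mul_comm γ β, mul_comm δ α, add_smul]
        abel
      add_mem' := by
        rintro _ _ ⟨α, β, rfl⟩ ⟨γ, δ, rfl⟩
        refine ⟨α + γ, β + δ, ?_⟩
        rw [add_smul, add_smul]
        abel
      algebraMap_mem' := by
        intro c
        exact ⟨c, 0, by rw [zero_smul, add_zero, Algebra.algebraMap_eq_smul_one]⟩ }
  let A : Subalgebra ℚ_[p] (M2 F) := A₀.restrictScalars ℚ_[p]
  have hA : IsClosed (A : Set (M2 F)) := Abs.isClosed_sub p (Subalgebra.toSubmodule A₀)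
  have hmem : lg p x ∈ A := by
    refine ⟨ℓ.trace / 2, 1 / 2, ?_⟩
    rw [hn]
    unfold Aut.tz
    rw [smul_sub, smul_smul, smul_smul, ← hℓ, show (1 / 2 : F) * 2 = 1 by norm_num, one_smul,
      show (1 / 2 : F) * ℓ.trace = ℓ.trace / 2 by ring]
    abel
  obtain ⟨α, β, hαβ⟩ := Log.mem_of_log A hA hx (tendsto_lg hx) hmem
  rw [hαβ, add_comm, D_add_scalar, D_smul, hDn, mul_zero]

/-- **the assumptions hold for the Lie algebra** -/
theorem dat (V W : G →* M2 F) {C : ℝ} (hCV : ∀ g, ‖V g‖ ≤ C) (hCW : ∀ g, ‖W g‖ ≤ C)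
    (U : Subgroup G) (hUn : ∀ g : G, ∀ v ∈ U, g * v * g⁻¹ ∈ U) (hsV : ∀ u ∈ U, ‖V u - 1‖ ≤ 1 / 4)
    (hsW : ∀ u ∈ U, ‖W u - 1‖ ≤ 1 / 4) (hspV : Submodule.span F (V '' U) = ⊤)
    (hW0 : ∃ u ∈ U, D (W u) ≠ 0)
    (hrel : ∀ u ∈ U, Rel p (D (lg p (V u - 1))) (D (lg p (W u - 1)))) :
    Dat (Lim.L p (V.prod W) U) := by
  have hC : ∀ g, ‖V.prod W g‖ ≤ C := by
    intro g
    rw [Prod.norm_def]
    exact max_le (hCV g) (hCW g)
  refine Gen.dat_of _ ?_ (rel_L V W U hsV hsW hrel) ?_ ?_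
  · intro w hw z hz
    exact Lim.lie_mem hC hw hz
  · refine sp_of p V U hsV hspV _ ?_ ?_
    · rintro u hu X ⟨Y, hXY⟩
      exact ⟨_, conj_L V W U u (hUn u) hXY⟩
    · obtain ⟨u, hu, h⟩ := not_scalar (p := p) V U hsV hspV
      exact ⟨_, ⟨_, mem_L_log V W U hsV hsW u hu⟩, h⟩
  · obtain ⟨u, hu, h⟩ := hW0
    refine ⟨_, ⟨_, mem_L_log V W U hsV hsW u hu⟩, fun h0 => h ?_⟩
    have h1 := D_of_lg (hsW u hu) h0
    rwa [D_sub_one] at h1

end dat

/-- **Main theorem.** -/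
theorem main {K : Type} [Field K] [NumberField K] (p : ℕ) [hp : Fact p.Prime] {F : Type}
    [NormedField F] [NormedAlgebra ℚ_[p] F] [FiniteDimensional ℚ_[p] F]
    (V W : GK K →* M2 F) (hV : Continuous V) (hW : Continuous W)
    (hspV : ∀ H : Subgroup (GK K), IsOpen (H : Set (GK K)) → Submodule.span F (V '' H) = ⊤)
    (hW0 : ∀ N : ℕ, 0 < N → ∃ g, D (W g ^ N) ≠ 0)
    (P : Set (HeightOneSpectrum (𝓞 K)))
    (hP : ∀ ε : ℝ, 0 < ε → ∃ᶠ x : ℕ in atTop, dens (fun v => v ∉ P) x ≤ ε)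
    (hdep : ∀ v ∈ P, ∃ g, IsFrob v g ∧ ∃ k l : ℕ, (k ≠ 0 ∨ l ≠ 0) ∧
      ∀ j, D (V g ^ (k * j)) * (W g ^ (l * j)).det = D (W g ^ (l * j)) * (V g ^ (k * j)).det) :
    ∃ T : (M2 F)ˣ, ∀ g, ∃ c : F, V g = c • (((T⁻¹ : (M2 F)ˣ) : M2 F) * W g * T) := by
  have hult : IsUltrametricDist F := ultra p F
  have hcompF : CompleteSpace F := FiniteDimensional.complete ℚ_[p] F
  have hcomp : @CompleteSpace (M2 F) PseudoMetricSpace.toUniformSpace := complete
  have hultM : IsUltrametricDist (M2 F) := ultraMat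
  let instM : MeasurableSpace (GK K) := borel (GK K)
  have instB : BorelSpace (GK K) := ⟨rfl⟩
  obtain ⟨U₁, -, hU₁⟩ := Top.exists_small V hV Set.univ isOpen_univ (Set.mem_univ _)
  obtain ⟨U, hUU, hU⟩ := Top.exists_small W hW ((U₁ : Subgroup (GK K)) : Set (GK K)) U₁.isOpen'
    (U₁ : Subgroup (GK K)).one_mem
  have hUn : (U : Subgroup (GK K)).Normal := U.isNormal'
  have hsV : ∀ u ∈ (U : Subgroup (GK K)), ‖V u - 1‖ ≤ 1 / 4 := fun u hu => hU₁ u (hUU hu)
  set N := (U : Subgroup (GK K)).index with hN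
  have hN0 : 0 < N := Nat.pos_of_ne_zero (Top2.index_ne U)
  have hpowV : ∀ g, ‖V g ^ N - 1‖ ≤ 1 / 4 := by
    intro g
    rw [← map_pow]
    exact hsV _ (Subgroup.pow_index_mem (U : Subgroup (GK K)) g)
  have hpowW : ∀ g, ‖W g ^ N - 1‖ ≤ 1 / 4 := by
    intro g
    rw [← map_pow]
    exact hU _ (Subgroup.pow_index_mem (U : Subgroup (GK K)) g)
  -- the closed set
  have hcV : Continuous fun g => lg p (V g ^ N - 1) :=
    continuous_lg (p := p) ((hV.pow N).sub continuous_const) hpowV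
  have hcW : Continuous fun g => lg p (W g ^ N - 1) :=
    continuous_lg (p := p) ((hW.pow N).sub continuous_const) hpowW
  have hall : ∀ g, Rel p (D (lg p (V g ^ N - 1))) (D (lg p (W g ^ N - 1))) := by
    refine Main2.closed_univ {g | Rel p (D (lg p (V g ^ N - 1))) (D (lg p (W g ^ N - 1)))} ?_ ?_ P hP ?_
    · exact isClosed_rel.preimage ((continuous_D.comp hcV).prodMk (continuous_D.comp hcW))
    · intro σ hσ τ
      change Rel p (D (lg p (V (τ * σ * τ⁻¹) ^ N - 1))) (D (lg p (W (τ * σ * τ⁻¹) ^ N - 1)))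
      have e : ∀ R : GK K →* M2 F, (∀ g, ‖R g ^ N - 1‖ ≤ 1 / 4) →
          D (lg p (R (τ * σ * τ⁻¹) ^ N - 1)) = D (lg p (R σ ^ N - 1)) := by
        intro R hR
        have e1 : R (τ * σ * τ⁻¹) ^ N - 1 = R τ * (R σ ^ N - 1) * R τ⁻¹ := by
          rw [mul_sub, sub_mul, mul_one, inv_right, ← map_pow, ← map_pow, ← map_mul, ← map_mul]
          congr 2
          rw [conj_pow]
        rw [e1, lg_conj (inv_right R τ) (inv_left R τ) (hR σ), D_conj (inv_right R τ)]
      rw [e V hpowV, e W hpowW]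
      exact hσ
    · intro v hv
      obtain ⟨g, hg, k, l, hkl, h⟩ := hdep v hv
      exact ⟨g, rel_of_key (hpowV g) (hpowW g) hkl h, hg⟩
  have hrel : ∀ u ∈ (U : Subgroup (GK K)), Rel p (D (lg p (V u - 1))) (D (lg p (W u - 1))) := by
    intro u hu
    have h1 := hall u
    have hNp : ((N : ℕ) : ℚ_[p]) ≠ 0 := by exact_mod_cast hN0.ne'
    have e : ∀ R : GK K →* M2 F, ‖R u - 1‖ ≤ 1 / 4 →
        D (lg p (R u ^ N - 1)) = ((N : ℕ) : ℚ_[p]) ^ 2 • D (lg p (R u - 1)) := by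
      intro R hR
      have h2 := lg_pow (p := p) hR N
      rw [add_sub_cancel] at h2
      rw [h2, D_qsmul]
    rw [e V (hsV u hu), e W (hU u hu)] at h1
    exact (h1.right hNp).left hNp
  obtain ⟨C₁, hC₁⟩ := Top.bounded V hV
  obtain ⟨C₂, hC₂⟩ := Top.bounded W hW
  have hd := dat (p := p) V W (C := max C₁ C₂) (fun g => (hC₁ g).trans (le_max_left _ _))
    (fun g => (hC₂ g).trans (le_max_right _ _)) (U : Subgroup (GK K))
    (fun g v hv => hUn.conj_mem v hv g) hsV hU (hspV _ U.isOpen') (by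
      obtain ⟨g, hg⟩ := hW0 N hN0
      refine ⟨g ^ N, Subgroup.pow_index_mem (U : Subgroup (GK K)) g, ?_⟩
      rwa [map_pow]) hrel
  obtain ⟨T, hT⟩ := Aut.exists_conj hd
  refine ⟨T, fun g => hT (V g) (V g⁻¹) (W g) (W g⁻¹) (inv_right V g) (inv_right W g) ?_⟩
  intro X X' hX
  exact conj_L V W (U : Subgroup (GK K)) g (fun v hv => hUn.conj_mem v hv g) hX

end Pool.Agent.H86.FM.Mn
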