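import Pool.Agent.H86.FM.Rs

/-!
# The difference of the traces
-/

set_option autoImplicit false
set_option linter.unusedSectionVars false

namespace Pool.Agent.H86.FM.One

open Filter Topology Matrix
open Pool.Agent.H86.FM.Alg Pool.Agent.H86.FM.Cone Pool.Agent.H86.FM.Str Pool.Agent.H86.FM.Rs

variable {p : ℕ} [hp : Fact p.Prime] {F : Type*} [NormedField F] [NormedAlgebra ℚ_[p] F]

theorem tendsto_pn : Tendsto (fun n : ℕ => algebraMap ℚ_[p] F ((p : ℚ_[p]) ^ n)) atTop (𝓝 0) := by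
  have hp1 : ‖(p : ℚ_[p])‖ < 1 := by
    rw [Padic.norm_p]
    exact inv_lt_one_of_one_lt₀ (by exact_mod_cast hp.out.one_lt)
  have h7 := tendsto_pow_atTop_nhds_zero_of_norm_lt_one hp1
  have h8 : Continuous (algebraMap ℚ_[p] F) := continuous_algebraMap ℚ_[p] F
  have h9 := (h8.tendsto 0).comp h7
  rwa [map_zero] at h9

/-- squares of elements of `τ + ℚ_p g` -/
theorem lemM {τ g A Z : F} (hg : g ≠ 0) (hZ : Z ≠ 0)
    (h : ∃ᶠ n : ℕ in atTop, ∃ q : ℚ_[p], 4 * (τ + algebraMap ℚ_[p] F q * g) ^ 2 =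
      A + (algebraMap ℚ_[p] F (((p : ℚ_[p])⁻¹) ^ n)) ^ 2 * Z) :
    (∃ ρ : ℚ_[p], τ = algebraMap ℚ_[p] F ρ * g) ∧ Rel p Z (g ^ 2) := by
  have hchar : CharZero F := charZero_of_injective_algebraMap (algebraMap ℚ_[p] F).injective
  have hp0 : (p : ℚ_[p]) ≠ 0 := by exact_mod_cast hp.out.ne_zero
  obtain ⟨φ, hφ, h⟩ := Filter.extraction_of_frequently_atTop h
  choose q hq using h
  have h4 : (4 : F) ≠ 0 := by norm_num
  -- multiply with `p ^ n`
  set P : ℕ → F := fun k => algebraMap ℚ_[p] F ((p : ℚ_[p]) ^ φ k) with hP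
  have hP0 : Tendsto P atTop (𝓝 0) := tendsto_pn.comp hφ.tendsto_atTop
  have hPi : ∀ k, P k * algebraMap ℚ_[p] F (((p : ℚ_[p])⁻¹) ^ φ k) = 1 := by
    intro k
    rw [hP]
    simp only
    rw [← map_mul, ← mul_pow, mul_inv_cancel₀ hp0, one_pow, map_one]
  set r : ℕ → ℚ_[p] := fun k => (p : ℚ_[p]) ^ φ k * q k with hr
  have hrP : ∀ k, algebraMap ℚ_[p] F (r k) = P k * algebraMap ℚ_[p] F (q k) := by
    intro k
    rw [hr, hP]
    simp only
    rw [map_mul]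
  have key : ∀ k, 4 * (P k * τ + algebraMap ℚ_[p] F (r k) * g) ^ 2 = P k ^ 2 * A + Z := by
    intro k
    rw [hrP]
    have h1 := hq k
    have h2 := hPi k
    calc 4 * (P k * τ + P k * algebraMap ℚ_[p] F (q k) * g) ^ 2 =
          P k ^ 2 * (4 * (τ + algebraMap ℚ_[p] F (q k) * g) ^ 2) := by ring
      _ = P k ^ 2 * A + (P k * algebraMap ℚ_[p] F (((p : ℚ_[p])⁻¹) ^ φ k)) ^ 2 * Z := by
          rw [h1]
          ring
      _ = _ := by rw [h2]; ring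
  -- boundedness
  have hlim1 : Tendsto (fun k => P k ^ 2 * A + Z) atTop (𝓝 Z) := by
    have := ((hP0.pow 2).mul_const A).add_const Z
    simpa using this
  obtain ⟨C₁, hC₁⟩ : ∃ C₁, ∀ k, ‖P k ^ 2 * A + Z‖ ≤ C₁ := by
    obtain ⟨C₁, hC₁⟩ := hlim1.norm.bddAbove_range
    exact ⟨C₁, fun k => hC₁ ⟨k, rfl⟩⟩
  have hC₂ : ∀ k, ‖P k * τ + algebraMap ℚ_[p] F (r k) * g‖ ≤ C₁ / ‖(4 : F)‖ + 1 := by
    intro k
    have h1 := hC₁ k
    rw [← key k, norm_mul, norm_pow] at h1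
    have h2 : 0 < ‖(4 : F)‖ := norm_pos_iff.2 h4
    have h3 : ‖P k * τ + algebraMap ℚ_[p] F (r k) * g‖ ^ 2 ≤ C₁ / ‖(4 : F)‖ := by
      rw [le_div_iff₀ h2]
      linarith
    set x := ‖P k * τ + algebraMap ℚ_[p] F (r k) * g‖ with hx
    have h5 : 0 ≤ x := norm_nonneg _
    nlinarith
  obtain ⟨C₃, hC₃⟩ : ∃ C₃, ∀ k, ‖P k * τ‖ ≤ C₃ := by
    obtain ⟨C₃, hC₃⟩ := (hP0.mul_const τ).norm.bddAbove_range
    exact ⟨C₃, fun k => hC₃ ⟨k, rfl⟩⟩
  have hC₄ : ∀ k, ‖algebraMap ℚ_[p] F (r k) * g‖ ≤ C₁ / ‖(4 : F)‖ + 1 + C₃ := by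
    intro k
    have h1 : algebraMap ℚ_[p] F (r k) * g =
        (P k * τ + algebraMap ℚ_[p] F (r k) * g) - P k * τ := by ring
    rw [h1]
    refine (norm_sub_le _ _).trans (add_le_add (hC₂ k) (hC₃ k))
  -- the limit
  have hsmall : Tendsto (fun k => (P k * τ) * (algebraMap ℚ_[p] F (r k) * g)) atTop (𝓝 0) := by
    rw [tendsto_zero_iff_norm_tendsto_zero]
    have h1 := (hP0.mul_const τ).norm.mul_const (C₁ / ‖(4 : F)‖ + 1 + C₃)
    rw [zero_mul, norm_zero, zero_mul] at h1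
    refine squeeze_zero (fun k => norm_nonneg _) (fun k => ?_) h1
    rw [norm_mul]
    exact mul_le_mul_of_nonneg_left (hC₄ k) (norm_nonneg _)
  have hlim2 : Tendsto (fun k => 4 * (algebraMap ℚ_[p] F (r k) * g) ^ 2) atTop (𝓝 Z) := by
    have h1 := (hlim1.sub (((hP0.mul_const τ).pow 2).const_mul 4)).sub (hsmall.const_mul 8)
    have h2 : Z - 4 * (0 * τ) ^ 2 - 8 * 0 = Z := by ring
    rw [h2] at h1
    refine h1.congr fun k => ?_
    rw [← key k]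
    ring
  have hrel : Rel p Z (g ^ 2) := by
    refine Rel.tendsto hlim2 tendsto_const_nhds fun k => ?_
    refine ⟨1, 2 * r k, Or.inl one_ne_zero, ?_⟩
    have h1 : algebraMap ℚ_[p] F (2 * r k) = 2 * algebraMap ℚ_[p] F (r k) := by
      rw [map_mul, map_ofNat]
    rw [one_pow, one_smul, Algebra.smul_def, map_pow, h1]
    ring
  refine ⟨?_, hrel⟩
  obtain ⟨s, hs⟩ := hrel.eq (pow_ne_zero 2 hg)
  rw [Algebra.smul_def, map_pow] at hs
  -- two indices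
  have h01 : φ 0 < φ 1 := hφ (by norm_num)
  have e0 := hq 0
  have e1 := hq 1
  set t₀ : ℚ_[p] := ((p : ℚ_[p])⁻¹) ^ φ 0 with ht₀
  set t₁ : ℚ_[p] := ((p : ℚ_[p])⁻¹) ^ φ 1 with ht₁
  have ht : t₀ ^ 2 ≠ t₁ ^ 2 := by
    intro h0
    have h1 := congrArg norm h0
    rw [ht₀, ht₁, norm_pow, norm_pow, norm_pow, norm_pow, norm_inv, Padic.norm_p, inv_inv,
      ← pow_mul, ← pow_mul] at h1
    have hp1 : (1 : ℝ) < p := by exact_mod_cast hp.out.one_lt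
    have h2 : (p : ℝ) ^ (φ 0 * 2) < (p : ℝ) ^ (φ 1 * 2) := pow_lt_pow_right₀ hp1 (by omega)
    exact absurd h1 h2.ne
  have hqq : q 0 ≠ q 1 := by
    intro h0
    rw [h0, e1] at e0
    have h1 : ((algebraMap ℚ_[p] F t₁) ^ 2 - (algebraMap ℚ_[p] F t₀) ^ 2) * Z = 0 := by
      linear_combination e0
    rcases mul_eq_zero.1 h1 with h2 | h2
    · rw [← map_pow, ← map_pow, ← map_sub, map_eq_zero_iff _ (algebraMap ℚ_[p] F).injective] at h2
      exact ht (sub_eq_zero.1 h2).symm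
    · exact hZ h2
  have hqq' : algebraMap ℚ_[p] F (q 0) - algebraMap ℚ_[p] F (q 1) ≠ 0 := by
    rw [← map_sub, map_ne_zero_iff _ (algebraMap ℚ_[p] F).injective]
    exact sub_ne_zero.2 hqq
  -- `4 (q₀ - q₁) g (2 τ + (q₀ + q₁) g) = (t₀² - t₁²) s² g²`
  have h5 : 4 * (algebraMap ℚ_[p] F (q 0) - algebraMap ℚ_[p] F (q 1)) *
      (2 * τ + (algebraMap ℚ_[p] F (q 0) + algebraMap ℚ_[p] F (q 1)) * g) =
      ((algebraMap ℚ_[p] F t₀) ^ 2 - (algebraMap ℚ_[p] F t₁) ^ 2) * (algebraMap ℚ_[p] F s) ^ 2 * g := by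
    apply mul_right_cancel₀ hg
    rw [hs] at e0 e1
    linear_combination e0 - e1
  have h6 : 2 * τ + (algebraMap ℚ_[p] F (q 0) + algebraMap ℚ_[p] F (q 1)) * g =
      (((algebraMap ℚ_[p] F t₀) ^ 2 - (algebraMap ℚ_[p] F t₁) ^ 2) * (algebraMap ℚ_[p] F s) ^ 2 /
        (4 * (algebraMap ℚ_[p] F (q 0) - algebraMap ℚ_[p] F (q 1)))) * g := by
    rw [div_mul_eq_mul_div, eq_div_iff (mul_ne_zero h4 hqq')]
    linear_combination h5
  refine ⟨((t₀ ^ 2 - t₁ ^ 2) * s ^ 2 / (4 * (q 0 - q 1)) - (q 0 + q 1)) / 2, ?_⟩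
  have h7 : algebraMap ℚ_[p] F (((t₀ ^ 2 - t₁ ^ 2) * s ^ 2 / (4 * (q 0 - q 1)) - (q 0 + q 1)) / 2) =
      (((algebraMap ℚ_[p] F t₀) ^ 2 - (algebraMap ℚ_[p] F t₁) ^ 2) * (algebraMap ℚ_[p] F s) ^ 2 /
        (4 * (algebraMap ℚ_[p] F (q 0) - algebraMap ℚ_[p] F (q 1))) -
        (algebraMap ℚ_[p] F (q 0) + algebraMap ℚ_[p] F (q 1))) / 2 := by
    simp only [map_div₀, map_sub, map_mul, map_add, map_pow, map_ofNat]
  rw [h7]
  linear_combination (1 / 2 : F) * h6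

/-- the assumptions on the Lie algebra: the trace zero part is the graph of conjugation with `T` -/
structure Dat2 (g h : Submodule ℚ_[p] (M2 F × M2 F)) (T : (M2 F)ˣ) : Prop where
  le : h ≤ g
  brm : ∀ w ∈ g, ∀ z ∈ h, (br w.1 z.1, br w.2 z.2) ∈ h
  rel : ∀ w ∈ g, RelE p w.1 w.2
  sp : Sp (P2 h)
  tr : ∀ z ∈ h, z.1.trace = 0 ∧ z.2.trace = 0
  graph : ∀ z ∈ h, (T : M2 F) * z.1 * ((T⁻¹ : (M2 F)ˣ) : M2 F) = z.2

theorem conj_br (T : (M2 F)ˣ) (X Y : M2 F) :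
    (T : M2 F) * br X Y * ((T⁻¹ : (M2 F)ˣ) : M2 F) =
      br ((T : M2 F) * X * ((T⁻¹ : (M2 F)ˣ) : M2 F)) ((T : M2 F) * Y * ((T⁻¹ : (M2 F)ˣ) : M2 F)) := by
  have h : ∀ A C : M2 F, (T : M2 F) * A * ((T⁻¹ : (M2 F)ˣ) : M2 F) *
      ((T : M2 F) * C * ((T⁻¹ : (M2 F)ˣ) : M2 F)) =
      (T : M2 F) * (A * C) * ((T⁻¹ : (M2 F)ˣ) : M2 F) := by
    intro A C
    calc _ = (T : M2 F) * A * (((T⁻¹ : (M2 F)ˣ) : M2 F) * (T : M2 F)) * C *
          ((T⁻¹ : (M2 F)ˣ) : M2 F) := by simp only [mul_assoc]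
      _ = _ := by rw [T.inv_mul, mul_one]; simp only [mul_assoc]
  unfold br
  rw [h, h, mul_sub, sub_mul]

/-- the first component is a conjugate of a translate of the second component -/
theorem Dat2.scalar {g h : Submodule ℚ_[p] (M2 F × M2 F)} {T : (M2 F)ˣ} (H : Dat2 g h T)
    {w : M2 F × M2 F} (hw : w ∈ g) :
    (T : M2 F) * w.1 * ((T⁻¹ : (M2 F)ˣ) : M2 F) = w.2 + ((w.1.trace - w.2.trace) / 2) • (1 : M2 F) := by
  have hchar : CharZero F := charZero_of_injective_algebraMap (algebraMap ℚ_[p] F).injective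
  have h1 : ∀ Z ∈ P2 h, br ((T : M2 F) * w.1 * ((T⁻¹ : (M2 F)ˣ) : M2 F) - w.2) Z = 0 := by
    rintro Z ⟨Z₁, hZ⟩
    have h2 := H.graph _ (H.brm w hw _ hZ)
    simp only at h2
    rw [conj_br, H.graph _ hZ] at h2
    have h3 : ∀ A C D : M2 F, br (A - C) D = br A D - br C D := by
      intro A C D
      simp only [br, sub_mul, mul_sub]
      abel
    rw [h3, h2, sub_self]
  obtain ⟨c, hc⟩ := scalar_of_br_set H.sp h1
  have h2 : (T : M2 F) * w.1 * ((T⁻¹ : (M2 F)ˣ) : M2 F) = w.2 + c • (1 : M2 F) := by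
    rw [← hc]
    abel
  have h3 : ((T : M2 F) * w.1 * ((T⁻¹ : (M2 F)ˣ) : M2 F)).trace = w.1.trace := by
    rw [Matrix.trace_mul_comm, ← mul_assoc, T.inv_mul, one_mul]
  have h4 : c = (w.1.trace - w.2.trace) / 2 := by
    rw [h2, Matrix.trace_add, Matrix.trace_smul, Matrix.trace_one, Fintype.card_fin] at h3
    simp only [smul_eq_mul] at h3
    push_cast at h3
    field_simp
    linear_combination h3
  rw [h2, h4]

/-- trace and determinant -/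
theorem Dat2.vals {g h : Submodule ℚ_[p] (M2 F × M2 F)} {T : (M2 F)ˣ} (H : Dat2 g h T)
    {w : M2 F × M2 F} (hw : w ∈ g) :
    w.1.trace = 2 * (w.2.trace / 2 + (w.1.trace - w.2.trace) / 2) ∧
    w.1.det = (w.2.trace / 2 + (w.1.trace - w.2.trace) / 2) ^ 2 - D w.2 / 4 ∧
    w.2.trace = 2 * (w.2.trace / 2) ∧ w.2.det = (w.2.trace / 2) ^ 2 - D w.2 / 4 := by
  have hchar : CharZero F := charZero_of_injective_algebraMap (algebraMap ℚ_[p] F).injective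
  have hD : D w.1 = D w.2 := by
    rw [← D_conj T.mul_inv w.1, H.scalar hw, D_add_scalar]
  refine ⟨by ring, ?_, by ring, ?_⟩
  · rw [← hD]
    unfold D
    ring
  · unfold D
    ring

/-- the ratio of the discriminant and the square of the difference of the traces -/
theorem Dat2.relZ {g h : Submodule ℚ_[p] (M2 F × M2 F)} {T : (M2 F)ˣ} (H : Dat2 g h T)
    {w : M2 F × M2 F} (hw : w ∈ g) (hγ : w.1.trace - w.2.trace ≠ 0)
    (he : w.1.trace + w.2.trace ≠ 0) {z : M2 F × M2 F} (hz : z ∈ h) (hB : B w.2 z.2 = 0)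
    (hD : D z.2 ≠ 0) : Rel p (D z.2) (((w.1.trace - w.2.trace) / 2) ^ 2) := by
  have hchar : CharZero F := charZero_of_injective_algebraMap (algebraMap ℚ_[p] F).injective
  have h2 : (2 : F) ≠ 0 := two_ne_zero
  set γ : F := (w.1.trace - w.2.trace) / 2 with hγd
  set τ : F := w.2.trace / 2 with hτd
  have hγ0 : γ ≠ 0 := div_ne_zero hγ h2
  have he0 : γ + 2 * τ ≠ 0 := by
    intro h0
    apply he
    rw [hγd, hτd] at h0
    linear_combination 2 * h0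
  have hall : ∀ n : ℕ, (∃ q : ℚ_[p], 4 * (τ + algebraMap ℚ_[p] F q * γ) ^ 2 =
      D w.2 + (algebraMap ℚ_[p] F (((p : ℚ_[p])⁻¹) ^ n)) ^ 2 * D z.2) ∨
      (∃ q : ℚ_[p], 4 * (-τ + algebraMap ℚ_[p] F q * (γ + 2 * τ)) ^ 2 =
      D w.2 + (algebraMap ℚ_[p] F (((p : ℚ_[p])⁻¹) ^ n)) ^ 2 * D z.2) := by
    intro n
    have hwn : w + ((p : ℚ_[p])⁻¹) ^ n • z ∈ g := g.add_mem hw (g.smul_mem _ (H.le hz))
    have e1 : ((p : ℚ_[p])⁻¹) ^ n • z.1 = algebraMap ℚ_[p] F (((p : ℚ_[p])⁻¹) ^ n) • z.1 := by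
      rw [algebraMap_smul]
    have e2 : ((p : ℚ_[p])⁻¹) ^ n • z.2 = algebraMap ℚ_[p] F (((p : ℚ_[p])⁻¹) ^ n) • z.2 := by
      rw [algebraMap_smul]
    have t1 : (w + ((p : ℚ_[p])⁻¹) ^ n • z).1.trace = w.1.trace := by
      rw [Prod.fst_add, Prod.smul_fst, e1, Matrix.trace_add, Matrix.trace_smul, (H.tr z hz).1,
        smul_zero, add_zero]
    have t2 : (w + ((p : ℚ_[p])⁻¹) ^ n • z).2.trace = w.2.trace := by
      rw [Prod.snd_add, Prod.smul_snd, e2, Matrix.trace_add, Matrix.trace_smul, (H.tr z hz).2,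
        smul_zero, add_zero]
    have d2 : D (w + ((p : ℚ_[p])⁻¹) ^ n • z).2 =
        D w.2 + (algebraMap ℚ_[p] F (((p : ℚ_[p])⁻¹) ^ n)) ^ 2 * D z.2 := by
      rw [Prod.snd_add, Prod.smul_snd, e2, D_add, D_smul, B_smul_right, hB]
      ring
    have hv := H.vals hwn
    rw [t1, t2, d2] at hv
    obtain ⟨v1, v2, v3, v4⟩ := hv
    rw [← hγd, ← hτd] at v2
    rw [← hτd] at v4
    have v1' : (w + ((p : ℚ_[p])⁻¹) ^ n • z).1.trace = 2 * (τ + γ) := by rw [t1]; exact v1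
    have v3' : (w + ((p : ℚ_[p])⁻¹) ^ n • z).2.trace = 2 * τ := by rw [t2]; exact v3
    rcases (H.rel _ hwn).dichotomy v1' v2 v3' v4 hγ0 he0 with ⟨q, hq⟩ | ⟨q, hq⟩
    · left
      refine ⟨q, ?_⟩
      rw [hq]
      ring
    · right
      refine ⟨q, ?_⟩
      rw [hq]
      ring
  have hfr := Filter.frequently_or_distrib.1 (Filter.Frequently.of_forall (f := atTop) hall)
  rcases hfr with hI | hII
  · exact (lemM hγ0 hD hI).2
  · obtain ⟨⟨ρ, hρ⟩, hrel⟩ := lemM he0 hD hII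
    have h1 : γ = algebraMap ℚ_[p] F (1 + 2 * ρ) * (γ + 2 * τ) := by
      rw [map_add, map_one, map_mul, map_ofNat]
      linear_combination 2 * hρ
    have h3 : (1 + 2 * ρ) ≠ 0 := by
      intro h0
      rw [h0, map_zero, zero_mul] at h1
      exact hγ0 h1
    refine Rel.left (inv_ne_zero h3) ?_
    have h4 : ((1 + 2 * ρ)⁻¹) ^ 2 • γ ^ 2 = (γ + 2 * τ) ^ 2 := by
      conv_lhs => rw [h1]
      rw [Algebra.smul_def, mul_pow, map_pow, map_inv₀, ← mul_assoc, ← mul_pow, inv_mul_cancel₀, one_pow,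
        one_mul]
      exact (map_ne_zero_iff _ (algebraMap ℚ_[p] F).injective).2 h3
    rw [h4]
    exact hrel

/-- **the traces agree or are opposite** -/
theorem Dat2.contra {g h : Submodule ℚ_[p] (M2 F × M2 F)} {T : (M2 F)ˣ} (H : Dat2 g h T)
    {w : M2 F × M2 F} (hw : w ∈ g) (hγ : w.1.trace - w.2.trace ≠ 0)
    (he : w.1.trace + w.2.trace ≠ 0) : False := by
  have hchar : CharZero F := charZero_of_injective_algebraMap (algebraMap ℚ_[p] F).injective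
  -- an element with non-zero discriminant
  obtain ⟨z₀, hz₀, hD₀⟩ : ∃ z₀ ∈ h, D (w.2 + z₀.2) ≠ 0 := by
    by_contra hcon
    push Not at hcon
    obtain ⟨Z, ⟨Z₁, hZ⟩, hDZ⟩ := exists_D H.sp P2_add
    apply hDZ
    have e0 := hcon 0 h.zero_mem
    have e1 := hcon _ hZ
    have e2 := hcon _ (h.neg_mem hZ)
    rw [Prod.snd_zero, add_zero] at e0
    simp only [Prod.neg_mk] at e1 e2
    rw [D_add, e0] at e1
    have e3 : w.2 + -Z = w.2 + (-1 : F) • Z := by rw [neg_one_smul]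
    rw [e3, D_add, D_smul, B_smul_right, e0] at e2
    have h5 : (2 : F) * D Z = 0 := by linear_combination e1 + e2
    exact (mul_eq_zero.1 h5).resolve_left two_ne_zero
  set w' := w + z₀ with hw'd
  have hw' : w' ∈ g := g.add_mem hw (H.le hz₀)
  have t1 : w'.1.trace = w.1.trace := by
    rw [hw'd, Prod.fst_add, Matrix.trace_add, (H.tr z₀ hz₀).1, add_zero]
  have t2 : w'.2.trace = w.2.trace := by
    rw [hw'd, Prod.snd_add, Matrix.trace_add, (H.tr z₀ hz₀).2, add_zero]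
  have hγ' : w'.1.trace - w'.2.trace ≠ 0 := by rwa [t1, t2]
  have he' : w'.1.trace + w'.2.trace ≠ 0 := by rwa [t1, t2]
  have hD' : D w'.2 ≠ 0 := hD₀
  obtain ⟨x₂, ⟨x₁, hx⟩, hDx⟩ := exists_br H.sp P2_add hD'
  have hz₁ := H.brm w' hw' _ hx
  have hz₂ := H.brm w' hw' _ hz₁
  simp only at hz₁ hz₂
  have hB₁ : B w'.2 (br w'.2 x₂) = 0 := B_br _ _
  have hB₂ : B w'.2 (br w'.2 (br w'.2 x₂)) = 0 := B_br _ _
  have hD₂ : D (br w'.2 (br w'.2 x₂)) ≠ 0 := by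
    rw [D_br, hB₁]
    simp only [ne_eq, OfNat.ofNat_ne_zero, not_false_eq_true, zero_pow, zero_sub, neg_eq_zero,
      mul_eq_zero, not_or]
    exact ⟨hD', hDx⟩
  have hB₁₂ : B (br w'.2 x₂) (br w'.2 (br w'.2 x₂)) = 0 := by
    have h1 : br w'.2 (br w'.2 x₂) = (-1 : F) • br (br w'.2 x₂) w'.2 := by
      rw [neg_one_smul]
      exact Gen.br_anti _ _
    rw [h1, B_smul_right, B_br, mul_zero]
  set γ : F := (w'.1.trace - w'.2.trace) / 2 with hγd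
  have hγ0 : γ ^ 2 ≠ 0 := pow_ne_zero 2 (div_ne_zero hγ' two_ne_zero)
  obtain ⟨s₁, hs₁⟩ := (H.relZ hw' hγ' he' hz₁ hB₁ hDx).eq hγ0
  obtain ⟨s₂, hs₂⟩ := (H.relZ hw' hγ' he' hz₂ hB₂ hD₂).eq hγ0
  simp only at hs₁ hs₂
  rw [← hγd] at hs₁ hs₂
  have hs₁0 : s₁ ≠ 0 := by
    rintro rfl
    apply hDx
    rw [hs₁]
    simp
  have hs₂0 : s₂ ≠ 0 := by
    rintro rfl
    apply hD₂
    rw [hs₂]
    simp
  apply not_sum_squares (p := p)
  intro x y
  have hz := h.add_mem (h.smul_mem (x / s₁) hz₁) (h.smul_mem (y / s₂) hz₂)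
  have e1 : (x / s₁) • br w'.2 x₂ = (algebraMap ℚ_[p] F (x / s₁)) • br w'.2 x₂ := by
    rw [algebraMap_smul]
  have e2 : (y / s₂) • br w'.2 (br w'.2 x₂) =
      (algebraMap ℚ_[p] F (y / s₂)) • br w'.2 (br w'.2 x₂) := by rw [algebraMap_smul]
  have hDz : D ((x / s₁) • br w'.2 x₂ + (y / s₂) • br w'.2 (br w'.2 x₂)) =
      (x ^ 2 + y ^ 2) • γ ^ 2 := by
    have h3 : (x / s₁) ^ 2 * s₁ ^ 2 = x ^ 2 := by
      rw [← mul_pow, div_mul_cancel₀ _ hs₁0]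
    have h4 : (y / s₂) ^ 2 * s₂ ^ 2 = y ^ 2 := by
      rw [← mul_pow, div_mul_cancel₀ _ hs₂0]
    rw [e1, e2, D_add, D_smul, D_smul, B_smul_left, B_smul_right, hB₁₂, hs₁, hs₂, mul_zero, mul_zero,
      mul_zero, add_zero, ← map_pow, ← map_pow, ← Algebra.smul_def, ← Algebra.smul_def, smul_smul,
      smul_smul, ← add_smul, h3, h4]
  by_cases h0 : D ((x / s₁) • br w'.2 x₂ + (y / s₂) • br w'.2 (br w'.2 x₂)) = 0
  · rw [hDz, smul_eq_zero] at h0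
    refine ⟨0, ?_⟩
    rw [h0.resolve_right hγ0]
    ring
  · have hBz : B w'.2 ((x / s₁) • br w'.2 x₂ + (y / s₂) • br w'.2 (br w'.2 x₂)) = 0 := by
      rw [e1, e2, B_add_right, B_smul_right, B_smul_right, hB₁, hB₂]
      ring
    obtain ⟨s, hs⟩ := (H.relZ hw' hγ' he' hz hBz h0).eq hγ0
    refine ⟨s, ?_⟩
    have h5 : D ((x / s₁) • br w'.2 x₂ + (y / s₂) • br w'.2 (br w'.2 x₂)) = s ^ 2 • γ ^ 2 := hs
    rw [hDz] at h5
    have h6 : (x ^ 2 + y ^ 2 - s ^ 2) • γ ^ 2 = 0 := by rw [sub_smul, h5, sub_self]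
    exact sub_eq_zero.1 ((smul_eq_zero.1 h6).resolve_right hγ0)

theorem Dat2.dich {g h : Submodule ℚ_[p] (M2 F × M2 F)} {T : (M2 F)ˣ} (H : Dat2 g h T) :
    (∀ w ∈ g, w.1.trace = w.2.trace) ∨ (∀ w ∈ g, w.1.trace = -w.2.trace) := by
  by_contra hcon
  push Not at hcon
  obtain ⟨⟨w, hw, h1⟩, ⟨w', hw', h2⟩⟩ := hcon
  have h1' : w.1.trace - w.2.trace ≠ 0 := sub_ne_zero.2 h1
  have h2' : w'.1.trace + w'.2.trace ≠ 0 := fun h => h2 (by linear_combination h)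
  have h3 : w.1.trace + w.2.trace = 0 := by
    by_contra h
    exact H.contra hw h1' h
  have h4 : w'.1.trace - w'.2.trace = 0 := by
    by_contra h
    exact H.contra hw' h h2'
  refine H.contra (g.add_mem hw hw') ?_ ?_
  · rw [Prod.fst_add, Prod.snd_add, Matrix.trace_add, Matrix.trace_add]
    intro h
    apply h1'
    linear_combination h - h4
  · rw [Prod.fst_add, Prod.snd_add, Matrix.trace_add, Matrix.trace_add]
    intro h
    apply h2'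
    linear_combination h - h3

end Pool.Agent.H86.FM.One
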