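import Pool.Agent.H86.FM.One
import Pool.Agent.H86.FM.Mn

/-!
# One eigenvalue of each: the main argument
-/

set_option autoImplicit false
set_option linter.unusedSectionVars false

namespace Pool.Agent.H86.FM.OneMn

open Filter Topology Matrix NumberField IsDedekindDomain
open Pool.Agent.H86.FM.Alg Pool.Agent.H86.FM.Cone Pool.Agent.H86.FM.Lg Pool.Agent.H86.FM.Str
open Pool.Agent.H86.FM.Dep Pool.Agent.H86.FM.Rs Pool.Agent.H86.FM.One Pool.Agent.H86.FM.Mn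
open Pool.Agent.N817.PL Pool.Agent.N817.PL.Nrm
open Pool.Agent.W401.Cheb Pool.Agent.W528.Ord

section lg

variable {p : ℕ} [hp : Fact p.Prime] {R : Type*} [NormedRing R] [IsUltrametricDist R]
  [NormedAlgebra ℚ_[p] R]

/-- the logarithm of the inverse -/
theorem lg_inv [CompleteSpace R] {x y : R} (hx : ‖x‖ ≤ 1 / 4) (hy : ‖y‖ ≤ 1 / 4)
    (hxy : (1 + y) * (1 + x) = 1) (hyx : (1 + x) * (1 + y) = 1) : lg p y = -lg p x := by
  apply lg_eq
  have h1 : ∀ n : ℕ, (1 + y) ^ n * (1 + x) ^ n = 1 := by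
    intro n
    have hc : Commute (1 + y) (1 + x) := by
      rw [Commute, SemiconjBy, hxy, hyx]
    rw [← hc.mul_pow, hxy, one_pow]
  have h2 : ∀ k : ℕ, Log.f p k y = -((1 + y) ^ p ^ k * Log.f p k x) := by
    intro k
    unfold Log.f
    rw [mul_smul_comm, mul_sub, h1, mul_one, ← smul_neg, neg_sub]
  simp_rw [h2]
  have h3 := tendsto_one (p := p) hy 1
  simp only [one_mul] at h3
  have h4 := (h3.mul (tendsto_lg (p := p) hx)).neg
  rwa [one_mul] at h4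

/-- the logarithm is injective -/
theorem lg_inj [CompleteSpace R] {x y : R} (hx : ‖x‖ ≤ 1 / 4) (hy : ‖y‖ ≤ 1 / 4)
    (h : lg p x = lg p y) : x = y := by
  have h1 : Tendsto (fun k => Log.f p k x - Log.f p k y) atTop (𝓝 0) := by
    have := (tendsto_lg (p := p) hx).sub (tendsto_lg (p := p) hy)
    rwa [h, sub_self] at this
  have h2 : ∀ k, ‖x - y‖ ≤ ‖Log.f p k x - Log.f p k y‖ + 1 / 2 * ‖x - y‖ := by
    intro k
    have h3 := Log.phi_lip (p := p) le_rfl hx hy k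
    have h4 : x - y = (Log.f p k x - Log.f p k y) + (Log.φ p k x - Log.φ p k y) := by
      unfold Log.φ
      abel
    calc ‖x - y‖ = ‖(Log.f p k x - Log.f p k y) + (Log.φ p k x - Log.φ p k y)‖ := by rw [← h4]
      _ ≤ _ := norm_add_le _ _
      _ ≤ _ := by linarith
  have h3 : ‖x - y‖ ≤ 0 + 1 / 2 * ‖x - y‖ := by
    have h4 := (h1.norm).add_const (1 / 2 * ‖x - y‖)
    rw [norm_zero] at h4
    exact ge_of_tendsto h4 (Eventually.of_forall h2)
  have h4 : ‖x - y‖ = 0 := by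
    have := norm_nonneg (x - y)
    linarith
  exact sub_eq_zero.1 (norm_eq_zero.1 h4)

end lg

attribute [local instance] nring nalg

section mat

variable {p : ℕ} [hp : Fact p.Prime] {F : Type*} [NormedField F] [NormedAlgebra ℚ_[p] F]
  [IsUltrametricDist F] [CompleteSpace F]

theorem continuous_Rs2 : Continuous fun w : M2 F × M2 F => Rs.Rs w.1 w.2 := by
  have h : (fun w : M2 F × M2 F => Rs.Rs w.1 w.2) = fun w =>
      ((w.1 0 0 * w.1 1 1 - w.1 0 1 * w.1 1 0) - (w.2 0 0 * w.2 1 1 - w.2 0 1 * w.2 1 0)) ^ 2 +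
      ((w.1 0 0 + w.1 1 1) - (w.2 0 0 + w.2 1 1)) *
        ((w.1 0 0 + w.1 1 1) * (w.2 0 0 * w.2 1 1 - w.2 0 1 * w.2 1 0) -
          (w.2 0 0 + w.2 1 1) * (w.1 0 0 * w.1 1 1 - w.1 0 1 * w.1 1 0)) := by
    ext w
    unfold Rs.Rs
    rw [Matrix.det_fin_two, Matrix.det_fin_two, Matrix.trace_fin_two, Matrix.trace_fin_two]
  rw [h]
  have e1 : ∀ i j, Continuous fun w : M2 F × M2 F => w.1 i j := fun i j =>
    (continuous_apply j).comp ((continuous_apply i).comp continuous_fst)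
  have e2 : ∀ i j, Continuous fun w : M2 F × M2 F => w.2 i j := fun i j =>
    (continuous_apply j).comp ((continuous_apply i).comp continuous_snd)
  have e3 := e1 0 0
  have e4 := e1 0 1
  have e5 := e1 1 0
  have e6 := e1 1 1
  have f3 := e2 0 0
  have f4 := e2 0 1
  have f5 := e2 1 0
  have f6 := e2 1 1
  fun_prop

attribute [local irreducible] Rs.Rs in
/-- a common eigenvalue of powers -/
theorem relE_of {A C : M2 F} {N : ℕ} (hA : ‖A ^ N - 1‖ ≤ 1 / 4) (hC : ‖C ^ N - 1‖ ≤ 1 / 4) {k l : ℕ}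
    (h : ∀ j, Rs.Rs (A ^ (k * j)) (C ^ (l * j)) = 0) :
    Rs.Rs (algebraMap ℚ_[p] F k • lg p (A ^ N - 1)) (algebraMap ℚ_[p] F l • lg p (C ^ N - 1)) = 0 := by
  have hcomp : @CompleteSpace (M2 F) PseudoMetricSpace.toUniformSpace := complete
  have hult : IsUltrametricDist (M2 F) := ultraMat
  have hx := tendsto_pow (p := p) hA k
  have hy := tendsto_pow (p := p) hC l
  rw [add_sub_cancel] at hx hy
  have e1 : Tendsto (fun i : ℕ => Rs.Rs (((p : ℚ_[p])⁻¹) ^ i • ((A ^ N) ^ (k * p ^ i) - 1))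
      (((p : ℚ_[p])⁻¹) ^ i • ((C ^ N) ^ (l * p ^ i) - 1))) atTop
      (𝓝 (Rs.Rs ((k : ℚ_[p]) • lg p (A ^ N - 1)) ((l : ℚ_[p]) • lg p (C ^ N - 1)))) :=
    (continuous_Rs2.tendsto ((k : ℚ_[p]) • lg p (A ^ N - 1), (l : ℚ_[p]) • lg p (C ^ N - 1))).comp
      (hx.prodMk_nhds hy)
  have e2 : ∀ i : ℕ, Rs.Rs (((p : ℚ_[p])⁻¹) ^ i • ((A ^ N) ^ (k * p ^ i) - 1))
      (((p : ℚ_[p])⁻¹) ^ i • ((C ^ N) ^ (l * p ^ i) - 1)) = 0 := by
    intro i
    have h1 := h (N * p ^ i)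
    have h2 : ∀ (M : M2 F) (m : ℕ), (M ^ N) ^ (m * p ^ i) = M ^ (m * (N * p ^ i)) := by
      intro M m
      rw [← pow_mul]
      congr 1
      ring
    have e3 : ∀ M : M2 F, ((p : ℚ_[p])⁻¹) ^ i • M = algebraMap ℚ_[p] F (((p : ℚ_[p])⁻¹) ^ i) • M :=
      fun M => by rw [algebraMap_smul]
    rw [h2, h2, e3, e3, Rs_smul, Rs_sub_one, h1, mul_zero]
  simp_rw [e2] at e1
  have e4 := tendsto_nhds_unique e1 tendsto_const_nhds
  have e5 : algebraMap ℚ_[p] F k • lg p (A ^ N - 1) = (k : ℚ_[p]) • lg p (A ^ N - 1) := by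
    rw [algebraMap_smul]
  have e6 : algebraMap ℚ_[p] F l • lg p (C ^ N - 1) = (l : ℚ_[p]) • lg p (C ^ N - 1) := by
    rw [algebraMap_smul]
  rw [e5, e6]
  exact e4

theorem relE_pos {A C : M2 F} {N : ℕ} (hA : ‖A ^ N - 1‖ ≤ 1 / 4) (hC : ‖C ^ N - 1‖ ≤ 1 / 4) {k l : ℕ}
    (hkl : k ≠ 0 ∨ l ≠ 0) (h : ∀ j, Rs.Rs (A ^ (k * j)) (C ^ (l * j)) = 0) :
    RelE p (lg p (A ^ N - 1)) (lg p (C ^ N - 1)) := by
  refine ⟨k, l, ?_, relE_of hA hC h⟩
  rcases hkl with h | h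
  · left
    exact_mod_cast h
  · right
    exact_mod_cast h

theorem relE_neg {A C C' : M2 F} {N : ℕ} (hA : ‖A ^ N - 1‖ ≤ 1 / 4) (hC : ‖C ^ N - 1‖ ≤ 1 / 4)
    (hC' : ‖C' ^ N - 1‖ ≤ 1 / 4) (hCC : C * C' = 1) {k l : ℕ}
    (hkl : k ≠ 0 ∨ l ≠ 0) (h : ∀ j, Rs.Rs (A ^ (k * j)) (C' ^ (l * j)) = 0) :
    RelE p (lg p (A ^ N - 1)) (lg p (C ^ N - 1)) := by
  have hcomp : @CompleteSpace (M2 F) PseudoMetricSpace.toUniformSpace := complete
  have hult : IsUltrametricDist (M2 F) := ultraMat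
  have hCC' : C' * C = 1 := mul_eq_one_comm.1 hCC
  have h1 : lg p (C' ^ N - 1) = -lg p (C ^ N - 1) := by
    have hc : Commute C C' := by rw [Commute, SemiconjBy, hCC, hCC']
    refine lg_inv hC hC' ?_ ?_
    · rw [add_sub_cancel, add_sub_cancel, ← hc.symm.mul_pow, hCC', one_pow]
    · rw [add_sub_cancel, add_sub_cancel, ← hc.mul_pow, hCC, one_pow]
  refine ⟨k, -l, ?_, ?_⟩
  · rcases hkl with h | h
    · left
      exact_mod_cast h
    · right
      rw [neg_ne_zero]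
      exact_mod_cast h
  · have h2 := relE_of (p := p) hA hC' h
    rw [h1, smul_neg, ← neg_smul, ← map_neg] at h2
    exact h2

end mat

section lie

variable {p : ℕ} [hp : Fact p.Prime] {F : Type*} [NormedField F] [NormedAlgebra ℚ_[p] F]
  [IsUltrametricDist F] [CompleteSpace F] {G : Type*} [Group G]

theorem relE_L (V W : G →* M2 F) (U : Subgroup G) (hsV : ∀ u ∈ U, ‖V u - 1‖ ≤ 1 / 4)
    (hsW : ∀ u ∈ U, ‖W u - 1‖ ≤ 1 / 4)
    (hrel : ∀ u ∈ U, RelE p (lg p (V u - 1)) (lg p (W u - 1))) (w : M2 F × M2 F)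
    (hw : w ∈ Lim.L p (V.prod W) U) : RelE p w.1 w.2 := by
  have hcomp : @CompleteSpace (M2 F) PseudoMetricSpace.toUniformSpace := complete
  have hult : IsUltrametricDist (M2 F) := ultraMat
  obtain ⟨u, hu, hlim⟩ := hw
  have h1 : Tendsto (fun k => ((p : ℚ_[p])⁻¹) ^ k • (V (u k) - 1)) atTop (𝓝 w.1) :=
    (continuous_fst.tendsto _).comp hlim
  have h2 : Tendsto (fun k => ((p : ℚ_[p])⁻¹) ^ k • (W (u k) - 1)) atTop (𝓝 w.2) :=
    (continuous_snd.tendsto _).comp hlim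
  have h3 := tendsto_quot (fun k => hsV _ (hu k)) h1
  have h4 := tendsto_quot (fun k => hsW _ (hu k)) h2
  refine RelE.tendsto h3 h4 fun k => ?_
  have h5 := (hrel _ (hu k)).smul (algebraMap ℚ_[p] F (((p : ℚ_[p])⁻¹) ^ k))
  have e3 : ∀ M : M2 F, algebraMap ℚ_[p] F (((p : ℚ_[p])⁻¹) ^ k) • M = ((p : ℚ_[p])⁻¹) ^ k • M :=
    fun M => by rw [algebraMap_smul]
  rwa [e3, e3] at h5

/-- the pairs of matrices of trace zero -/
def tz0 (g : Submodule ℚ_[p] (M2 F × M2 F)) : Submodule ℚ_[p] (M2 F × M2 F) where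
  carrier := {w | w ∈ g ∧ w.1.trace = 0 ∧ w.2.trace = 0}
  add_mem' := by
    rintro a b ⟨ha, ha1, ha2⟩ ⟨hb, hb1, hb2⟩
    refine ⟨g.add_mem ha hb, ?_, ?_⟩
    · rw [Prod.fst_add, Matrix.trace_add, ha1, hb1, add_zero]
    · rw [Prod.snd_add, Matrix.trace_add, ha2, hb2, add_zero]
  zero_mem' := ⟨g.zero_mem, by simp, by simp⟩
  smul_mem' := by
    rintro c a ⟨ha, ha1, ha2⟩
    refine ⟨g.smul_mem c ha, ?_, ?_⟩
    · rw [Prod.smul_fst, Matrix.trace_smul, ha1, smul_zero]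
    · rw [Prod.smul_snd, Matrix.trace_smul, ha2, smul_zero]

theorem trace_conj' {P Q : M2 F} (hPQ : P * Q = 1) (X : M2 F) : (P * X * Q).trace = X.trace := by
  have h' : Q * P = 1 := mul_eq_one_comm.1 hPQ
  rw [Matrix.trace_mul_comm, ← mul_assoc, h', one_mul]

theorem dat2 (V W : G →* M2 F) {C : ℝ} (hCV : ∀ g, ‖V g‖ ≤ C) (hCW : ∀ g, ‖W g‖ ≤ C)
    (U : Subgroup G) (hUn : ∀ g : G, ∀ v ∈ U, g * v * g⁻¹ ∈ U) (hsV : ∀ u ∈ U, ‖V u - 1‖ ≤ 1 / 4)
    (hsW : ∀ u ∈ U, ‖W u - 1‖ ≤ 1 / 4) (hspV : Submodule.span F (V '' U) = ⊤)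
    (hspW : Submodule.span F (W '' U) = ⊤)
    (hrel : ∀ u ∈ U, RelE p (lg p (V u - 1)) (lg p (W u - 1))) :
    ∃ T : (M2 F)ˣ, Dat2 (Lim.L p (V.prod W) U) (tz0 (Lim.L p (V.prod W) U)) T := by
  have hchar : CharZero F := charZero_of_injective_algebraMap (algebraMap ℚ_[p] F).injective
  have hC : ∀ g, ‖V.prod W g‖ ≤ C := by
    intro g
    rw [Prod.norm_def]
    exact max_le (hCV g) (hCW g)
  set L := Lim.L p (V.prod W) U with hL
  have hbr : ∀ w ∈ L, ∀ z ∈ L, (br w.1 z.1, br w.2 z.2) ∈ tz0 L := by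
    intro w hw z hz
    exact ⟨Lim.lie_mem hC hw hz, trace_br _ _, trace_br _ _⟩
  have hrelL := relE_L V W U hsV hsW hrel
  have hst : ∀ u ∈ U, ∀ X Y, (X, Y) ∈ tz0 L → (V u * X * V u⁻¹, W u * Y * W u⁻¹) ∈ tz0 L := by
    rintro u hu X Y ⟨h1, h2, h3⟩
    refine ⟨conj_L V W U u (hUn u) h1, ?_, ?_⟩
    · simp only
      rw [trace_conj' (inv_right V u)]
      exact h2
    · simp only
      rw [trace_conj' (inv_right W u)]
      exact h3
  have spL1 : Sp (P1 L) := by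
    refine sp_of p V U hsV hspV _ ?_ ?_
    · rintro u hu X ⟨Y, hXY⟩
      exact ⟨_, conj_L V W U u (hUn u) hXY⟩
    · obtain ⟨u, hu, h⟩ := not_scalar (p := p) V U hsV hspV
      exact ⟨_, ⟨_, mem_L_log V W U hsV hsW u hu⟩, h⟩
  have spL2 : Sp (P2 L) := by
    refine sp_of p W U hsW hspW _ ?_ ?_
    · rintro u hu X ⟨Y, hXY⟩
      exact ⟨_, conj_L V W U u (hUn u) hXY⟩
    · obtain ⟨u, hu, h⟩ := not_scalar (p := p) W U hsW hspW
      exact ⟨_, ⟨_, mem_L_log V W U hsV hsW u hu⟩, h⟩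
  have sp1 : Sp (P1 (tz0 L)) := by
    refine sp_of p V U hsV hspV _ ?_ ?_
    · rintro u hu X ⟨Y, hXY⟩
      exact ⟨_, hst u hu _ _ hXY⟩
    · obtain ⟨u, hu, hns⟩ := not_scalar (p := p) V U hsV hspV
      have hX := mem_L_log (p := p) V W U hsV hsW u hu
      obtain ⟨Z, ⟨Z', hZ⟩, hne⟩ : ∃ Z ∈ P1 L, br (lg p (V u - 1)) Z ≠ 0 := by
        by_contra hcon
        push Not at hcon
        obtain ⟨c, hc⟩ := scalar_of_br_set spL1 hcon
        exact hns c hc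
      refine ⟨br (lg p (V u - 1)) Z, ⟨_, hbr _ hX _ hZ⟩, fun c hc => hne ?_⟩
      exact zero_of_scalar hc (trace_br _ _)
  have sp2 : Sp (P2 (tz0 L)) := by
    refine sp_of p W U hsW hspW _ ?_ ?_
    · rintro u hu X ⟨Y, hXY⟩
      exact ⟨_, hst u hu _ _ hXY⟩
    · obtain ⟨u, hu, hns⟩ := not_scalar (p := p) W U hsW hspW
      have hX := mem_L_log (p := p) V W U hsV hsW u hu
      obtain ⟨Z, ⟨Z', hZ⟩, hne⟩ : ∃ Z ∈ P2 L, br (lg p (W u - 1)) Z ≠ 0 := by
        by_contra hcon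
        push Not at hcon
        obtain ⟨c, hc⟩ := scalar_of_br_set spL2 hcon
        exact hns c hc
      refine ⟨br (lg p (W u - 1)) Z, ⟨_, hbr _ hX _ hZ⟩, fun c hc => hne ?_⟩
      exact zero_of_scalar hc (trace_br _ _)
  have hd : Dat (tz0 L) := by
    refine Gen.dat_of _ ?_ ?_ sp1 (exists_D sp2 P2_add)
    · intro w hw z hz
      exact hbr w hw.1 z hz.1
    · intro w hw
      exact (hrelL w hw.1).rel hw.2.1 hw.2.2
  obtain ⟨T, hT⟩ := Aut.exists_graph hd (fun z hz => hz.2)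
  refine ⟨T, ⟨fun w hw => hw.1, ?_, hrelL, sp2, fun z hz => hz.2, hT⟩⟩
  intro w hw z hz
  exact hbr w hw z hz.1

/-- the dual representation -/
def du (W : G →* M2 F) : G →* M2 F where
  toFun g := (W g⁻¹)ᵀ
  map_one' := by simp
  map_mul' g h := by simp [Matrix.transpose_mul]

theorem du_apply (W : G →* M2 F) (g : G) : du W g = (W g⁻¹)ᵀ := rfl

theorem norm_transpose' (X : M2 F) : ‖Xᵀ‖ ≤ ‖X‖ := by
  rw [norm_le (norm_nonneg X)]
  intro i j
  rw [Matrix.transpose_apply]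
  exact norm_entry X j i

theorem lg_transpose {x : M2 F} (hx : ‖x‖ ≤ 1 / 4) : lg p xᵀ = (lg p x)ᵀ := by
  have hcomp : @CompleteSpace (M2 F) PseudoMetricSpace.toUniformSpace := complete
  have hult : IsUltrametricDist (M2 F) := ultraMat
  apply lg_eq
  have h1 : ∀ k, Log.f p k xᵀ = (Log.f p k x)ᵀ := by
    intro k
    unfold Log.f
    rw [Matrix.transpose_smul, Matrix.transpose_sub, Matrix.transpose_one, Matrix.transpose_pow,
      Matrix.transpose_add, Matrix.transpose_one]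
  simp_rw [h1]
  rw [tendsto_iff_norm_sub_tendsto_zero]
  have h2 := tendsto_iff_norm_sub_tendsto_zero.1 (tendsto_lg (p := p) hx)
  refine squeeze_zero (fun k => norm_nonneg _) (fun k => ?_) h2
  rw [← Matrix.transpose_sub]
  exact norm_transpose' _

/-- the logarithm of the dual representation -/
theorem lg_du (W : G →* M2 F) (U : Subgroup G) (hsW : ∀ u ∈ U, ‖W u - 1‖ ≤ 1 / 4) (u : G)
    (hu : u ∈ U) : lg p (du W u - 1) = -(lg p (W u - 1))ᵀ := by
  have hcomp : @CompleteSpace (M2 F) PseudoMetricSpace.toUniformSpace := complete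
  have hult : IsUltrametricDist (M2 F) := ultraMat
  have h1 : du W u - 1 = (W u⁻¹ - 1)ᵀ := by
    rw [du_apply, Matrix.transpose_sub, Matrix.transpose_one]
  rw [h1, lg_transpose (hsW _ (U.inv_mem hu)), ← Matrix.transpose_neg]
  congr 1
  refine lg_inv (hsW u hu) (hsW _ (U.inv_mem hu)) ?_ ?_
  · rw [add_sub_cancel, add_sub_cancel, inv_left]
  · rw [add_sub_cancel, add_sub_cancel, inv_right]

/-- conjugate logarithms -/
theorem eq_of_lg (V W : G →* M2 F) (U : Subgroup G) (hsV : ∀ u ∈ U, ‖V u - 1‖ ≤ 1 / 4)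
    (hsW : ∀ u ∈ U, ‖W u - 1‖ ≤ 1 / 4) (T : (M2 F)ˣ) (u : G) (hu : u ∈ U)
    (hT : ‖(T : M2 F) * V u * ((T⁻¹ : (M2 F)ˣ) : M2 F) - 1‖ ≤ 1 / 4)
    (h : (T : M2 F) * lg p (V u - 1) * ((T⁻¹ : (M2 F)ˣ) : M2 F) = lg p (W u - 1)) :
    (T : M2 F) * V u * ((T⁻¹ : (M2 F)ˣ) : M2 F) = W u := by
  have hcomp : @CompleteSpace (M2 F) PseudoMetricSpace.toUniformSpace := complete
  have hult : IsUltrametricDist (M2 F) := ultraMat
  have h1 : (T : M2 F) * (V u - 1) * ((T⁻¹ : (M2 F)ˣ) : M2 F) =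
      (T : M2 F) * V u * ((T⁻¹ : (M2 F)ˣ) : M2 F) - 1 := by
    rw [mul_sub, sub_mul, mul_one, T.mul_inv]
  rw [← lg_conj T.mul_inv T.inv_mul (hsV u hu), h1] at h
  have h2 := lg_inj hT (hsW u hu) h
  exact sub_left_injective h2

end lie

section J

variable {F : Type*} [Field F]

/-- the symplectic matrix -/
def JJ (F : Type*) [Field F] : (M2 F)ˣ where
  val := !![0, 1; -1, 0]
  inv := !![0, -1; 1, 0]
  val_inv := by
    ext i j
    fin_cases i <;> fin_cases j <;> simp [Matrix.mul_apply, Fin.sum_univ_two]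
  inv_val := by
    ext i j
    fin_cases i <;> fin_cases j <;> simp [Matrix.mul_apply, Fin.sum_univ_two]

theorem JJ_conj (Y : M2 F) : ((JJ F)⁻¹ : (M2 F)ˣ).val * (Y - Y.trace • 1) * (JJ F).val = -Yᵀ := by
  have e1 : ((JJ F)⁻¹ : (M2 F)ˣ).val = !![0, -1; 1, 0] := rfl
  have e2 : (JJ F).val = !![0, 1; -1, 0] := rfl
  rw [e1, e2]
  apply ext2 <;>
    simp [Matrix.mul_apply, Matrix.vecMul, dotProduct, Fin.sum_univ_two, Matrix.trace_fin_two]

end J

/-- **Main theorem.** -/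
theorem main {K : Type} [Field K] [NumberField K] (p : ℕ) [hp : Fact p.Prime] {F : Type}
    [NormedField F] [NormedAlgebra ℚ_[p] F] [FiniteDimensional ℚ_[p] F]
    (V W : GK K →* M2 F) (hV : Continuous V) (hW : Continuous W)
    (hspV : ∀ H : Subgroup (GK K), IsOpen (H : Set (GK K)) → Submodule.span F (V '' H) = ⊤)
    (hspW : ∀ H : Subgroup (GK K), IsOpen (H : Set (GK K)) → Submodule.span F (W '' H) = ⊤)
    (P : Set (HeightOneSpectrum (𝓞 K)))
    (hP : ∀ ε : ℝ, 0 < ε → ∃ᶠ x : ℕ in atTop, dens (fun v => v ∉ P) x ≤ ε)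
    (hdep : ∀ v ∈ P, ∃ g, IsFrob v g ∧ ∃ k l : ℕ, (k ≠ 0 ∨ l ≠ 0) ∧
      ((∀ j, Rs.Rs (V g ^ (k * j)) (W g ^ (l * j)) = 0) ∨
        (∀ j, Rs.Rs (V g ^ (k * j)) (W g⁻¹ ^ (l * j)) = 0))) :
    ∃ H : OpenNormalSubgroup (GK K), ∃ T : (M2 F)ˣ,
      (∀ h ∈ (H : Subgroup (GK K)), (T : M2 F) * V h * ((T⁻¹ : (M2 F)ˣ) : M2 F) = W h) ∨
      (∀ h ∈ (H : Subgroup (GK K)), (T : M2 F) * V h * ((T⁻¹ : (M2 F)ˣ) : M2 F) = (W h⁻¹)ᵀ) := by
  have hult : IsUltrametricDist F := ultra p F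
  have hcompF : CompleteSpace F := FiniteDimensional.complete ℚ_[p] F
  have hcomp : @CompleteSpace (M2 F) PseudoMetricSpace.toUniformSpace := complete
  have hultM : IsUltrametricDist (M2 F) := ultraMat
  have hchar : CharZero F := charZero_of_injective_algebraMap (algebraMap ℚ_[p] F).injective
  let instM : MeasurableSpace (GK K) := borel (GK K)
  have instB : BorelSpace (GK K) := ⟨rfl⟩
  obtain ⟨U₁, -, hU₁⟩ := Top.exists_small V hV Set.univ isOpen_univ (Set.mem_univ _)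
  obtain ⟨U, hUU, hU⟩ := Top.exists_small W hW ((U₁ : Subgroup (GK K)) : Set (GK K)) U₁.isOpen'
    (U₁ : Subgroup (GK K)).one_mem
  have hUn : (U : Subgroup (GK K)).Normal := U.isNormal'
  have hsV : ∀ u ∈ (U : Subgroup (GK K)), ‖V u - 1‖ ≤ 1 / 4 := fun u hu => hU₁ u (hUU hu)
  set N := (U : Subgroup (GK K)).index with hN
  have hN0 : 0 < N := Nat.pos_of_ne_zero (Top2.index_ne U)
  have hpowV : ∀ g, ‖V g ^ N - 1‖ ≤ 1 / 4 := by
    intro g
    rw [← map_pow]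
    exact hsV _ (Subgroup.pow_index_mem (U : Subgroup (GK K)) g)
  have hpowW : ∀ g, ‖W g ^ N - 1‖ ≤ 1 / 4 := by
    intro g
    rw [← map_pow]
    exact hU _ (Subgroup.pow_index_mem (U : Subgroup (GK K)) g)
  -- the closed set
  have hcV : Continuous fun g => lg p (V g ^ N - 1) :=
    continuous_lg (p := p) ((hV.pow N).sub continuous_const) hpowV
  have hcW : Continuous fun g => lg p (W g ^ N - 1) :=
    continuous_lg (p := p) ((hW.pow N).sub continuous_const) hpowW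
  have hall : ∀ g, RelE p (lg p (V g ^ N - 1)) (lg p (W g ^ N - 1)) := by
    have hclosed : IsClosed {g : GK K | RelE p (lg p (V g ^ N - 1)) (lg p (W g ^ N - 1))} := by
      have h1 : Continuous fun g : GK K => ((lg p (V g ^ N - 1), lg p (W g ^ N - 1)) :
        M2 F × M2 F) := hcV.prodMk hcW
      exact isClosed_relE.preimage h1
    refine Main2.closed_univ {g : GK K | RelE p (lg p (V g ^ N - 1)) (lg p (W g ^ N - 1))} hclosed
      ?_ P hP ?_
    · intro σ hσ τ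
      have hσ' : RelE p (lg p (V σ ^ N - 1)) (lg p (W σ ^ N - 1)) := hσ
      change RelE p (lg p (V (τ * σ * τ⁻¹) ^ N - 1)) (lg p (W (τ * σ * τ⁻¹) ^ N - 1))
      have e : ∀ R : GK K →* M2 F, (∀ g, ‖R g ^ N - 1‖ ≤ 1 / 4) →
          lg p (R (τ * σ * τ⁻¹) ^ N - 1) = R τ * lg p (R σ ^ N - 1) * R τ⁻¹ := by
        intro R hR
        have e1 : R (τ * σ * τ⁻¹) ^ N - 1 = R τ * (R σ ^ N - 1) * R τ⁻¹ := by
          rw [mul_sub, sub_mul, mul_one, inv_right, ← map_pow, ← map_pow, ← map_mul, ← map_mul]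
          congr 2
          rw [conj_pow]
        rw [e1, lg_conj (inv_right R τ) (inv_left R τ) (hR σ)]
      rw [e V hpowV, e W hpowW]
      exact hσ'.conj (inv_right V τ) (inv_right W τ)
    · intro v hv
      obtain ⟨g, hg, k, l, hkl, h⟩ := hdep v hv
      refine ⟨g, ?_, hg⟩
      rcases h with h | h
      · exact relE_pos (hpowV g) (hpowW g) hkl h
      · exact relE_neg (hpowV g) (hpowW g) (hpowW g⁻¹) (inv_right W g) hkl h
  have hrel : ∀ u ∈ (U : Subgroup (GK K)), RelE p (lg p (V u - 1)) (lg p (W u - 1)) := by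
    intro u hu
    have h1 := hall u
    have hNp : ((N : ℕ) : ℚ_[p]) ≠ 0 := by exact_mod_cast hN0.ne'
    have hNF : algebraMap ℚ_[p] F ((N : ℕ) : ℚ_[p]) ≠ 0 :=
      (map_ne_zero_iff _ (algebraMap ℚ_[p] F).injective).2 hNp
    have e : ∀ R : GK K →* M2 F, ‖R u - 1‖ ≤ 1 / 4 →
        lg p (R u ^ N - 1) = algebraMap ℚ_[p] F ((N : ℕ) : ℚ_[p]) • lg p (R u - 1) := by
      intro R hR
      have h2 := lg_pow (p := p) hR N
      rw [add_sub_cancel] at h2
      rw [h2, algebraMap_smul]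
    rw [e V (hsV u hu), e W (hU u hu)] at h1
    exact h1.of_smul hNF
  obtain ⟨C₁, hC₁⟩ := Top.bounded V hV
  obtain ⟨C₂, hC₂⟩ := Top.bounded W hW
  obtain ⟨T, hT⟩ := dat2 (p := p) V W (C := max C₁ C₂) (fun g => (hC₁ g).trans (le_max_left _ _))
    (fun g => (hC₂ g).trans (le_max_right _ _)) (U : Subgroup (GK K))
    (fun g v hv => hUn.conj_mem v hv g) hsV hU (hspV _ U.isOpen') (hspW _ U.isOpen') hrel
  -- a smaller subgroup on which a conjugate of `V` is near one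
  have small : ∀ S : (M2 F)ˣ, ∃ H : OpenNormalSubgroup (GK K),
      ((H : Subgroup (GK K)) : Set (GK K)) ⊆ ((U : Subgroup (GK K)) : Set (GK K)) ∧
      ∀ h ∈ (H : Subgroup (GK K)), ‖(S : M2 F) * V h * ((S⁻¹ : (M2 F)ˣ) : M2 F) - 1‖ ≤ 1 / 4 := by
    intro S
    let VS : GK K →* M2 F :=
      { toFun := fun g => (S : M2 F) * V g * ((S⁻¹ : (M2 F)ˣ) : M2 F)
        map_one' := by rw [map_one, mul_one, S.mul_inv]
        map_mul' := by
          intro g h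
          rw [map_mul]
          calc _ = (S : M2 F) * V g * V h * ((S⁻¹ : (M2 F)ˣ) : M2 F) := by simp only [mul_assoc]
            _ = (S : M2 F) * V g * (((S⁻¹ : (M2 F)ˣ) : M2 F) * (S : M2 F)) * V h *
                ((S⁻¹ : (M2 F)ˣ) : M2 F) := by rw [S.inv_mul, mul_one]
            _ = _ := by simp only [mul_assoc] }
    have hVS : Continuous VS := (continuous_const.mul hV).mul continuous_const
    obtain ⟨H, hHU, hH⟩ := Top.exists_small VS hVS ((U : Subgroup (GK K)) : Set (GK K)) U.isOpen'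
      (U : Subgroup (GK K)).one_mem
    exact ⟨H, hHU, hH⟩
  rcases hT.dich with hA | hB
  · obtain ⟨H, hHU, hH⟩ := small T
    refine ⟨H, T, Or.inl fun h hh => ?_⟩
    refine eq_of_lg (p := p) V W (U : Subgroup (GK K)) hsV hU T h (hHU hh) (hH h hh) ?_
    have hmem := mem_L_log (p := p) V W (U : Subgroup (GK K)) hsV hU h (hHU hh)
    have h1 := hT.scalar hmem
    have h2 := hA _ hmem
    rw [h2, sub_self, zero_div, zero_smul, add_zero] at h1
    exact h1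
  · set S : (M2 F)ˣ := (JJ F)⁻¹ * T with hS
    obtain ⟨H, hHU, hH⟩ := small S
    refine ⟨H, S, Or.inr fun h hh => ?_⟩
    have hdu : ∀ u ∈ (U : Subgroup (GK K)), ‖du W u - 1‖ ≤ 1 / 4 := by
      intro u hu
      have h1 : du W u - 1 = (W u⁻¹ - 1)ᵀ := by
        rw [du_apply, Matrix.transpose_sub, Matrix.transpose_one]
      rw [h1]
      exact (norm_transpose' _).trans (hU _ ((U : Subgroup (GK K)).inv_mem hu))
    have h3 := eq_of_lg (p := p) V (du W) (U : Subgroup (GK K)) hsV hdu S h (hHU hh) (hH h hh) (by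
      have hmem := mem_L_log (p := p) V W (U : Subgroup (GK K)) hsV hU h (hHU hh)
      have h1 := hT.scalar hmem
      have h2 := hB _ hmem
      simp only at h1 h2
      rw [h2] at h1
      have h4 : ((-(lg p (W h - 1)).trace - (lg p (W h - 1)).trace) / 2) =
          -(lg p (W h - 1)).trace := by ring
      rw [h4, neg_smul, ← sub_eq_add_neg] at h1
      rw [lg_du W (U : Subgroup (GK K)) hU h (hHU hh), ← JJ_conj, ← h1, hS]
      have h5 : (((JJ F)⁻¹ * T : (M2 F)ˣ) : M2 F) = ((JJ F)⁻¹ : (M2 F)ˣ).val * (T : M2 F) := rfl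
      have h6 : ((((JJ F)⁻¹ * T : (M2 F)ˣ)⁻¹ : (M2 F)ˣ) : M2 F) =
          ((T⁻¹ : (M2 F)ˣ) : M2 F) * (JJ F).val := by
        rw [_root_.mul_inv_rev, inv_inv]
        rfl
      rw [h5, h6]
      simp only [mul_assoc])
    exact h3

end Pool.Agent.H86.FM.OneMn
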