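import Pool.Agent.H86.FM.Gen

/-!
# The resultant of the characteristic polynomials of two matrices
-/

set_option autoImplicit false
set_option linter.unusedSectionVars false

namespace Pool.Agent.H86.FM.Rs

open Filter Topology Matrix
open Pool.Agent.H86.FM.Alg Pool.Agent.H86.FM.Cone Pool.Agent.H86.FM.Str

section alg

variable {F : Type*} [CommRing F]

/-- the resultant of the characteristic polynomials -/
def Rs (X Y : M2 F) : F :=
  (X.det - Y.det) ^ 2 + (X.trace - Y.trace) * (X.trace * Y.det - Y.trace * X.det)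

theorem Rs_roots {X Y : M2 F} {a₁ a₂ b₁ b₂ : F} (h1 : X.trace = a₁ + a₂) (h2 : X.det = a₁ * a₂)
    (h3 : Y.trace = b₁ + b₂) (h4 : Y.det = b₁ * b₂) :
    Rs X Y = (a₁ - b₁) * (a₁ - b₂) * ((a₂ - b₁) * (a₂ - b₂)) := by
  unfold Rs
  rw [h1, h2, h3, h4]
  ring

theorem Rs_smul (c : F) (X Y : M2 F) : Rs (c • X) (c • Y) = c ^ 4 * Rs X Y := by
  unfold Rs
  rw [Matrix.det_smul, Matrix.det_smul, Matrix.trace_smul, Matrix.trace_smul, Fintype.card_fin]
  simp only [smul_eq_mul]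
  ring

theorem Rs_sub_one (X Y : M2 F) : Rs (X - 1) (Y - 1) = Rs X Y := by
  unfold Rs
  simp only [Matrix.det_fin_two, Matrix.trace_fin_two, Matrix.sub_apply, Matrix.one_apply_eq, ne_eq,
    zero_ne_one, one_ne_zero, not_false_eq_true, Matrix.one_apply_ne, sub_zero]
  ring

theorem Rs_conj {P Q P' Q' : M2 F} (hPQ : P * Q = 1) (hPQ' : P' * Q' = 1) (X Y : M2 F) :
    Rs (P * X * Q) (P' * Y * Q') = Rs X Y := by
  have e : ∀ {P Q : M2 F} (_ : P * Q = 1) (X : M2 F), (P * X * Q).trace = X.trace ∧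
      (P * X * Q).det = X.det := by
    intro P Q h X
    have h' : Q * P = 1 := mul_eq_one_comm.1 h
    constructor
    · rw [Matrix.trace_mul_comm, ← mul_assoc, h', one_mul]
    · rw [Matrix.det_mul, Matrix.det_mul, mul_comm P.det, mul_assoc, ← Matrix.det_mul, h,
        Matrix.det_one, mul_one]
  unfold Rs
  rw [(e hPQ X).1, (e hPQ X).2, (e hPQ' Y).1, (e hPQ' Y).2]

/-- the resultant of a matrix and a translate -/
theorem Rs_factor {X Y : M2 F} {γ τ Δ : F} (h1 : X.trace = 2 * (τ + γ)) (h2 : X.det = (τ + γ) ^ 2 - Δ)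
    (h3 : Y.trace = 2 * τ) (h4 : Y.det = τ ^ 2 - Δ) (a b : F) :
    Rs (a • X) (b • Y) = ((a * γ + (a - b) * τ) ^ 2 - (a - b) ^ 2 * Δ) *
      ((a * γ + (a - b) * τ) ^ 2 - (a + b) ^ 2 * Δ) := by
  unfold Rs
  rw [Matrix.det_smul, Matrix.det_smul, Matrix.trace_smul, Matrix.trace_smul, Fintype.card_fin,
    h1, h2, h3, h4]
  simp only [smul_eq_mul]
  ring

end alg

section closed

variable {p : ℕ} [hp : Fact p.Prime] {F : Type*} [NormedField F] [NormedAlgebra ℚ_[p] F]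

/-- `X` and `Y` have eigenvalues which are linearly dependent over `ℚ_p` -/
def RelE (p : ℕ) [Fact p.Prime] {F : Type*} [NormedField F] [NormedAlgebra ℚ_[p] F]
    (X Y : M2 F) : Prop :=
  ∃ a b : ℚ_[p], (a ≠ 0 ∨ b ≠ 0) ∧
    Rs (algebraMap ℚ_[p] F a • X) (algebraMap ℚ_[p] F b • Y) = 0

theorem relE_iff {X Y : M2 F} : RelE p X Y ↔ ∃ a b : ℤ_[p], (‖a‖ = 1 ∨ ‖b‖ = 1) ∧
    Rs (algebraMap ℚ_[p] F (a : ℚ_[p]) • X) (algebraMap ℚ_[p] F (b : ℚ_[p]) • Y) = 0 := by
  constructor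
  · rintro ⟨a, b, h0, h⟩
    obtain ⟨c, a', b', hc, h1, rfl, rfl⟩ := prim h0
    refine ⟨a', b', h1, ?_⟩
    rw [map_mul, map_mul, mul_smul, mul_smul, Rs_smul] at h
    have hc4 : (algebraMap ℚ_[p] F c) ^ 4 ≠ 0 :=
      pow_ne_zero 4 ((map_ne_zero_iff _ (algebraMap ℚ_[p] F).injective).2 hc)
    exact (mul_eq_zero.1 h).resolve_left hc4
  · rintro ⟨a, b, h0, h⟩
    refine ⟨a, b, h0.imp ?_ ?_, h⟩
    · rintro h1 h2
      have h3 : a = 0 := Subtype.ext h2
      rw [h3, norm_zero] at h1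
      exact zero_ne_one h1
    · rintro h1 h2
      have h3 : b = 0 := Subtype.ext h2
      rw [h3, norm_zero] at h1
      exact zero_ne_one h1

theorem RelE.smul {X Y : M2 F} (h : RelE p X Y) (c : F) : RelE p (c • X) (c • Y) := by
  obtain ⟨a, b, h0, h⟩ := h
  refine ⟨a, b, h0, ?_⟩
  rw [smul_comm _ c, smul_comm _ c, Rs_smul, h, mul_zero]

theorem RelE.of_smul {X Y : M2 F} {c : F} (hc : c ≠ 0) (h : RelE p (c • X) (c • Y)) :
    RelE p X Y := by
  have h1 := h.smul c⁻¹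
  rwa [smul_smul, smul_smul, inv_mul_cancel₀ hc, one_smul, one_smul] at h1

theorem RelE.conj {X Y : M2 F} (h : RelE p X Y) {P Q P' Q' : M2 F} (hPQ : P * Q = 1)
    (hPQ' : P' * Q' = 1) : RelE p (P * X * Q) (P' * Y * Q') := by
  obtain ⟨a, b, h0, h⟩ := h
  refine ⟨a, b, h0, ?_⟩
  rw [← smul_mul_assoc, ← mul_smul_comm, ← smul_mul_assoc, ← mul_smul_comm, Rs_conj hPQ hPQ', h]

theorem continuous_Rs : Continuous fun t : (F × F) × (M2 F × M2 F) =>
    Rs (t.1.1 • t.2.1) (t.1.2 • t.2.2) := by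
  have h : (fun t : (F × F) × (M2 F × M2 F) => Rs (t.1.1 • t.2.1) (t.1.2 • t.2.2)) = fun t =>
      (t.1.1 ^ 2 * (t.2.1 0 0 * t.2.1 1 1 - t.2.1 0 1 * t.2.1 1 0) -
        t.1.2 ^ 2 * (t.2.2 0 0 * t.2.2 1 1 - t.2.2 0 1 * t.2.2 1 0)) ^ 2 +
      (t.1.1 * (t.2.1 0 0 + t.2.1 1 1) - t.1.2 * (t.2.2 0 0 + t.2.2 1 1)) *
        (t.1.1 * (t.2.1 0 0 + t.2.1 1 1) *
          (t.1.2 ^ 2 * (t.2.2 0 0 * t.2.2 1 1 - t.2.2 0 1 * t.2.2 1 0)) -
          t.1.2 * (t.2.2 0 0 + t.2.2 1 1) *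
          (t.1.1 ^ 2 * (t.2.1 0 0 * t.2.1 1 1 - t.2.1 0 1 * t.2.1 1 0))) := by
    ext t
    unfold Rs
    rw [Matrix.det_smul, Matrix.det_smul, Matrix.trace_smul, Matrix.trace_smul, Fintype.card_fin,
      Matrix.det_fin_two, Matrix.det_fin_two, Matrix.trace_fin_two, Matrix.trace_fin_two]
    simp only [smul_eq_mul]
  rw [h]
  have e1 : ∀ i j, Continuous fun t : (F × F) × (M2 F × M2 F) => t.2.1 i j := fun i j =>
    (continuous_apply j).comp ((continuous_apply i).comp (continuous_fst.comp continuous_snd))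
  have e2 : ∀ i j, Continuous fun t : (F × F) × (M2 F × M2 F) => t.2.2 i j := fun i j =>
    (continuous_apply j).comp ((continuous_apply i).comp (continuous_snd.comp continuous_snd))
  have e3 := e1 0 0
  have e4 := e1 0 1
  have e5 := e1 1 0
  have e6 := e1 1 1
  have f3 := e2 0 0
  have f4 := e2 0 1
  have f5 := e2 1 0
  have f6 := e2 1 1
  fun_prop

attribute [local irreducible] Rs in
/-- the relation is closed -/
theorem isClosed_relE : IsClosed {w : M2 F × M2 F | RelE p w.1 w.2} := by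
  let T : Set ((ℤ_[p] × ℤ_[p]) × (M2 F × M2 F)) := {t | (‖t.1.1‖ = 1 ∨ ‖t.1.2‖ = 1) ∧
    Rs (algebraMap ℚ_[p] F (t.1.1 : ℚ_[p]) • t.2.1) (algebraMap ℚ_[p] F (t.1.2 : ℚ_[p]) • t.2.2) = 0}
  have hT : IsClosed T := by
    refine IsClosed.inter (IsClosed.union ?_ ?_) ?_
    · exact isClosed_eq (by fun_prop) continuous_const
    · exact isClosed_eq (by fun_prop) continuous_const
    · have h0 : Continuous (algebraMap ℚ_[p] F) := continuous_algebraMap ℚ_[p] F
      have h1 : Continuous fun t : (ℤ_[p] × ℤ_[p]) × (M2 F × M2 F) =>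
          algebraMap ℚ_[p] F (t.1.1 : ℚ_[p]) :=
        h0.comp (continuous_subtype_val.comp (continuous_fst.comp continuous_fst))
      have h2 : Continuous fun t : (ℤ_[p] × ℤ_[p]) × (M2 F × M2 F) =>
          algebraMap ℚ_[p] F (t.1.2 : ℚ_[p]) :=
        h0.comp (continuous_subtype_val.comp (continuous_snd.comp continuous_fst))
      have h3 : Continuous fun t : (ℤ_[p] × ℤ_[p]) × (M2 F × M2 F) =>
          (((algebraMap ℚ_[p] F (t.1.1 : ℚ_[p]), algebraMap ℚ_[p] F (t.1.2 : ℚ_[p])), t.2) :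
            (F × F) × (M2 F × M2 F)) := (h1.prodMk h2).prodMk continuous_snd
      have h4 : Continuous fun t : (ℤ_[p] × ℤ_[p]) × (M2 F × M2 F) =>
          Rs (algebraMap ℚ_[p] F (t.1.1 : ℚ_[p]) • t.2.1)
            (algebraMap ℚ_[p] F (t.1.2 : ℚ_[p]) • t.2.2) :=
        Continuous.comp (g := fun t : (F × F) × (M2 F × M2 F) =>
          Rs (t.1.1 • t.2.1) (t.1.2 • t.2.2)) continuous_Rs h3
      exact isClosed_eq h4 continuous_const
  have h1 := isClosedMap_snd_of_compactSpace (X := ℤ_[p] × ℤ_[p]) (Y := M2 F × M2 F) T hT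
  have h2 : Prod.snd '' T = {w : M2 F × M2 F | RelE p w.1 w.2} := by
    ext ⟨x, y⟩
    constructor
    · rintro ⟨⟨⟨a, b⟩, ⟨x', y'⟩⟩, ⟨h3, h4⟩, h5⟩
      have h6 : x' = x ∧ y' = y := by simpa using h5
      obtain ⟨rfl, rfl⟩ := h6
      exact relE_iff.2 ⟨a, b, h3, h4⟩
    · intro h
      obtain ⟨a, b, h3, h4⟩ := relE_iff.1 h
      exact ⟨⟨⟨a, b⟩, ⟨x, y⟩⟩, ⟨h3, h4⟩, rfl⟩
  rwa [h2] at h1

attribute [local irreducible] RelE in
theorem RelE.tendsto {u v : ℕ → M2 F} {x y : M2 F} (hu : Tendsto u atTop (𝓝 x))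
    (hv : Tendsto v atTop (𝓝 y)) (h : ∀ k, RelE p (u k) (v k)) : RelE p x y := by
  have h1 : Tendsto (fun k => ((u k, v k) : M2 F × M2 F)) atTop (𝓝 (x, y)) := hu.prodMk_nhds hv
  have h3 : ∀ k, ((u k, v k) : M2 F × M2 F) ∈ {w : M2 F × M2 F | RelE p w.1 w.2} := h
  have h2 : ((x, y) : M2 F × M2 F) ∈ {w : M2 F × M2 F | RelE p w.1 w.2} :=
    isClosed_relE.mem_of_tendsto h1 (Eventually.of_forall h3)
  exact h2

/-- matrices of trace zero -/
theorem RelE.rel {X Y : M2 F} (h : RelE p X Y) (hX : X.trace = 0) (hY : Y.trace = 0) :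
    Rel p (D X) (D Y) := by
  obtain ⟨a, b, h0, h⟩ := h
  refine ⟨a, b, h0, ?_⟩
  unfold Rs at h
  rw [Matrix.trace_smul, Matrix.trace_smul, hX, hY, Matrix.det_smul, Matrix.det_smul,
    Fintype.card_fin] at h
  simp only [smul_zero, sub_zero, zero_mul, add_zero] at h
  have h1 := (pow_eq_zero_iff two_ne_zero).1 h
  unfold D
  rw [hX, hY, Algebra.smul_def, Algebra.smul_def, map_pow, map_pow]
  linear_combination (-4) * h1

/-- two translates of conjugate matrices -/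
theorem RelE.dichotomy {X Y : M2 F} {γ τ Δ : F} (h1 : X.trace = 2 * (τ + γ))
    (h2 : X.det = (τ + γ) ^ 2 - Δ) (h3 : Y.trace = 2 * τ) (h4 : Y.det = τ ^ 2 - Δ) (hγ : γ ≠ 0)
    (he : γ + 2 * τ ≠ 0) (h : RelE p X Y) :
    (∃ q : ℚ_[p], (τ + algebraMap ℚ_[p] F q * γ) ^ 2 = Δ) ∨
      (∃ q : ℚ_[p], (-τ + algebraMap ℚ_[p] F q * (γ + 2 * τ)) ^ 2 = Δ) := by
  obtain ⟨a, b, h0, h⟩ := h
  rw [Rs_factor h1 h2 h3 h4] at h
  have inj : ∀ c : ℚ_[p], c ≠ 0 → algebraMap ℚ_[p] F c ≠ 0 := fun c hc =>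
    (map_ne_zero_iff _ (algebraMap ℚ_[p] F).injective).2 hc
  rcases mul_eq_zero.1 h with h | h
  · left
    have hab : a - b ≠ 0 := by
      intro hab
      have hab' : algebraMap ℚ_[p] F a - algebraMap ℚ_[p] F b = 0 := by rw [← map_sub, hab, map_zero]
      rw [hab'] at h
      have h5 : (algebraMap ℚ_[p] F a * γ) ^ 2 = 0 := by linear_combination h
      have h6 := (pow_eq_zero_iff two_ne_zero).1 h5
      have h7 := (mul_eq_zero.1 h6).resolve_right hγ
      have h8 : a = 0 := (map_eq_zero_iff _ (algebraMap ℚ_[p] F).injective).1 h7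
      have h9 : b = 0 := by rw [h8] at hab; linear_combination -hab
      rcases h0 with h0 | h0
      · exact h0 h8
      · exact h0 h9
    have hab' := inj _ hab
    rw [map_sub] at hab'
    refine ⟨a / (a - b), ?_⟩
    rw [map_div₀, map_sub]
    field_simp
    linear_combination h
  · right
    have hab : a + b ≠ 0 := by
      intro hab
      have hab' : algebraMap ℚ_[p] F a + algebraMap ℚ_[p] F b = 0 := by rw [← map_add, hab, map_zero]
      have hb : algebraMap ℚ_[p] F b = - algebraMap ℚ_[p] F a := by linear_combination hab'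
      rw [hab', hb] at h
      have h5 : (algebraMap ℚ_[p] F a * (γ + 2 * τ)) ^ 2 = 0 := by linear_combination h
      have h6 := (pow_eq_zero_iff two_ne_zero).1 h5
      have h7 := (mul_eq_zero.1 h6).resolve_right he
      have h8 : a = 0 := (map_eq_zero_iff _ (algebraMap ℚ_[p] F).injective).1 h7
      have h9 : b = 0 := by rw [h8] at hab; linear_combination hab
      rcases h0 with h0 | h0
      · exact h0 h8
      · exact h0 h9
    have hab' := inj _ hab
    rw [map_add] at hab'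
    refine ⟨a / (a + b), ?_⟩
    rw [map_div₀, map_add]
    field_simp
    linear_combination h

end closed

end Pool.Agent.H86.FM.Rs
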