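import Pool.Agent.H86.FM.Mn

/-!
# Several representations with values in `GL_2(ℚ_p)`
-/

set_option autoImplicit false
set_option linter.unusedSectionVars false

namespace Pool.Agent.H86.FM.Sev

open Filter Topology Matrix NumberField IsDedekindDomain
open Pool.Agent.H86.FM.Alg Pool.Agent.H86.FM.Cone Pool.Agent.H86.FM.Lg Pool.Agent.H86.FM.Str
open Pool.Agent.H86.FM.Dep Pool.Agent.H86.FM.Gen Pool.Agent.H86.FM.Mn
open Pool.Agent.N817.PL Pool.Agent.N817.PL.Nrm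
open Pool.Agent.W401.Cheb Pool.Agent.W528.Ord

section alg

variable {p : ℕ} [hp : Fact p.Prime]

/-- ideals -/
theorem ideal {S : Submodule ℚ_[p] (M2 ℚ_[p])} {P : Set (M2 ℚ_[p])} (hP : Sp P)
    (h : ∀ Z ∈ P, ∀ X ∈ S, br Z X ∈ S) {X : M2 ℚ_[p]} (hX : X ∈ S) (hns : ∀ c : ℚ_[p], X ≠ c • 1)
    (Y : M2 ℚ_[p]) (hY : Y.trace = 0) : Y ∈ S := by
  have h1 : Sp (S : Set (M2 ℚ_[p])) := sp_ideal hP h hX hns
  have h2 : ∀ C : M2 ℚ_[p], ∀ s ∈ S, br C s ∈ S := by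
    intro C
    refine hP.induct (P := fun C => ∀ s ∈ S, br C s ∈ S) ?_ ?_ ?_ h C
    · intro A A' hA hA' s hs
      rw [br_add_left]
      exact S.add_mem (hA s hs) (hA' s hs)
    · intro c A hA s hs
      rw [br_smul_left]
      exact S.smul_mem c (hA s hs)
    · intro s _
      have := br_scalar_left 1 s
      rw [one_smul] at this
      rw [this]
      exact S.zero_mem
  have h3 : ∀ A C : M2 ℚ_[p], br C A ∈ S := by
    intro A C
    refine h1.induct (P := fun A => br C A ∈ S) ?_ ?_ ?_ (fun A hA => h2 C A hA) A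
    · intro A A' hA hA'
      rw [br_add_right]
      exact S.add_mem hA hA'
    · intro c A hA
      rw [br_smul_right]
      exact S.smul_mem c hA
    · have := br_scalar_right 1 C
      rw [one_smul] at this
      rw [this]
      exact S.zero_mem
  have h4 : Y = Y 0 1 • br (Matrix.single 0 0 1) (Matrix.single 0 1 1) +
      Y 1 0 • br (Matrix.single 1 1 1) (Matrix.single 1 0 1) +
      Y 0 0 • br (Matrix.single 0 1 1) (Matrix.single 1 0 1) := by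
    have e : Y 1 1 = -Y 0 0 := by
      rw [Matrix.trace_fin_two] at hY
      linear_combination hY
    apply ext2
    · simp only [Matrix.add_apply, Matrix.smul_apply, br_00, smul_eq_mul]
      simp
    · simp only [Matrix.add_apply, Matrix.smul_apply, br_01, smul_eq_mul]
      simp
    · simp only [Matrix.add_apply, Matrix.smul_apply, br_10, smul_eq_mul]
      simp
    · simp only [Matrix.add_apply, Matrix.smul_apply, br_11, smul_eq_mul]
      simp [e]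
  rw [h4]
  exact S.add_mem (S.add_mem (S.smul_mem _ (h3 _ _)) (S.smul_mem _ (h3 _ _)))
    (S.smul_mem _ (h3 _ _))

variable {ι : Type*}

/-- the assumptions on the Lie algebra -/
structure Tup (L : Submodule ℚ_[p] (ι → M2 ℚ_[p])) : Prop where
  br_mem : ∀ w ∈ L, ∀ z ∈ L, (fun i => br (w i) (z i)) ∈ L
  sp : ∀ i, Sp {X | ∃ w ∈ L, w i = X}

/-- the ideal of the components `i` of the elements whose components in `T` are scalar -/
def J (L : Submodule ℚ_[p] (ι → M2 ℚ_[p])) (i : ι) (T : Set ι) : Submodule ℚ_[p] (M2 ℚ_[p]) where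
  carrier := {X | ∃ w ∈ L, w i = X ∧ ∀ j ∈ T, ∃ c : ℚ_[p], w j = c • 1}
  add_mem' := by
    rintro _ _ ⟨w, hw, rfl, h⟩ ⟨w', hw', rfl, h'⟩
    refine ⟨w + w', L.add_mem hw hw', rfl, fun j hj => ?_⟩
    obtain ⟨c, hc⟩ := h j hj
    obtain ⟨c', hc'⟩ := h' j hj
    exact ⟨c + c', by rw [Pi.add_apply, hc, hc', add_smul]⟩
  zero_mem' := ⟨0, L.zero_mem, rfl, fun j _ => ⟨0, by rw [zero_smul]; rfl⟩⟩
  smul_mem' := by
    rintro a _ ⟨w, hw, rfl, h⟩
    refine ⟨a • w, L.smul_mem a hw, rfl, fun j hj => ?_⟩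
    obtain ⟨c, hc⟩ := h j hj
    exact ⟨a * c, by rw [Pi.smul_apply, hc, smul_smul]⟩

variable {L : Submodule ℚ_[p] (ι → M2 ℚ_[p])}

theorem mem_J {i : ι} {T : Set ι} {X : M2 ℚ_[p]} : X ∈ J L i T ↔
    ∃ w ∈ L, w i = X ∧ ∀ j ∈ T, ∃ c : ℚ_[p], w j = c • 1 := Iff.rfl

theorem J_full (h : Tup L) {i : ι} {T : Set ι} (hX : ∃ X ∈ J L i T, ∀ c : ℚ_[p], X ≠ c • 1)
    (Y : M2 ℚ_[p]) (hY : Y.trace = 0) : Y ∈ J L i T := by
  obtain ⟨X, hX, hns⟩ := hX
  refine ideal (h.sp i) ?_ hX hns Y hY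
  rintro _ ⟨z, hz, rfl⟩ _ ⟨w, hw, rfl, hT⟩
  refine ⟨_, h.br_mem z hz w hw, rfl, fun j hj => ⟨0, ?_⟩⟩
  obtain ⟨c, hc⟩ := hT j hj
  rw [hc, br_scalar_right, zero_smul]

theorem br_ef : ∀ c : ℚ_[p], br (Matrix.single 0 1 (1 : ℚ_[p])) (Matrix.single 1 0 (1 : ℚ_[p])) ≠
    c • (1 : M2 ℚ_[p]) := by
  intro c hc
  have h1 := congrFun (congrFun hc 0) 0
  have h2 := congrFun (congrFun hc 1) 1
  rw [br_00] at h1
  rw [br_11] at h2
  simp at h1 h2
  rw [← h1] at h2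
  norm_num at h2

theorem trace_e : (Matrix.single 0 1 (1 : ℚ_[p]) : M2 ℚ_[p]).trace = 0 := by
  rw [Matrix.trace_fin_two]
  simp

theorem trace_f : (Matrix.single 1 0 (1 : ℚ_[p]) : M2 ℚ_[p]).trace = 0 := by
  rw [Matrix.trace_fin_two]
  simp

theorem not_scalar_of_D {X : M2 ℚ_[p]} (h : D X ≠ 0) : ∀ c : ℚ_[p], X ≠ c • 1 := by
  rintro c rfl
  exact h (D_scalar c)

theorem P_add (i : ι) : ∀ X ∈ {X : M2 ℚ_[p] | ∃ w ∈ L, w i = X},
    ∀ Y ∈ {X : M2 ℚ_[p] | ∃ w ∈ L, w i = X}, X + Y ∈ {X : M2 ℚ_[p] | ∃ w ∈ L, w i = X} := by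
  rintro _ ⟨w, hw, rfl⟩ _ ⟨z, hz, rfl⟩
  exact ⟨w + z, L.add_mem hw hz, rfl⟩

theorem J_all (h : Tup L) {i : ι} (hpair : ∀ j, j ≠ i → ∃ X ∈ J L i {j}, ∀ c : ℚ_[p], X ≠ c • 1)
    (T : Finset ι) (hT : i ∉ T) : ∃ X ∈ J L i (T : Set ι), ∀ c : ℚ_[p], X ≠ c • 1 := by
  classical
  induction T using Finset.induction_on with
  | empty =>
    obtain ⟨X, ⟨w, hw, rfl⟩, hD⟩ := exists_D (h.sp i) (P_add i)
    exact ⟨w i, ⟨w, hw, rfl, fun j hj => by simp at hj⟩, not_scalar_of_D hD⟩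
  | insert j T hj ih =>
    rw [Finset.mem_insert, not_or] at hT
    have h1 := J_full h (ih hT.2) _ trace_e
    have h2 := J_full h (hpair j fun h => hT.1 h.symm) _ trace_f
    obtain ⟨w, hw, hwe, hwT⟩ := h1
    obtain ⟨z, hz, hzf, hzj⟩ := h2
    refine ⟨br (w i) (z i), ⟨_, h.br_mem w hw z hz, rfl, fun k hk => ⟨0, ?_⟩⟩, ?_⟩
    · rw [Finset.coe_insert, Set.mem_insert_iff] at hk
      rcases hk with rfl | hk
      · obtain ⟨c, hc⟩ := hzj k rfl
        rw [hc, br_scalar_right, zero_smul]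
      · obtain ⟨c, hc⟩ := hwT k hk
        rw [hc, br_scalar_left, zero_smul]
    · rw [hwe, hzf]
      exact br_ef

variable [Fintype ι] [DecidableEq ι]

theorem single_mem (h : Tup L) {i : ι}
    (hpair : ∀ j, j ≠ i → ∃ X ∈ J L i {j}, ∀ c : ℚ_[p], X ≠ c • 1) (Y : M2 ℚ_[p])
    (hY : Y.trace = 0) : (Pi.single i Y : ι → M2 ℚ_[p]) ∈ L := by
  have h0 := J_all h hpair (Finset.univ.erase i) (by simp)
  obtain ⟨w, hw, hwe, hwT⟩ := J_full h h0 _ trace_e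
  obtain ⟨z, hz, hzf, hzT⟩ := J_full h h0 _ trace_f
  let S : Submodule ℚ_[p] (M2 ℚ_[p]) := L.comap (LinearMap.single ℚ_[p] (fun _ : ι => M2 ℚ_[p]) i)
  have hS : ∀ X, X ∈ S ↔ (Pi.single i X : ι → M2 ℚ_[p]) ∈ L := fun X => Iff.rfl
  rw [← hS]
  refine ideal (h.sp i) (X := br (Matrix.single 0 1 1) (Matrix.single 1 0 1)) ?_ ?_ br_ef Y hY
  · rintro _ ⟨x, hx, rfl⟩ X hX
    rw [hS] at hX ⊢
    have h1 := h.br_mem x hx _ hX
    convert h1 using 1
    funext j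
    by_cases hj : j = i
    · subst hj
      simp
    · simp [hj, br]
  · rw [hS]
    have h1 := h.br_mem w hw z hz
    convert h1 using 1
    funext j
    by_cases hj : j = i
    · subst hj
      simp only [Pi.single_eq_same]
      rw [hwe, hzf]
    · simp only [Pi.single_eq_of_ne hj]
      obtain ⟨c, hc⟩ := hwT j (by simp [hj])
      rw [hc, br_scalar_left]

/-- all tuples of discriminants -/
theorem exists_disc (h : Tup L)
    (hpair : ∀ i j, j ≠ i → ∃ X ∈ J L i {j}, ∀ c : ℚ_[p], X ≠ c • 1) (d : ι → ℚ_[p]) :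
    ∃ w ∈ L, ∀ i, D (w i) = d i := by
  refine ⟨∑ i, Pi.single i !![0, 1; d i / 4, 0], L.sum_mem fun i _ =>
    single_mem h (hpair i) _ (by simp [Matrix.trace_fin_two]), fun i => ?_⟩
  have h1 : (∑ k, (Pi.single k !![0, 1; d k / 4, 0] : ι → M2 ℚ_[p])) i = !![0, 1; d i / 4, 0] := by
    rw [Finset.sum_apply, Finset.sum_eq_single i]
    · simp
    · intro j _ hj
      simp [Pi.single_eq_of_ne hj.symm]
    · simp
  rw [h1, D_eq]
  simp
  ring

omit [Fintype ι] [DecidableEq ι] in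
/-- the case of one ideal -/
theorem disc_eq (h : Tup L) {i j : ι} (hn : ∀ X ∈ J L i {j}, ∃ c : ℚ_[p], X = c • 1)
    (w : ι → M2 ℚ_[p]) (hw : w ∈ L) : D (w i) = D (w j) := by
  by_contra hD
  -- the component `i` is scalar
  have h1 : ∀ z ∈ L, br (w i) (z i) = 0 := by
    intro z hz
    have e1 := h.br_mem w hw z hz
    have e3 := h.br_mem w hw _ (h.br_mem w hw _ e1)
    have e4 := L.sub_mem e3 (L.smul_mem (D (w j)) e1)
    have e5 : (D (w i) - D (w j)) • br (w i) (z i) ∈ J L i {j} := by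
      refine ⟨_, e4, ?_, ?_⟩
      · simp only [Pi.sub_apply, Pi.smul_apply]
        rw [br3, sub_smul]
      · intro k hk
        rw [Set.mem_singleton_iff] at hk
        subst hk
        refine ⟨0, ?_⟩
        simp only [Pi.sub_apply, Pi.smul_apply]
        rw [br3, sub_self, zero_smul]
    obtain ⟨c, hc⟩ := hn _ e5
    have e6 := zero_of_scalar hc (by rw [Matrix.trace_smul, trace_br, smul_zero])
    exact (smul_eq_zero.1 e6).resolve_left (sub_ne_zero.2 hD)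
  obtain ⟨c, hc⟩ := scalar_of_br_set (h.sp i) (X := w i) (by
    rintro _ ⟨z, hz, rfl⟩
    exact h1 z hz)
  have hDi : D (w i) = 0 := by rw [hc, D_scalar]
  have hDj : D (w j) ≠ 0 := fun h0 => hD (hDi.trans h0.symm)
  -- the ideal of the second component
  have h2 : ∃ X ∈ J L j {i}, ∀ c : ℚ_[p], X ≠ c • 1 :=
    ⟨w j, ⟨w, hw, rfl, fun k hk => by
      rw [Set.mem_singleton_iff] at hk
      subst hk
      exact ⟨c, hc⟩⟩, not_scalar_of_D hDj⟩
  obtain ⟨X, ⟨z, hz, rfl⟩, hDz⟩ := exists_D (h.sp i) (P_add i)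
  obtain ⟨w', hw', hwj, hwi⟩ := J_full h h2 (z j - ((z j).trace / 2) • 1) (by
    rw [Matrix.trace_sub, Matrix.trace_smul, Matrix.trace_one, Fintype.card_fin, smul_eq_mul]
    push_cast
    ring)
  obtain ⟨c', hc'⟩ := hwi i rfl
  have h3 : z i - w' i ∈ J L i {j} := by
    refine ⟨z - w', L.sub_mem hz hw', rfl, fun k hk => ?_⟩
    rw [Set.mem_singleton_iff] at hk
    subst hk
    exact ⟨(z k).trace / 2, by rw [Pi.sub_apply, hwj, sub_sub_cancel]⟩
  obtain ⟨c'', hc''⟩ := hn _ h3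
  apply not_scalar_of_D hDz (c'' + c')
  rw [add_smul, ← hc'', ← hc', sub_add_cancel]

/-- the projection to two factors -/
noncomputable def pr (i j : ι) : (ι → M2 ℚ_[p]) →ₗ[ℚ_[p]] M2 ℚ_[p] × M2 ℚ_[p] :=
  (LinearMap.proj i).prod (LinearMap.proj j)

omit [Fintype ι] [DecidableEq ι] in
theorem dat_pr (h : Tup L) {i j : ι} (hn : ∀ X ∈ J L i {j}, ∃ c : ℚ_[p], X = c • 1) :
    Dat (L.map (pr (p := p) i j)) := by
  refine Gen.dat_of _ ?_ ?_ ?_ ?_
  · rintro _ ⟨w, hw, rfl⟩ _ ⟨z, hz, rfl⟩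
    exact ⟨_, h.br_mem w hw z hz, rfl⟩
  · rintro _ ⟨w, hw, rfl⟩
    refine ⟨1, 1, Or.inl one_ne_zero, ?_⟩
    change (1 : ℚ_[p]) ^ 2 • D (w i) = (1 : ℚ_[p]) ^ 2 • D (w j)
    rw [disc_eq h hn w hw]
  · have h1 : P1 (L.map (pr (p := p) i j)) = {X | ∃ w ∈ L, w i = X} := by
      ext X
      constructor
      · rintro ⟨Y, w, hw, hwXY⟩
        exact ⟨w, hw, congrArg Prod.fst hwXY⟩
      · rintro ⟨w, hw, rfl⟩
        exact ⟨w j, w, hw, rfl⟩
    rw [h1]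
    exact h.sp i
  · obtain ⟨X, ⟨z, hz, rfl⟩, hDz⟩ := exists_D (h.sp j) (P_add j)
    exact ⟨z j, ⟨z i, z, hz, rfl⟩, hDz⟩

end alg

section lie

attribute [local instance] nring nalg

variable {p : ℕ} [hp : Fact p.Prime] {G : Type*} [Group G] {ι : Type*} [Fintype ι]

theorem tup (V : ι → G →* M2 ℚ_[p]) {C : ℝ} (hC : ∀ i g, ‖V i g‖ ≤ C)
    (U : Subgroup G) (hUn : ∀ g : G, ∀ v ∈ U, g * v * g⁻¹ ∈ U)
    (hs : ∀ i, ∀ u ∈ U, ‖V i u - 1‖ ≤ 1 / 4)
    (hsp : ∀ i, Submodule.span ℚ_[p] (V i '' U) = ⊤) : Tup (Lim.L p (MonoidHom.pi V) U) := by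
  have hC' : ∀ g, ‖MonoidHom.pi V g‖ ≤ max C 0 := by
    intro g
    rw [pi_norm_le_iff_of_nonneg (le_max_right _ _)]
    exact fun i => (hC i g).trans (le_max_left _ _)
  constructor
  · intro w hw z hz
    exact Lim.lie_mem hC' hw hz
  · intro i
    refine sp_of p (V i) U (hs i) (hsp i) _ ?_ ?_
    · rintro u hu _ ⟨w, hw, rfl⟩
      exact ⟨_, Lim.conj_mem u (hUn u) hw, rfl⟩
    · obtain ⟨u, hu, h⟩ := not_scalar (p := p) (V i) U (hs i) (hsp i)
      refine ⟨_, ⟨fun j => lg p (V j u - 1), ?_, rfl⟩, h⟩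
      have hcomp : @CompleteSpace (M2 ℚ_[p]) PseudoMetricSpace.toUniformSpace := complete
      have hult : IsUltrametricDist (M2 ℚ_[p]) := ultraMat
      refine Lim.log_mem hu ?_
      rw [tendsto_pi_nhds]
      intro j
      exact tendsto_lg (p := p) (hs j u hu)

end lie

attribute [local instance] nring nalg

theorem exists_small {K : Type} [Field K] [NumberField K] {p : ℕ} [hp : Fact p.Prime]
    {ι : Type*} [Finite ι] (V : ι → GK K →* M2 ℚ_[p]) (hV : ∀ i, Continuous (V i)) :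
    ∃ U : OpenNormalSubgroup (GK K), ∀ i, ∀ u ∈ (U : Subgroup (GK K)), ‖V i u - 1‖ ≤ 1 / 4 := by
  classical
  have hult : IsUltrametricDist ℚ_[p] := ultra p ℚ_[p]
  have := Fintype.ofFinite ι
  let instM : MeasurableSpace (GK K) := borel (GK K)
  have instB : BorelSpace (GK K) := ⟨rfl⟩
  have key : ∀ T : Finset ι, ∃ U : OpenNormalSubgroup (GK K), ∀ i ∈ T,
      ∀ u ∈ (U : Subgroup (GK K)), ‖V i u - 1‖ ≤ 1 / 4 := by
    intro T
    induction T using Finset.induction_on with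
    | empty => exact ⟨⟨⟨⊤, isOpen_univ⟩, inferInstance⟩, fun i hi => by simp at hi⟩
    | insert j T hj ih =>
      obtain ⟨U₁, h₁⟩ := ih
      obtain ⟨U, hUU, hU⟩ := Top.exists_small (V j) (hV j) ((U₁ : Subgroup (GK K)) : Set (GK K))
        U₁.isOpen' (U₁ : Subgroup (GK K)).one_mem
      refine ⟨U, fun i hi u hu => ?_⟩
      rw [Finset.mem_insert] at hi
      rcases hi with rfl | hi
      · exact hU u hu
      · exact h₁ i hi u (hUU hu)
  obtain ⟨U, hU⟩ := key Finset.univ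
  exact ⟨U, fun i => hU i (Finset.mem_univ i)⟩

/-- **Main theorem**: elements of the group -/
theorem main {K : Type} [Field K] [NumberField K] {p : ℕ} [hp : Fact p.Prime]
    {ι : Type*} [Finite ι] (V : ι → GK K →* M2 ℚ_[p]) (hV : ∀ i, Continuous (V i))
    (hsp : ∀ i, ∀ H : Subgroup (GK K), IsOpen (H : Set (GK K)) →
      Submodule.span ℚ_[p] (V i '' H) = ⊤)
    (hnt : ∀ i j, i ≠ j → ¬ ∃ T : (M2 ℚ_[p])ˣ, ∀ g, ∃ c : ℚ_[p],
      V i g = c • (((T⁻¹ : (M2 ℚ_[p])ˣ) : M2 ℚ_[p]) * V j g * T))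
    (d : ι → ℚ_[p]) {ε : ℝ} (hε : 0 < ε) :
    ∃ k₀ : ℕ, ∀ k, k₀ ≤ k → ∃ g, ∀ i, ‖((p : ℚ_[p]) ^ (2 * k))⁻¹ * D (V i g) - d i‖ < ε := by
  classical
  have := Fintype.ofFinite ι
  have hult : IsUltrametricDist ℚ_[p] := ultra p ℚ_[p]
  have hcomp : @CompleteSpace (M2 ℚ_[p]) PseudoMetricSpace.toUniformSpace := complete
  have hultM : IsUltrametricDist (M2 ℚ_[p]) := ultraMat
  let instM : MeasurableSpace (GK K) := borel (GK K)
  have instB : BorelSpace (GK K) := ⟨rfl⟩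
  obtain ⟨U, hU⟩ := exists_small V hV
  have hUn : (U : Subgroup (GK K)).Normal := U.isNormal'
  have hUn' : ∀ g : GK K, ∀ v ∈ (U : Subgroup (GK K)), g * v * g⁻¹ ∈ (U : Subgroup (GK K)) :=
    fun g v hv => hUn.conj_mem v hv g
  have hb : ∀ i, ∃ C, ∀ g, ‖V i g‖ ≤ C := fun i => Top.bounded (V i) (hV i)
  choose C hC using hb
  have hC' : ∀ i g, ‖V i g‖ ≤ ∑ j, |C j| := fun i g =>
    ((hC i g).trans (le_abs_self _)).trans
      (Finset.single_le_sum (f := fun j => |C j|) (fun j _ => abs_nonneg _) (Finset.mem_univ i))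
  have ht := tup V hC' (U : Subgroup (GK K)) hUn' hU (fun i => hsp i _ U.isOpen')
  have hpair : ∀ i j, j ≠ i → ∃ X ∈ J (Lim.L p (MonoidHom.pi V) (U : Subgroup (GK K))) i {j},
      ∀ c : ℚ_[p], X ≠ c • 1 := by
    intro i j hij
    by_contra hcon
    push Not at hcon
    obtain ⟨T, hT⟩ := Aut.exists_conj (dat_pr ht hcon)
    refine hnt i j hij.symm ⟨T, fun g => hT (V i g) (V i g⁻¹) (V j g) (V j g⁻¹)
      (inv_right (V i) g) (inv_right (V j) g) ?_⟩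
    rintro X X' ⟨w, hw, hwX⟩
    have e1 : w i = X := congrArg Prod.fst hwX
    have e2 : w j = X' := congrArg Prod.snd hwX
    refine ⟨_, Lim.conj_mem g (hUn' g) hw, ?_⟩
    rw [← e1, ← e2]
    rfl
  obtain ⟨w, hw, hwd⟩ := exists_disc ht hpair d
  obtain ⟨u, hu, hlim⟩ := hw
  have h1 : ∀ i, Tendsto (fun k => ((p : ℚ_[p]) ^ (2 * k))⁻¹ * D (V i (u k)))
      atTop (𝓝 (d i)) := by
    intro i
    have h2 : Tendsto (fun k => ((p : ℚ_[p])⁻¹) ^ k • (V i (u k) - 1)) atTop (𝓝 (w i)) :=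
      (tendsto_pi_nhds.1 hlim) i
    have h3 := (continuous_D.tendsto _).comp h2
    rw [hwd i] at h3
    refine h3.congr fun k => ?_
    simp only [Function.comp]
    rw [D_qsmul, D_sub_one, smul_eq_mul]
    congr 1
    rw [← pow_mul, inv_pow, mul_comm k 2]
  have h4 : ∀ᶠ k in atTop, ∀ i, ‖((p : ℚ_[p]) ^ (2 * k))⁻¹ * D (V i (u k)) - d i‖ < ε := by
    rw [Filter.eventually_all]
    intro i
    have h5 := tendsto_iff_norm_sub_tendsto_zero.1 (h1 i)
    exact h5.eventually (gt_mem_nhds hε)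
  obtain ⟨k₀, hk₀⟩ := Filter.eventually_atTop.1 h4
  exact ⟨k₀, fun k hk => ⟨u k, hk₀ k hk⟩⟩

end Pool.Agent.H86.FM.Sev
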