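import Pool.Agent.H86.FM.Alg
import Pool.Agent.H86.FM.Cone

/-!
# Lie algebras of pairs of matrices whose discriminants have a ratio which is a square in `ℚ_p`
-/

set_option autoImplicit false
set_option linter.unusedSectionVars false

namespace Pool.Agent.H86.FM.Str

open Filter Topology Matrix
open Pool.Agent.H86.FM.Alg Pool.Agent.H86.FM.Cone

variable {p : ℕ} [hp : Fact p.Prime] {F : Type*} [NormedField F] [NormedAlgebra ℚ_[p] F]

/-- the matrices `X` such that `(X, scalar)` is in the Lie algebra -/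
def Id1 (g : Submodule ℚ_[p] (M2 F × M2 F)) : Set (M2 F) := {X | ∃ c : F, (X, c • (1 : M2 F)) ∈ g}

/-- the matrices `Y` such that `(scalar, Y)` is in the Lie algebra -/
def Id2 (g : Submodule ℚ_[p] (M2 F × M2 F)) : Set (M2 F) := {Y | ∃ c : F, (c • (1 : M2 F), Y) ∈ g}

/-- the projections -/
def P1 (g : Submodule ℚ_[p] (M2 F × M2 F)) : Set (M2 F) := {X | ∃ Y, (X, Y) ∈ g}

/-- the projections -/
def P2 (g : Submodule ℚ_[p] (M2 F × M2 F)) : Set (M2 F) := {Y | ∃ X, (X, Y) ∈ g}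

/-- the assumptions on the Lie algebra -/
structure Dat (g : Submodule ℚ_[p] (M2 F × M2 F)) : Prop where
  br_mem : ∀ w ∈ g, ∀ z ∈ g, (br w.1 z.1, br w.2 z.2) ∈ g
  rel : ∀ w ∈ g, Rel p (D w.1) (D w.2)
  sp1 : Sp (P1 g)
  sp2 : Sp (P2 g)
  id1 : (∃ X ∈ Id1 g, ∀ d : F, X ≠ d • 1) → Sp (Id1 g)
  id2 : (∃ X ∈ Id2 g, ∀ d : F, X ≠ d • 1) → Sp (Id2 g)

/-- exchange the factors -/
def sw (g : Submodule ℚ_[p] (M2 F × M2 F)) : Submodule ℚ_[p] (M2 F × M2 F) where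
  carrier := {w | (w.2, w.1) ∈ g}
  add_mem' := fun ha hb => g.add_mem ha hb
  zero_mem' := g.zero_mem
  smul_mem' := fun c _ hx => g.smul_mem c hx

theorem Dat.swap {g : Submodule ℚ_[p] (M2 F × M2 F)} (h : Dat g) : Dat (sw g) where
  br_mem := fun w hw z hz => h.br_mem (w.2, w.1) hw (z.2, z.1) hz
  rel := fun w hw => (h.rel (w.2, w.1) hw).symm
  sp1 := h.sp2
  sp2 := h.sp1
  id1 := h.id2
  id2 := h.id1

theorem P1_add {g : Submodule ℚ_[p] (M2 F × M2 F)} : ∀ X ∈ P1 g, ∀ Y ∈ P1 g, X + Y ∈ P1 g := by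
  rintro X ⟨X', hX⟩ Y ⟨Y', hY⟩
  exact ⟨X' + Y', g.add_mem hX hY⟩

theorem P2_add {g : Submodule ℚ_[p] (M2 F × M2 F)} : ∀ X ∈ P2 g, ∀ Y ∈ P2 g, X + Y ∈ P2 g := by
  rintro X ⟨X', hX⟩ Y ⟨Y', hY⟩
  exact ⟨X' + Y', g.add_mem hX hY⟩

theorem Id1_add {g : Submodule ℚ_[p] (M2 F × M2 F)} : ∀ X ∈ Id1 g, ∀ Y ∈ Id1 g, X + Y ∈ Id1 g := by
  rintro X ⟨X', hX⟩ Y ⟨Y', hY⟩
  refine ⟨X' + Y', ?_⟩
  rw [add_smul]
  exact g.add_mem hX hY

/-- the elements `(X, scalar)` do not span -/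
theorem no_big {g : Submodule ℚ_[p] (M2 F × M2 F)}
    (hbr : ∀ w ∈ g, ∀ z ∈ g, (br w.1 z.1, br w.2 z.2) ∈ g)
    (hrel : ∀ w ∈ g, Rel p (D w.1) (D w.2)) (hne : ∃ Y ∈ P2 g, D Y ≠ 0) (hS : Sp (Id1 g)) : False := by
  have hchar : CharZero F := charZero_of_injective_algebraMap (algebraMap ℚ_[p] F).injective
  obtain ⟨Y₀, ⟨X₀, hY₀⟩, hδ⟩ := hne
  set δ := D Y₀ with hδd
  have hsq : ∀ Z ∈ Id1 g, ∃ s : ℚ_[p], D Z = s ^ 2 • δ := by
    rintro Z ⟨c, hZ⟩
    have hp0 : (p : ℚ_[p]) ≠ 0 := by exact_mod_cast hp.out.ne_zero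
    have h1 : ∀ m : ℕ, Rel p (D ((algebraMap ℚ_[p] F ((p : ℚ_[p]) ^ m)) • X₀ + Z)) δ := by
      intro m
      have h2 := g.add_mem (g.smul_mem ((p : ℚ_[p]) ^ m) hY₀) hZ
      have h3 := hrel _ h2
      have h4 : (p : ℚ_[p]) ^ m • Y₀ = (algebraMap ℚ_[p] F ((p : ℚ_[p]) ^ m)) • Y₀ := by
        rw [algebraMap_smul]
      have h5 : (p : ℚ_[p]) ^ m • X₀ = (algebraMap ℚ_[p] F ((p : ℚ_[p]) ^ m)) • X₀ := by
        rw [algebraMap_smul]
      change Rel p (D ((p : ℚ_[p]) ^ m • X₀ + Z)) (D ((p : ℚ_[p]) ^ m • Y₀ + c • 1)) at h3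
      rw [D_add_scalar, h4, D_smul, ← map_pow, ← Algebra.smul_def] at h3
      rw [← h5]
      exact h3.left (pow_ne_zero m hp0)
    have hp1 : ‖(p : ℚ_[p])‖ < 1 := by
      rw [Padic.norm_p]
      exact inv_lt_one_of_one_lt₀ (by exact_mod_cast hp.out.one_lt)
    have h6 : Tendsto (fun m : ℕ => (algebraMap ℚ_[p] F ((p : ℚ_[p]) ^ m))) atTop (𝓝 0) := by
      have h7 := tendsto_pow_atTop_nhds_zero_of_norm_lt_one hp1
      have h8 : Continuous (algebraMap ℚ_[p] F) := continuous_algebraMap ℚ_[p] F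
      have h9 := (h8.tendsto 0).comp h7
      rwa [map_zero] at h9
    have h7 : Tendsto (fun m : ℕ => D ((algebraMap ℚ_[p] F ((p : ℚ_[p]) ^ m)) • X₀ + Z)) atTop
        (𝓝 (D Z)) := by
      have h8 : ∀ m : ℕ, D ((algebraMap ℚ_[p] F ((p : ℚ_[p]) ^ m)) • X₀ + Z) =
          (algebraMap ℚ_[p] F ((p : ℚ_[p]) ^ m)) ^ 2 * D X₀ +
            2 * ((algebraMap ℚ_[p] F ((p : ℚ_[p]) ^ m)) * B X₀ Z) + D Z := by
        intro m
        rw [D_add, D_smul, B_smul_left]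
      simp_rw [h8]
      have h9 := (((h6.pow 2).mul_const (D X₀)).add ((h6.mul_const (B X₀ Z)).const_mul 2)).add_const
        (D Z)
      simpa using h9
    exact (Rel.tendsto h7 tendsto_const_nhds h1).eq hδ
  obtain ⟨Z₁, hZ₁, hD₁⟩ := exists_D hS Id1_add
  obtain ⟨Z, hZ, hD₂⟩ := exists_br hS Id1_add hD₁
  set Z₂ := br Z₁ Z with hZ₂d
  have hZ₂ : (Z₂, (0 : M2 F)) ∈ g := by
    obtain ⟨c, hc⟩ := hZ₁
    obtain ⟨d, hd⟩ := hZ
    have := hbr _ hc _ hd
    rwa [br_scalar_left] at this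
  obtain ⟨c, hc⟩ := hZ₁
  obtain ⟨s₁, hs₁⟩ := hsq Z₁ ⟨c, hc⟩
  obtain ⟨s₂, hs₂⟩ := hsq Z₂ ⟨0, by rwa [zero_smul]⟩
  have hs₁0 : s₁ ≠ 0 := by
    rintro rfl
    apply hD₁
    rw [hs₁]
    simp
  have hs₂0 : s₂ ≠ 0 := by
    rintro rfl
    apply hD₂
    rw [hs₂]
    simp
  apply not_sum_squares (p := p)
  intro x y
  have h1 : (((x / s₁) • Z₁ + (y / s₂) • Z₂ : M2 F), ((algebraMap ℚ_[p] F (x / s₁)) * c) • (1 : M2 F)) ∈ g := by
    have := g.add_mem (g.smul_mem (x / s₁) hc) (g.smul_mem (y / s₂) hZ₂)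
    rwa [Prod.smul_mk, Prod.smul_mk, Prod.mk_add_mk, smul_zero, add_zero, ← smul_assoc,
      Algebra.smul_def (x / s₁) c] at this
  obtain ⟨z, hz⟩ := hsq _ ⟨_, h1⟩
  refine ⟨z, ?_⟩
  have e1 : (x / s₁) • Z₁ = (algebraMap ℚ_[p] F (x / s₁)) • Z₁ := by rw [algebraMap_smul]
  have e2 : (y / s₂) • Z₂ = (algebraMap ℚ_[p] F (y / s₂)) • Z₂ := by rw [algebraMap_smul]
  rw [e1, e2, D_add, D_smul, D_smul, B_smul_left, B_smul_right, hZ₂d, B_br, ← hZ₂d, hs₁, hs₂,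
    mul_zero, mul_zero, mul_zero, add_zero, ← map_pow, ← map_pow, ← Algebra.smul_def,
    ← Algebra.smul_def, smul_smul, smul_smul, ← add_smul] at hz
  have h2 : ((x / s₁) ^ 2 * s₁ ^ 2 + (y / s₂) ^ 2 * s₂ ^ 2 - z ^ 2) • δ = 0 := by
    rw [sub_smul, hz, sub_self]
  rw [smul_eq_zero] at h2
  rcases h2 with h2 | h2
  · have h3 : (x / s₁) ^ 2 * s₁ ^ 2 = x ^ 2 := by
      rw [← mul_pow, div_mul_cancel₀ _ hs₁0]
    have h4 : (y / s₂) ^ 2 * s₂ ^ 2 = y ^ 2 := by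
      rw [← mul_pow, div_mul_cancel₀ _ hs₂0]
    rw [h3, h4] at h2
    linear_combination h2
  · exact absurd h2 hδ

/-- elements `(X, scalar)` are pairs of scalars -/
theorem Dat.scalar {g : Submodule ℚ_[p] (M2 F × M2 F)} (h : Dat g) {X : M2 F} (hX : X ∈ Id1 g) :
    ∃ d : F, X = d • 1 := by
  have hchar : CharZero F := charZero_of_injective_algebraMap (algebraMap ℚ_[p] F).injective
  by_contra hcon
  push Not at hcon
  exact no_big h.br_mem h.rel (exists_D h.sp2 P2_add) (h.id1 ⟨X, hX, hcon⟩)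

/-- if the first discriminant is not zero then the second is not zero -/
theorem Dat.ne_zero {g : Submodule ℚ_[p] (M2 F × M2 F)} (h : Dat g) {X Y : M2 F} (hw : (X, Y) ∈ g)
    (hX : D X ≠ 0) : D Y ≠ 0 := by
  have hchar : CharZero F := charZero_of_injective_algebraMap (algebraMap ℚ_[p] F).injective
  intro hY
  have h1 : ∀ Z ∈ P1 g, br X Z = 0 := by
    rintro Z ⟨Z', hz⟩
    have h2 := h.br_mem _ hw _ (h.br_mem _ hw _ (h.br_mem _ hw _ hz))
    simp only at h2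
    rw [br3, br3, hY, zero_smul] at h2
    obtain ⟨d, hd⟩ := h.scalar ⟨0, by rwa [zero_smul]⟩
    have h3 := zero_of_scalar hd (by rw [Matrix.trace_smul, trace_br, smul_zero])
    rcases smul_eq_zero.1 h3 with h4 | h4
    · exact absurd h4 hX
    · exact h4
  obtain ⟨c, hc⟩ := scalar_of_br_set h.sp1 h1
  apply hX
  rw [hc, D_scalar]

/-- **the discriminants agree** -/
theorem Dat.eq_ne {g : Submodule ℚ_[p] (M2 F × M2 F)} (h : Dat g) {X Y : M2 F} (hw : (X, Y) ∈ g)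
    (hX : D X ≠ 0) : D X = D Y := by
  have hchar : CharZero F := charZero_of_injective_algebraMap (algebraMap ℚ_[p] F).injective
  have hY : D Y ≠ 0 := h.ne_zero hw hX
  obtain ⟨μ, hμ⟩ := (h.rel _ hw).symm.eq hX
  simp only at hμ
  have hg3 : ∀ Z Z', (Z, Z') ∈ g → (D X • br X Z, D Y • br Y Z') ∈ g := by
    intro Z Z' hz
    have h2 := h.br_mem _ hw _ (h.br_mem _ hw _ (h.br_mem _ hw _ hz))
    simp only at h2
    rwa [br3, br3] at h2
  by_cases hδ : ∃ d : ℚ_[p], D X = algebraMap ℚ_[p] F d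
  · obtain ⟨d, hd⟩ := hδ
    by_contra hne
    have h1 : ∀ Z' ∈ P2 g, br Y Z' = 0 := by
      rintro Z' ⟨Z, hz⟩
      have h2 := g.sub_mem (hg3 Z Z' hz) (g.smul_mem d (h.br_mem _ hw _ hz))
      simp only [Prod.smul_mk, Prod.mk_sub_mk] at h2
      have h3 : D X • br X Z - d • br X Z = 0 := by
        rw [hd, algebraMap_smul, sub_self]
      have h4 : D Y • br Y Z' - d • br Y Z' = (D Y - D X) • br Y Z' := by
        rw [sub_smul, hd, algebraMap_smul]
      rw [h3, h4] at h2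
      obtain ⟨e, he⟩ := h.swap.scalar (X := (D Y - D X) • br Y Z') ⟨0, by
        change ((0 : F) • (1 : M2 F), (D Y - D X) • br Y Z') ∈ g
        rwa [zero_smul]⟩
      have h5 := zero_of_scalar he (by rw [Matrix.trace_smul, trace_br, smul_zero])
      rcases smul_eq_zero.1 h5 with h6 | h6
      · exact absurd (sub_eq_zero.1 h6).symm hne
      · exact h6
    obtain ⟨c, hc⟩ := scalar_of_br_set h.sp2 h1
    apply hY
    rw [hc, D_scalar]
  · push Not at hδ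
    obtain ⟨Z, ⟨Z', hz⟩, hZ⟩ := exists_br h.sp1 P1_add hX
    have hbr := h.br_mem _ hw _ hz
    simp only at hbr
    have hZ' : D (br Y Z') ≠ 0 := h.ne_zero hbr hZ
    obtain ⟨ν, hν⟩ := (h.rel _ hbr).eq hZ'
    simp only at hν
    have h1 := g.add_mem hbr (hg3 Z Z' hz)
    simp only [Prod.mk_add_mk] at h1
    have h2 : br X Z + D X • br X Z = (1 + D X) • br X Z := by rw [add_smul, one_smul]
    have h3 : br Y Z' + D Y • br Y Z' = (1 + D Y) • br Y Z' := by rw [add_smul, one_smul]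
    rw [h2, h3] at h1
    have h4 := h.rel _ h1
    simp only [D_smul] at h4
    have hμ0 : μ ≠ 0 := by
      rintro rfl
      apply hY
      rw [hμ]
      simp
    have h1δ' : 1 + D Y ≠ 0 := by
      intro h0
      rw [hμ, Algebra.smul_def] at h0
      have hμ2 : algebraMap ℚ_[p] F (μ ^ 2) ≠ 0 := by
        rw [map_ne_zero_iff _ (algebraMap ℚ_[p] F).injective]
        exact pow_ne_zero 2 hμ0
      apply hδ (-(μ ^ 2)⁻¹)
      rw [map_neg, map_inv₀]
      field_simp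
      linear_combination h0
    obtain ⟨s, hs⟩ := h4.eq (mul_ne_zero (pow_ne_zero 2 h1δ') hZ')
    -- `(1 + D X)² ν² = s² (1 + D Y)²`
    rw [hν] at hs
    have hν0 : ν ≠ 0 := by
      rintro rfl
      apply hZ
      rw [hν]
      simp
    have h5 : ((1 + D X) * algebraMap ℚ_[p] F ν) ^ 2 = (algebraMap ℚ_[p] F s * (1 + D Y)) ^ 2 := by
      apply mul_right_cancel₀ hZ'
      rw [Algebra.smul_def, Algebra.smul_def, map_pow, map_pow] at hs
      linear_combination hs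
    have h6 : ∃ c : ℚ_[p], 1 + D X = algebraMap ℚ_[p] F c * (1 + D Y) := by
      have hν1 : algebraMap ℚ_[p] F ν ≠ 0 := by
        rwa [map_ne_zero_iff _ (algebraMap ℚ_[p] F).injective]
      rcases sq_eq_sq_iff_eq_or_eq_neg.1 h5 with h7 | h7
      · refine ⟨s / ν, ?_⟩
        rw [map_div₀]
        field_simp
        linear_combination h7
      · refine ⟨-(s / ν), ?_⟩
        rw [map_neg, map_div₀]
        field_simp
        linear_combination h7
    obtain ⟨c, hc⟩ := h6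
    rw [hμ, Algebra.smul_def, map_pow] at hc
    -- `(1 - c μ²) D X = c - 1`
    have h7 : (1 - algebraMap ℚ_[p] F (c * μ ^ 2)) * D X = algebraMap ℚ_[p] F (c - 1) := by
      rw [map_mul, map_pow, map_sub, map_one]
      linear_combination hc
    have h8 : 1 - c * μ ^ 2 = 0 := by
      by_contra h9
      apply hδ ((c - 1) / (1 - c * μ ^ 2))
      have h10 : algebraMap ℚ_[p] F (1 - c * μ ^ 2) ≠ 0 := by
        rwa [map_ne_zero_iff _ (algebraMap ℚ_[p] F).injective]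
      rw [map_div₀, eq_div_iff h10, ← h7, map_sub, map_one]
      ring
    have h9 : c = 1 := by
      have h10 : (1 : F) - algebraMap ℚ_[p] F (c * μ ^ 2) = 0 := by
        rw [← map_one (algebraMap ℚ_[p] F), ← map_sub, h8, map_zero]
      rw [h10, zero_mul] at h7
      have h11 := (map_eq_zero_iff _ (algebraMap ℚ_[p] F).injective).1 h7.symm
      linear_combination h11
    rw [h9, one_mul, sub_eq_zero] at h8
    rw [hμ, ← h8, one_smul]

/-- **the discriminants agree** -/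
theorem Dat.eq {g : Submodule ℚ_[p] (M2 F × M2 F)} (h : Dat g) {X Y : M2 F} (hw : (X, Y) ∈ g) :
    D X = D Y := by
  by_cases hX : D X = 0
  · by_cases hY : D Y = 0
    · rw [hX, hY]
    · exact (h.swap.eq_ne (X := Y) (Y := X) hw hY).symm
  · exact h.eq_ne hw hX

end Pool.Agent.H86.FM.Str
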